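import Pool.Agent.Lib.MP_06c6c1_co.FA.Defs

set_option autoImplicit false

namespace MP06c.FA

open Finset Classical MP06c

theorem count_small {V : Type} (X : Finset V) (s : ℕ) :
    (X.powerset.filter (fun S => S.card ≤ s)).card ≤ (1 + X.card) ^ s := by
  set o : Option V := none with ho
  set Y : Finset (Option V) := insert none (X.image some) with hY
  have hYc : Y.card = 1 + X.card := by
    rw [hY, card_insert_of_notMem (by simp), card_image_of_injective _ (Option.some_injective V)]
    ring
  -- surjection from functions `Fin s → Y`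
  set Φ : (Fin s → Option V) → Finset V :=
    fun f => X.filter (fun x => ∃ i, f i = some x) with hΦ
  have hsub : X.powerset.filter (fun S => S.card ≤ s) ⊆
      (Fintype.piFinset (fun _ : Fin s => Y)).image Φ := by
    intro S hS
    rw [mem_filter, mem_powerset] at hS
    obtain ⟨hSX, hSs⟩ := hS
    rw [mem_image]
    have e := S.equivFin
    refine ⟨fun i => if h : (i : ℕ) < S.card then some (e.symm ⟨i, h⟩ : V) else none, ?_, ?_⟩
    · rw [Fintype.mem_piFinset]
      intro i
      by_cases h : (i : ℕ) < S.card
      · simp only [h, dif_pos, hY, mem_insert, mem_image]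
        right
        exact ⟨_, hSX (e.symm ⟨i, h⟩).2, rfl⟩
      · simp [h, hY]
    · rw [hΦ]
      ext x
      simp only [mem_filter]
      constructor
      · rintro ⟨_, i, hi⟩
        by_cases h : (i : ℕ) < S.card
        · rw [dif_pos h] at hi
          have := Option.some_injective V hi
          rw [← this]
          exact (e.symm ⟨i, h⟩).2
        · rw [dif_neg h] at hi
          exact absurd hi (by simp)
      · intro hx
        refine ⟨hSX hx, ⟨(e ⟨x, hx⟩ : ℕ), lt_of_lt_of_le (e ⟨x, hx⟩).2 hSs⟩, ?_⟩
        have h : ((e ⟨x, hx⟩ : Fin S.card) : ℕ) < S.card := (e ⟨x, hx⟩).2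
        rw [dif_pos h]
        simp
  calc (X.powerset.filter (fun S => S.card ≤ s)).card
      ≤ ((Fintype.piFinset (fun _ : Fin s => Y)).image Φ).card := card_le_card hsub
    _ ≤ (Fintype.piFinset (fun _ : Fin s => Y)).card := card_image_le
    _ = (1 + X.card) ^ s := by
        rw [Fintype.card_piFinset]
        simp [hYc]

end MP06c.FA
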