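import Pool.Agent.Lib.MP_06c6c1_co.FA.Defs

set_option autoImplicit false

namespace MP06c.FA

open Finset Classical MP06c

/-- Greedy step. -/
private theorem Cov_greedy {V ι : Type} (J : Finset V) (B : Finset ι) (A : ι → Finset V) (j : ℕ)
    (hA : ∀ b ∈ B, A b ⊆ J) (hAj : ∀ b ∈ B, j ≤ (A b).card) (hj : j ≤ J.card) (hJ : 0 < J.card)
    (k : ℕ) :
    ∃ S : Finset V, S ⊆ J ∧ S.card ≤ k ∧
      ((B.filter (fun b => Disjoint (A b) S)).card : ℝ) ≤
        B.card * (1 - (j : ℝ) / J.card) ^ k := by
  have hJ' : (0 : ℝ) < J.card := by exact_mod_cast hJ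
  have hr : 0 ≤ 1 - (j : ℝ) / J.card := by
    rw [sub_nonneg, div_le_one hJ']
    exact_mod_cast hj
  induction k with
  | zero => exact ⟨∅, empty_subset _, by simp, by simp⟩
  | succ k ih =>
    obtain ⟨S, hS, hSc, hSB⟩ := ih
    set B' := B.filter (fun b => Disjoint (A b) S) with hB'
    -- averaging
    have havg : ∃ x ∈ J, (j : ℝ) / J.card * B'.card ≤
        ((B'.filter (fun b => x ∈ A b)).card : ℝ) := by
      by_contra hcon
      push Not at hcon
      have h1 : ∑ x ∈ J, ((B'.filter (fun b => x ∈ A b)).card : ℝ) < j * B'.card := by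
        calc ∑ x ∈ J, ((B'.filter (fun b => x ∈ A b)).card : ℝ)
            < ∑ x ∈ J, (j : ℝ) / J.card * B'.card :=
              sum_lt_sum_of_nonempty (card_pos.1 hJ) hcon
          _ = j * B'.card := by
              rw [sum_const, nsmul_eq_mul]
              field_simp
      have h2 : ∑ x ∈ J, (B'.filter (fun b => x ∈ A b)).card = ∑ b ∈ B', (A b).card := by
        simp only [card_filter]
        rw [sum_comm]
        refine sum_congr rfl (fun b hb => ?_)
        have hbB : b ∈ B := (mem_filter.1 hb).1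
        rw [← card_filter]
        congr 1
        ext x
        rw [mem_filter]
        exact ⟨fun h => h.2, fun h => ⟨hA b hbB h, h⟩⟩
      have h3 : (j : ℝ) * B'.card ≤ ∑ b ∈ B', ((A b).card : ℝ) := by
        calc (j : ℝ) * B'.card = ∑ b ∈ B', (j : ℝ) := by rw [sum_const, nsmul_eq_mul]; ring
          _ ≤ _ := sum_le_sum (fun b hb => by exact_mod_cast hAj b (mem_filter.1 hb).1)
      have h4 : (∑ x ∈ J, ((B'.filter (fun b => x ∈ A b)).card : ℝ)) =
          ∑ b ∈ B', ((A b).card : ℝ) := by exact_mod_cast h2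
      linarith
    obtain ⟨x, hxJ, hx⟩ := havg
    refine ⟨insert x S, insert_subset hxJ hS, (card_insert_le _ _).trans (by omega), ?_⟩
    have hsplit : (B.filter (fun b => Disjoint (A b) (insert x S))).card +
        (B'.filter (fun b => x ∈ A b)).card = B'.card := by
      rw [← card_filter_add_card_filter_not (s := B') (fun b => x ∈ A b), add_comm]
      congr 1
      congr 1
      ext b
      simp only [hB', mem_filter, disjoint_insert_right]
      tauto
    have hsplit' : ((B.filter (fun b => Disjoint (A b) (insert x S))).card : ℝ) +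
        ((B'.filter (fun b => x ∈ A b)).card : ℝ) = (B'.card : ℝ) := by exact_mod_cast hsplit
    calc ((B.filter (fun b => Disjoint (A b) (insert x S))).card : ℝ)
        ≤ (1 - (j : ℝ) / J.card) * B'.card := by
          have : (1 - (j : ℝ) / J.card) * B'.card = B'.card - (j : ℝ) / J.card * B'.card := by
            ring
          rw [this]; linarith
      _ ≤ (1 - (j : ℝ) / J.card) * (B.card * (1 - (j : ℝ) / J.card) ^ k) := by gcongr
      _ = B.card * (1 - (j : ℝ) / J.card) ^ (k + 1) := by ring

theorem cover {V ι : Type} (J : Finset V) (B : Finset ι) (A : ι → Finset V) (M j : ℕ)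
    (hA : ∀ b ∈ B, A b ⊆ J) (hM : 2 ≤ M) (hj : (Real.log M) ^ 2 ≤ j) (hB : B.card ≤ M)
    (hAj : ∀ b ∈ B, j ≤ (A b).card) :
    ∃ S : Finset V, S ⊆ J ∧ (S.card : ℝ) ≤ J.card / Real.log M + 1 ∧
      ∀ b ∈ B, ¬ Disjoint (A b) S := by
  have hM0 : (0 : ℝ) < M := by exact_mod_cast (by omega : 0 < M)
  have hlog : 0 < Real.log M := Real.log_pos (by exact_mod_cast hM)
  rcases B.eq_empty_or_nonempty with rfl | ⟨b0, hb0⟩
  · exact ⟨∅, empty_subset _, by simp; positivity, by simp⟩
  have hj0 : (0 : ℝ) < j := lt_of_lt_of_le (by positivity) hj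
  have hj1 : 0 < j := by exact_mod_cast hj0
  have hjJ : j ≤ J.card := (hAj b0 hb0).trans (card_le_card (hA b0 hb0))
  have hJ : 0 < J.card := lt_of_lt_of_le hj1 hjJ
  have hJ' : (0 : ℝ) < J.card := by exact_mod_cast hJ
  set k : ℕ := ⌊(J.card : ℝ) / j * Real.log M⌋₊ + 1 with hk
  have hk0 : 0 ≤ (J.card : ℝ) / j * Real.log M := by positivity
  obtain ⟨S, hS, hSc, hSB⟩ := Cov_greedy J B A j hA hAj hjJ hJ k
  refine ⟨S, hS, ?_, ?_⟩
  · calc (S.card : ℝ) ≤ k := by exact_mod_cast hSc
      _ ≤ (J.card : ℝ) / j * Real.log M + 1 := by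
          rw [hk]; push_cast
          have := Nat.floor_le hk0
          linarith
      _ ≤ J.card / Real.log M + 1 := by
          have : (J.card : ℝ) / j * Real.log M ≤ J.card / Real.log M := by
            rw [div_mul_eq_mul_div, div_le_div_iff₀ hj0 hlog]
            have h5 : (J.card : ℝ) * Real.log M * Real.log M = J.card * (Real.log M) ^ 2 := by
              ring
            rw [h5]
            gcongr
          linarith
  · intro b hb hd
    have h1 : (1 : ℝ) ≤ ((B.filter (fun b => Disjoint (A b) S)).card : ℝ) := by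
      exact_mod_cast card_pos.2 ⟨b, mem_filter.2 ⟨hb, hd⟩⟩
    have hr : 0 ≤ 1 - (j : ℝ) / J.card := by
      rw [sub_nonneg, div_le_one hJ']
      exact_mod_cast hjJ
    have h2 : (1 - (j : ℝ) / J.card) ^ k ≤ Real.exp (-((j : ℝ) / J.card * k)) := by
      calc (1 - (j : ℝ) / J.card) ^ k ≤ (Real.exp (-((j : ℝ) / J.card))) ^ k := by
            refine pow_le_pow_left₀ hr ?_ k
            have := Real.add_one_le_exp (-((j : ℝ) / J.card))
            linarith
        _ = Real.exp (-((j : ℝ) / J.card * k)) := by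
            rw [← Real.exp_nat_mul]
            congr 1
            ring
    have h3 : Real.log M < (j : ℝ) / J.card * k := by
      have h4 : (J.card : ℝ) / j * Real.log M < k := by
        rw [hk]; push_cast
        exact Nat.lt_floor_add_one _
      calc Real.log M = (j : ℝ) / J.card * ((J.card : ℝ) / j * Real.log M) := by field_simp
        _ < (j : ℝ) / J.card * k := by gcongr
    have h4 : (M : ℝ) * Real.exp (-((j : ℝ) / J.card * k)) < 1 := by
      calc (M : ℝ) * Real.exp (-((j : ℝ) / J.card * k)) < M * Real.exp (-Real.log M) := by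
            gcongr
        _ = 1 := by rw [Real.exp_neg, Real.exp_log hM0, mul_inv_cancel₀ hM0.ne']
    have h5 : (B.card : ℝ) ≤ M := by exact_mod_cast hB
    have h6 : (B.card : ℝ) * (1 - (j : ℝ) / J.card) ^ k < 1 := by
      calc (B.card : ℝ) * (1 - (j : ℝ) / J.card) ^ k
          ≤ M * Real.exp (-((j : ℝ) / J.card * k)) := by gcongr
        _ < 1 := h4
    linarith

end MP06c.FA
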