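import Pool.Agent.Lib.MP_06c6c1_co.FA.Fre
import Pool.Agent.Lib.MP_06c6c1_co.FA.Cov
import Pool.Agent.Lib.MP_06c6c1_co.FA.Cnt

set_option autoImplicit false

namespace MP06c.FA

open Finset Classical MP06c

private theorem Enc_mem_ind {V : Type} {G : SimpleGraph V} {X J : Finset V} :
    J ∈ ind G X ↔ J ⊆ X ∧ ∀ x ∈ J, ∀ y ∈ J, ¬ G.Adj x y := by
  simp [ind]

private theorem Enc_mem_nb {V : Type} [Fintype V] {G : SimpleGraph V} {u v : V} :
    u ∈ nb G v ↔ G.Adj v u := by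
  simp [nb]

/-- The determined superset. -/
private theorem Enc_Y {V : Type} [Fintype V] (G : SimpleGraph V) (X J S : Finset V)
    (hJ : J ∈ ind G X) (hSJ : S ⊆ J)
    (hS : ∀ u ∈ X \ J, ¬ Disjoint (nb G u) J → ¬ Disjoint (J ∩ nb G u) S) :
    X.filter (fun x => Disjoint (nb G x) S) = J ∪ fr G X J := by
  rw [Enc_mem_ind] at hJ
  ext x
  simp only [mem_filter, mem_union, fr, mem_sdiff]
  constructor
  · rintro ⟨hx, hd⟩
    by_cases hxJ : x ∈ J
    · exact Or.inl hxJ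
    · right
      refine ⟨⟨hx, hxJ⟩, ?_⟩
      by_contra hc
      refine hS x (mem_sdiff.2 ⟨hx, hxJ⟩) hc ?_
      exact hd.mono_left inter_subset_right
  · rintro (hx | ⟨⟨hx, hxJ⟩, hd⟩)
    · refine ⟨hJ.1 hx, ?_⟩
      rw [Finset.disjoint_left]
      intro y hy hyS
      exact hJ.2 x hx y (hSJ hyS) (Enc_mem_nb.1 hy)
    · exact ⟨hx, hd.mono_right hSJ⟩

/-- Existence of the code. -/
private theorem Enc_code {V : Type} [Fintype V] (G : SimpleGraph V) (X J : Finset V) (M j0 : ℕ)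
    (m0 : ℝ) (hM : 2 ≤ M) (hX : X.card + 1 ≤ M) (hj : (Real.log M) ^ 2 ≤ j0)
    (hJ : J ∈ ind G X) (hcard : (J.card : ℝ) ≤ m0)
    (hno : ∀ u ∈ X \ J, ¬ (1 ≤ (J ∩ nb G u).card ∧ (J ∩ nb G u).card ≤ j0)) :
    ∃ S : Finset V, S ⊆ J ∧ (S.card : ℝ) ≤ m0 / Real.log M + 1 ∧
      X.filter (fun x => Disjoint (nb G x) S) = J ∪ fr G X J := by
  have hlog : 0 < Real.log M := Real.log_pos (by exact_mod_cast hM)
  obtain ⟨S, hSJ, hSc, hS⟩ := cover J ((X \ J).filter (fun u => ¬ Disjoint (nb G u) J))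
    (fun u => J ∩ nb G u) M j0 (fun b _ => inter_subset_left) hM hj
    (by
      calc ((X \ J).filter (fun u => ¬ Disjoint (nb G u) J)).card ≤ (X \ J).card :=
            card_filter_le _ _
        _ ≤ X.card := card_le_card sdiff_subset
        _ ≤ M := by omega)
    (by
      intro b hb
      rw [mem_filter] at hb
      have h1 := hno b hb.1
      have h2 : 1 ≤ (J ∩ nb G b).card := by
        rw [Nat.one_le_iff_ne_zero]
        intro h0
        rw [card_eq_zero] at h0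
        exact hb.2 (by rw [Finset.disjoint_iff_inter_eq_empty, inter_comm]; exact h0)
      by_contra hc
      exact h1 ⟨h2, by omega⟩)
  refine ⟨S, hSJ, ?_, ?_⟩
  · calc (S.card : ℝ) ≤ J.card / Real.log M + 1 := hSc
      _ ≤ m0 / Real.log M + 1 := by gcongr
  · refine Enc_Y G X J S hJ hSJ ?_
    intro u hu hd
    exact hS u (mem_filter.2 ⟨hu, hd⟩)

/-- Number of codable sets. -/
private theorem Enc_count {V : Type} [Fintype V] (G : SimpleGraph V) (X : Finset V) (M : ℕ)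
    (m0 : ℝ) (hm0 : 0 ≤ m0) (hM : 2 ≤ M) (hX : X.card + 1 ≤ M) (Q : Finset (Finset V))
    (hQ : ∀ J ∈ Q, ∃ S : Finset V, S ⊆ X ∧ (S.card : ℝ) ≤ m0 / Real.log M + 1 ∧
      J ⊆ X.filter (fun x => Disjoint (nb G x) S) ∧
      ((X.filter (fun x => Disjoint (nb G x) S)).card : ℝ) ≤ m0) :
    (Q.card : ℝ) ≤ Real.exp (1.7 * m0 + Real.log M) := by
  have hM0 : (0 : ℝ) < M := by exact_mod_cast (by omega : 0 < M)
  have hM1 : (1 : ℝ) ≤ M := by exact_mod_cast (by omega : 1 ≤ M)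
  have hlog : 0 < Real.log M := Real.log_pos (by exact_mod_cast hM)
  set s : ℕ := ⌊m0 / Real.log M + 1⌋₊ with hs
  have hs0 : 0 ≤ m0 / Real.log M + 1 := by positivity
  set 𝒮 : Finset (Finset V) := (X.powerset.filter (fun S => S.card ≤ s)).filter
    (fun S => ((X.filter (fun x => Disjoint (nb G x) S)).card : ℝ) ≤ m0) with h𝒮
  have hsub : Q ⊆ 𝒮.biUnion (fun S => (X.filter (fun x => Disjoint (nb G x) S)).powerset) := by
    intro J hJ
    obtain ⟨S, h1, h2, h3, h4⟩ := hQ J hJ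
    rw [mem_biUnion]
    refine ⟨S, ?_, mem_powerset.2 h3⟩
    rw [h𝒮, mem_filter, mem_filter, mem_powerset]
    exact ⟨⟨h1, Nat.le_floor h2⟩, h4⟩
  have hcard : Q.card ≤ 𝒮.card * 2 ^ ⌊m0⌋₊ := by
    refine (card_le_card hsub).trans ?_
    refine card_biUnion_le_card_mul _ _ _ ?_
    intro S hS
    rw [card_powerset]
    refine Nat.pow_le_pow_right (by norm_num) ?_
    rw [h𝒮, mem_filter] at hS
    exact Nat.le_floor hS.2
  have h𝒮c : 𝒮.card ≤ M ^ s := by
    calc 𝒮.card ≤ (X.powerset.filter (fun S => S.card ≤ s)).card := card_filter_le _ _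
      _ ≤ (1 + X.card) ^ s := count_small X s
      _ ≤ M ^ s := Nat.pow_le_pow_left (by omega) s
  have hreal : (Q.card : ℝ) ≤ (M : ℝ) ^ s * (2 : ℝ) ^ ⌊m0⌋₊ := by
    have : (Q.card : ℝ) ≤ ((𝒮.card * 2 ^ ⌊m0⌋₊ : ℕ) : ℝ) := by exact_mod_cast hcard
    refine this.trans ?_
    push_cast
    have h2 : (𝒮.card : ℝ) ≤ (M : ℝ) ^ s := by exact_mod_cast h𝒮c
    gcongr
  have hA : (M : ℝ) ^ s ≤ Real.exp (m0 + Real.log M) := by
    rw [← Real.rpow_natCast, Real.rpow_def_of_pos hM0]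
    apply Real.exp_le_exp.2
    calc Real.log M * (s : ℝ) ≤ Real.log M * (m0 / Real.log M + 1) := by
          gcongr
          exact Nat.floor_le hs0
      _ = m0 + Real.log M := by field_simp
  have hB : (2 : ℝ) ^ ⌊m0⌋₊ ≤ Real.exp (0.7 * m0) := by
    rw [← Real.rpow_natCast, Real.rpow_def_of_pos (by norm_num)]
    apply Real.exp_le_exp.2
    have h2 : Real.log 2 ≤ 0.7 := by
      have := Real.log_two_lt_d9
      norm_num at this ⊢
      linarith
    have h3 : ((⌊m0⌋₊ : ℕ) : ℝ) ≤ m0 := Nat.floor_le hm0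
    have h4 : 0 ≤ Real.log 2 := Real.log_nonneg (by norm_num)
    have h5 : (0 : ℝ) ≤ (⌊m0⌋₊ : ℕ) := by positivity
    nlinarith
  calc (Q.card : ℝ) ≤ (M : ℝ) ^ s * (2 : ℝ) ^ ⌊m0⌋₊ := hreal
    _ ≤ Real.exp (m0 + Real.log M) * Real.exp (0.7 * m0) := by gcongr
    _ = Real.exp (1.7 * m0 + Real.log M) := by
        rw [← Real.exp_add]
        congr 1
        ring

theorem encode {V : Type} [Fintype V] (G : SimpleGraph V) (X : Finset V) (M j0 : ℕ) (L : ℝ)
    (hL : 1 ≤ L) (hM : 2 ≤ M) (hX : X.card + 1 ≤ M) (hj : (Real.log M) ^ 2 ≤ j0)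
    (hs : (cs G X : ℝ) < L / 64 * ci G X) (hi : Real.exp (L / 2) ≤ ci G X)
    (hN : Real.exp (0.2125 * L + Real.log M) < Real.exp (L / 2) / 2) :
    (ci G X : ℝ) / 4 ≤ ((ind G X).filter (fun J => ∃ u ∈ X \ J, 1 ≤ (J ∩ nb G u).card ∧
      (J ∩ nb G u).card ≤ j0)).card := by
  by_contra hcon
  push Not at hcon
  set E : Finset V → Prop := fun J => ∃ u ∈ X \ J, 1 ≤ (J ∩ nb G u).card ∧
      (J ∩ nb G u).card ≤ j0 with hE
  set m0 : ℝ := L / 8 with hm0
  have hm0' : 0 < m0 := by rw [hm0]; linarith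
  have hci : (0 : ℝ) < ci G X := lt_of_lt_of_le (Real.exp_pos _) hi
  -- the sets with many elements or free vertices
  set B1 : Finset (Finset V) := (ind G X).filter
    (fun J => m0 < (J.card : ℝ) + ((fr G X J).card : ℝ)) with hB1
  have hsum : ∑ J ∈ ind G X, ((J.card : ℝ) + ((fr G X J).card : ℝ)) = 2 * cs G X := by
    rw [sum_add_distrib]
    have h1 := free_sum G X
    have h2 : (∑ J ∈ ind G X, ((fr G X J).card : ℝ)) = cs G X := by exact_mod_cast h1
    have h3 : (∑ J ∈ ind G X, (J.card : ℝ)) = cs G X := by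
      rw [cs]; push_cast; rfl
    rw [h2, h3]; ring
  have hB1c : (B1.card : ℝ) < ci G X / 4 := by
    have h1 : m0 * B1.card ≤ 2 * cs G X := by
      rw [← hsum]
      calc m0 * (B1.card : ℝ) = ∑ J ∈ B1, m0 := by rw [sum_const, nsmul_eq_mul]; ring
        _ ≤ ∑ J ∈ B1, ((J.card : ℝ) + ((fr G X J).card : ℝ)) :=
            sum_le_sum (fun J hJ => (by rw [hB1, mem_filter] at hJ; exact hJ.2.le))
        _ ≤ _ := sum_le_sum_of_subset_of_nonneg (filter_subset _ _)
            (fun _ _ _ => by positivity)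
    have h2 : m0 * B1.card < m0 * (ci G X / 4) := by
      calc m0 * (B1.card : ℝ) ≤ 2 * cs G X := h1
        _ < 2 * (L / 64 * ci G X) := by linarith
        _ = m0 * (ci G X / 4) := by rw [hm0]; ring
    exact lt_of_mul_lt_mul_left h2 hm0'.le
  set Q : Finset (Finset V) := (ind G X).filter
    (fun J => ¬ E J ∧ (J.card : ℝ) + ((fr G X J).card : ℝ) ≤ m0) with hQ
  have hQc : (ci G X : ℝ) / 2 < Q.card := by
    have hcov : ind G X ⊆ Q ∪ (B1 ∪ (ind G X).filter E) := by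
      intro J hJ
      by_cases h1 : E J
      · exact mem_union_right _ (mem_union_right _ (mem_filter.2 ⟨hJ, h1⟩))
      · by_cases h2 : (J.card : ℝ) + ((fr G X J).card : ℝ) ≤ m0
        · exact mem_union_left _ (mem_filter.2 ⟨hJ, h1, h2⟩)
        · exact mem_union_right _ (mem_union_left _ (mem_filter.2 ⟨hJ, not_le.1 h2⟩))
    have h1 : (ind G X).card ≤ Q.card + (B1.card + ((ind G X).filter E).card) :=
      (card_le_card hcov).trans ((card_union_le _ _).trans
        (Nat.add_le_add_left (card_union_le _ _) _))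
    have h2 : (ci G X : ℝ) ≤ Q.card + (B1.card + ((ind G X).filter E).card) := by
      rw [ci]; exact_mod_cast h1
    linarith
  have hQle : (Q.card : ℝ) ≤ Real.exp (1.7 * m0 + Real.log M) := by
    refine Enc_count G X M m0 hm0'.le hM hX Q ?_
    intro J hJ
    rw [hQ, mem_filter] at hJ
    obtain ⟨hJi, hJE, hJm⟩ := hJ
    have hfr : (0 : ℝ) ≤ ((fr G X J).card : ℝ) := by positivity
    obtain ⟨S, h1, h2, h3⟩ := Enc_code G X J M j0 m0 hM hX hj hJi (by linarith)
      (fun u hu hc => hJE ⟨u, hu, hc⟩)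
    refine ⟨S, h1.trans (Enc_mem_ind.1 hJi).1, h2, ?_, ?_⟩
    · rw [h3]; exact subset_union_left
    · rw [h3]
      calc ((J ∪ fr G X J).card : ℝ) ≤ ((J.card + (fr G X J).card : ℕ) : ℝ) := by
            exact_mod_cast card_union_le _ _
        _ ≤ m0 := by push_cast; exact hJm
  have hfin : Real.exp (1.7 * m0 + Real.log M) = Real.exp (0.2125 * L + Real.log M) := by
    congr 2
    rw [hm0]; ring
  rw [hfin] at hQle
  linarith

end MP06c.FA
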