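import Pool.Agent.Lib.MP_06c6c1_co.FA.Defs

set_option autoImplicit false

/-!
# MP_06c6c1_co, project FA, module M1: the fibre decomposition of the independent sets at a vertex
-/

namespace MP06c.FA

open Finset Classical MP06c

private lemma Fib_ind0 {V : Type} (G : SimpleGraph V) (A I : Finset V) :
    I ∈ ind G A ↔ I ⊆ A ∧ ∀ x ∈ I, ∀ y ∈ I, ¬ G.Adj x y := by
  unfold ind
  rw [mem_filter, mem_powerset]

private lemma Fib_ind {V : Type} [Fintype V] (G : SimpleGraph V) (I : Finset V) :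
    I ∈ ind G univ ↔ ∀ x ∈ I, ∀ y ∈ I, ¬ G.Adj x y := by
  rw [Fib_ind0]
  exact ⟨fun h => h.2, fun h => ⟨subset_univ _, h⟩⟩

private lemma Fib_nb {V : Type} [Fintype V] (G : SimpleGraph V) (v u : V) : u ∈ nb G v ↔ G.Adj v u := by
  unfold nb
  rw [mem_filter]
  exact ⟨fun h => h.2, fun h => ⟨mem_univ _, h⟩⟩

private lemma Fib_OO {V : Type} [Fintype V] (G : SimpleGraph V) (v : V) (O : Finset V) :
    O ∈ OO G v ↔ (∀ x ∈ O, ∀ y ∈ O, ¬ G.Adj x y) ∧ v ∉ O ∧ ∀ u, G.Adj v u → u ∉ O := by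
  unfold OO
  rw [mem_filter, Fib_ind]
  constructor
  · rintro ⟨h1, h2, h3⟩
    exact ⟨h1, h2, fun u hu hO => (disjoint_left.1 h3) ((Fib_nb G v u).2 hu) hO⟩
  · rintro ⟨h1, h2, h3⟩
    exact ⟨h1, h2, disjoint_left.2 fun u hu hO => h3 u ((Fib_nb G v u).1 hu) hO⟩

private lemma Fib_av {V : Type} [Fintype V] (G : SimpleGraph V) (v : V) (O J : Finset V) :
    J ∈ ind G (av G v O) ↔ (∀ u ∈ J, G.Adj v u ∧ ∀ x, G.Adj u x → x ∉ O) ∧
      ∀ x ∈ J, ∀ y ∈ J, ¬ G.Adj x y := by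
  rw [Fib_ind0]
  constructor
  · rintro ⟨h1, h2⟩
    refine ⟨fun u hu => ?_, h2⟩
    have h3 := h1 hu
    unfold av at h3
    rw [mem_filter] at h3
    exact ⟨(Fib_nb G v u).1 h3.1, fun x hx hO => (disjoint_left.1 h3.2) ((Fib_nb G u x).2 hx) hO⟩
  · rintro ⟨h1, h2⟩
    refine ⟨fun u hu => ?_, h2⟩
    unfold av
    rw [mem_filter]
    exact ⟨(Fib_nb G v u).2 (h1 u hu).1, disjoint_left.2 fun x hx hO => (h1 u hu).2 x ((Fib_nb G u x).1 hx) hO⟩

private lemma Fib_A {V : Type} [Fintype V] (G : SimpleGraph V) (v : V) (h : Finset V → ℝ) :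
    ∑ I ∈ (ind G univ).filter (fun I => v ∈ I), h I = ∑ O ∈ OO G v, h (insert v O) := by
  refine (sum_nbij' (fun O => insert v O) (fun I => I.erase v) ?_ ?_ ?_ ?_ ?_).symm
  · intro O hO
    obtain ⟨h1, h2, h3⟩ := (Fib_OO G v O).1 hO
    rw [mem_filter, Fib_ind]
    refine ⟨?_, mem_insert_self v O⟩
    intro x hx y hy hxy
    rw [mem_insert] at hx hy
    rcases hx with rfl | hx
    · rcases hy with rfl | hy
      · exact G.loopless.irrefl _ hxy
      · exact h3 y hxy hy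
    · rcases hy with rfl | hy
      · exact h3 x hxy.symm hx
      · exact h1 x hx y hy hxy
  · intro I hI
    rw [mem_filter, Fib_ind] at hI
    rw [Fib_OO]
    refine ⟨fun x hx y hy => hI.1 x (mem_of_mem_erase hx) y (mem_of_mem_erase hy), notMem_erase v I, ?_⟩
    intro u hu hI'
    exact hI.1 v hI.2 u (mem_of_mem_erase hI') hu
  · intro O hO
    exact erase_insert ((Fib_OO G v O).1 hO).2.1
  · intro I hI
    rw [mem_filter] at hI
    exact insert_erase hI.2
  · intro O _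
    rfl

private lemma Fib_int {V : Type} [Fintype V] (G : SimpleGraph V) (v : V) {O J : Finset V} (hO : O ∈ OO G v)
    (hJ : J ∈ ind G (av G v O)) : (O ∪ J) ∩ nb G v = J := by
  obtain ⟨_, _, h3⟩ := (Fib_OO G v O).1 hO
  obtain ⟨h4, _⟩ := (Fib_av G v O J).1 hJ
  ext u
  rw [mem_inter, mem_union, Fib_nb]
  constructor
  · rintro ⟨h | h, hu⟩
    · exact absurd h (h3 u hu)
    · exact h
  · intro h
    exact ⟨Or.inr h, (h4 u h).1⟩

private lemma Fib_sd {V : Type} [Fintype V] (G : SimpleGraph V) (v : V) {O J : Finset V} (hO : O ∈ OO G v)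
    (hJ : J ∈ ind G (av G v O)) : (O ∪ J) \ nb G v = O := by
  obtain ⟨_, _, h3⟩ := (Fib_OO G v O).1 hO
  obtain ⟨h4, _⟩ := (Fib_av G v O J).1 hJ
  ext u
  rw [mem_sdiff, mem_union, Fib_nb]
  constructor
  · rintro ⟨h | h, hu⟩
    · exact h
    · exact absurd (h4 u h).1 hu
  · intro h
    exact ⟨Or.inl h, fun hu => h3 u hu h⟩

private lemma Fib_B {V : Type} [Fintype V] (G : SimpleGraph V) (v : V) (h : Finset V → ℝ) :
    ∑ I ∈ (ind G univ).filter (fun I => v ∉ I), h I =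
      ∑ O ∈ OO G v, ∑ J ∈ ind G (av G v O), h (O ∪ J) := by
  rw [sum_sigma']
  refine (sum_nbij' (fun p : (_ : Finset V) × Finset V => p.1 ∪ p.2)
    (fun I => (⟨I \ nb G v, I ∩ nb G v⟩ : (_ : Finset V) × Finset V)) ?_ ?_ ?_ ?_ ?_).symm
  · rintro ⟨O, J⟩ hp
    rw [mem_sigma] at hp
    obtain ⟨hO, hJ⟩ := hp
    obtain ⟨h1, h2, h3⟩ := (Fib_OO G v O).1 hO
    obtain ⟨h4, h5⟩ := (Fib_av G v O J).1 hJ
    rw [mem_filter, Fib_ind]
    refine ⟨?_, ?_⟩
    · intro x hx y hy hxy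
      rw [mem_union] at hx hy
      rcases hx with hx | hx
      · rcases hy with hy | hy
        · exact h1 x hx y hy hxy
        · exact (h4 y hy).2 x hxy.symm hx
      · rcases hy with hy | hy
        · exact (h4 x hx).2 y hxy hy
        · exact h5 x hx y hy hxy
    · rw [mem_union]
      rintro (h | h)
      · exact h2 h
      · exact G.loopless.irrefl _ (h4 v h).1
  · intro I hI
    rw [mem_filter, Fib_ind] at hI
    rw [mem_sigma]
    refine ⟨?_, ?_⟩
    · rw [Fib_OO]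
      refine ⟨fun x hx y hy => hI.1 x (mem_sdiff.1 hx).1 y (mem_sdiff.1 hy).1,
        fun hv => hI.2 (mem_sdiff.1 hv).1, fun u hu hI' => (mem_sdiff.1 hI').2 ((Fib_nb G v u).2 hu)⟩
    · rw [Fib_av]
      refine ⟨fun u hu => ⟨(Fib_nb G v u).1 (mem_inter.1 hu).2, fun x hx hO =>
        hI.1 u (mem_inter.1 hu).1 x (mem_sdiff.1 hO).1 hx⟩,
        fun x hx y hy => hI.1 x (mem_inter.1 hx).1 y (mem_inter.1 hy).1⟩
  · rintro ⟨O, J⟩ hp
    rw [mem_sigma] at hp
    have e1 := Fib_sd G v hp.1 hp.2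
    have e2 := Fib_int G v hp.1 hp.2
    simp only at e1 e2 ⊢
    rw [e1, e2]
  · intro I _
    exact sdiff_union_inter I (nb G v)
  · rintro ⟨O, J⟩ _
    rfl

theorem fibre {V : Type} [Fintype V] (G : SimpleGraph V) (v : V) (h : Finset V → ℝ) :
    ∑ I ∈ ind G univ, h I =
      ∑ O ∈ OO G v, (h (insert v O) + ∑ J ∈ ind G (av G v O), h (O ∪ J)) := by
  rw [sum_add_distrib, ← Fib_A, ← Fib_B, sum_filter_add_sum_filter_not]

/-- (a) -/
theorem fibre_mem {V : Type} [Fintype V] (G : SimpleGraph V) (v : V) :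
    ((ind G univ).filter (fun I => v ∈ I)).card = (OO G v).card := by
  have h1 := Fib_A G v (fun _ => 1)
  rw [sum_const, sum_const, nsmul_eq_mul, nsmul_eq_mul, mul_one, mul_one] at h1
  exact_mod_cast h1

/-- (b) -/
theorem fibre_card {V : Type} [Fintype V] (G : SimpleGraph V) (v : V) :
    (ci G univ : ℝ) = ∑ O ∈ OO G v, (1 + (ci G (av G v O) : ℝ)) := by
  have h1 := fibre G v (fun _ => 1)
  rw [sum_const, nsmul_eq_mul, mul_one] at h1
  unfold ci
  rw [h1]
  refine sum_congr rfl fun O _ => ?_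
  rw [sum_const, nsmul_eq_mul, mul_one]

/-- (c) -/
theorem fibre_nb {V : Type} [Fintype V] (G : SimpleGraph V) (v : V) :
    ∑ I ∈ ind G univ, ((I ∩ nb G v).card : ℝ) = ∑ O ∈ OO G v, (cs G (av G v O) : ℝ) := by
  rw [fibre G v (fun I => ((I ∩ nb G v).card : ℝ))]
  refine sum_congr rfl fun O hO => ?_
  have e1 : insert v O ∩ nb G v = ∅ := by
    obtain ⟨_, _, h3⟩ := (Fib_OO G v O).1 hO
    rw [eq_empty_iff_forall_notMem]
    intro u hu
    rw [mem_inter, mem_insert, Fib_nb] at hu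
    obtain ⟨h | h, hu⟩ := hu
    · rw [h] at hu
      exact G.loopless.irrefl _ hu
    · exact h3 u hu h
  rw [e1, card_empty, Nat.cast_zero, zero_add]
  unfold cs
  rw [Nat.cast_sum]
  refine sum_congr rfl fun J hJ => ?_
  rw [Fib_int G v hO hJ]

/-- (e) `I` with `v ∉ I` are exactly the `O ∪ J`. -/
theorem fibre_not_mem {V : Type} [Fintype V] (G : SimpleGraph V) (v : V) (E : Finset V → Prop) :
    (((ind G univ).filter (fun I => v ∉ I ∧ E I)).card : ℝ) =
      ∑ O ∈ OO G v, (((ind G (av G v O)).filter (fun J => E (O ∪ J))).card : ℝ) := by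
  have h1 := Fib_B G v (fun I => if E I then 1 else 0)
  have h2 : (((ind G univ).filter (fun I => v ∉ I ∧ E I)).card : ℝ) =
      ∑ I ∈ (ind G univ).filter (fun I => v ∉ I), (if E I then (1 : ℝ) else 0) := by
    rw [← filter_filter, card_filter, Nat.cast_sum]
    refine sum_congr rfl fun I _ => ?_
    split_ifs <;> simp
  rw [h2, h1]
  refine sum_congr rfl fun O _ => ?_
  rw [card_filter, Nat.cast_sum]
  refine sum_congr rfl fun J _ => ?_
  split_ifs <;> simp

/-- (d) -/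
theorem fibre_event {V : Type} [Fintype V] (G : SimpleGraph V) (v : V) (E : Finset V → Prop) :
    ∑ O ∈ OO G v, (((ind G (av G v O)).filter (fun J => E (O ∪ J))).card : ℝ) ≤
      (((ind G univ).filter E).card : ℝ) := by
  rw [← fibre_not_mem]
  have h1 : ((ind G univ).filter (fun I => v ∉ I ∧ E I)).card ≤ ((ind G univ).filter E).card := by
    refine card_le_card fun I hI => ?_
    rw [mem_filter] at hI ⊢
    exact ⟨hI.1, hI.2.2⟩
  exact_mod_cast h1

end MP06c.FA
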