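import Pool.Agent.Lib.MP_06c6c1_co.FA.Cnt

set_option autoImplicit false

namespace MP06c.FA

open Finset Classical MP06c

/-- An independent set of size `t` gives `2 ^ t` independent sets. -/
theorem Siz_pow {V : Type} (G : SimpleGraph V) (X T : Finset V) (hT : T ⊆ X)
    (hTi : ∀ x ∈ T, ∀ y ∈ T, ¬ G.Adj x y) : 2 ^ T.card ≤ ci G X := by
  rw [ci, ← card_powerset]
  refine card_le_card ?_
  intro S hS
  rw [mem_powerset] at hS
  simp only [ind, mem_filter, mem_powerset]
  exact ⟨hS.trans hT, fun x hx y hy => hTi x (hS hx) y (hS hy)⟩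

theorem size {V : Type} [Fintype V] (G : SimpleGraph V) (v : V) (X : Finset V) (M t0 : ℕ)
    (d L : ℝ) (hXv : X ⊆ nb G v) (hd : ((nb G v).card : ℝ) ≤ d) (hL : 1 ≤ L) (hR : Ram G M t0)
    (n2 : 2 * (1 + d) ^ (⌊L / 32⌋₊) < 2 ^ t0) (hs : (cs G X : ℝ) < L / 64 * ci G X) :
    X.card < M := by
  by_contra hcon
  push Not at hcon
  obtain ⟨T, hTX, hTc, hTi⟩ := hR v X hXv hcon
  have h1 : (2 : ℝ) ^ t0 ≤ ci G X := by
    have := Siz_pow G X T hTX hTi
    rw [hTc] at this
    exact_mod_cast this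
  have hX0 : (0 : ℝ) ≤ X.card := by positivity
  have hXd : (X.card : ℝ) ≤ d := le_trans (by exact_mod_cast card_le_card hXv) hd
  set B : Finset (Finset V) := (ind G X).filter (fun J => L / 32 < (J.card : ℝ)) with hB
  have hBc : (B.card : ℝ) < ci G X / 2 := by
    have h2 : L / 32 * B.card ≤ cs G X := by
      calc L / 32 * (B.card : ℝ) = ∑ J ∈ B, L / 32 := by rw [sum_const, nsmul_eq_mul]; ring
        _ ≤ ∑ J ∈ B, (J.card : ℝ) :=
            sum_le_sum (fun J hJ => (by rw [hB, mem_filter] at hJ; exact hJ.2.le))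
        _ ≤ ∑ J ∈ ind G X, (J.card : ℝ) := sum_le_sum_of_subset_of_nonneg (filter_subset _ _)
            (fun _ _ _ => by positivity)
        _ = cs G X := by rw [cs]; push_cast; rfl
    have h3 : L / 32 * B.card < L / 32 * (ci G X / 2) := by
      calc L / 32 * (B.card : ℝ) ≤ cs G X := h2
        _ < L / 64 * ci G X := hs
        _ = L / 32 * (ci G X / 2) := by ring
    exact lt_of_mul_lt_mul_left h3 (by linarith)
  set Q : Finset (Finset V) := X.powerset.filter (fun J => J.card ≤ ⌊L / 32⌋₊) with hQ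
  have hcov : ind G X ⊆ B ∪ Q := by
    intro J hJ
    by_cases h2 : L / 32 < (J.card : ℝ)
    · exact mem_union_left _ (mem_filter.2 ⟨hJ, h2⟩)
    · refine mem_union_right _ ?_
      rw [hQ, mem_filter]
      simp only [ind, mem_filter] at hJ
      exact ⟨hJ.1, Nat.le_floor (not_lt.1 h2)⟩
  have h4 : (ci G X : ℝ) ≤ B.card + Q.card := by
    have := (card_le_card hcov).trans (card_union_le _ _)
    rw [ci]
    exact_mod_cast this
  have h5 : (Q.card : ℝ) ≤ (1 + d) ^ (⌊L / 32⌋₊) := by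
    calc (Q.card : ℝ) ≤ (((1 + X.card) ^ (⌊L / 32⌋₊) : ℕ) : ℝ) := by
          exact_mod_cast count_small X _
      _ = (1 + (X.card : ℝ)) ^ (⌊L / 32⌋₊) := by push_cast; rfl
      _ ≤ (1 + d) ^ (⌊L / 32⌋₊) := by gcongr
  linarith

end MP06c.FA
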