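import Pool.Agent.Lib.MP_06c6c1_co.FA.Defs
import Pool.Agent.Lib.MP_06c6c1_co.FA.Fib
import Pool.Agent.Lib.MP_06c6c1_co.FA.Enc
import Pool.Agent.Lib.MP_06c6c1_co.FA.Siz

set_option autoImplicit false

/-!
# MP_06c6c1_co, project FA, module M8c: bad fibres give the event
-/

namespace MP06c.FA

open Finset Classical MP06c

private theorem Bad_ind {V : Type} (G : SimpleGraph V) (A I : Finset V) (h : I ∈ ind G A) :
    I ⊆ A := by
  unfold ind at h
  rw [mem_filter, mem_powerset] at h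
  exact h.1

private theorem Bad_sub {V : Type} [Fintype V] (G : SimpleGraph V) (v : V) (O : Finset V) :
    av G v O ⊆ nb G v := by
  intro u hu
  unfold av at hu
  exact (mem_filter.1 hu).1

private theorem Bad_ev {V : Type} [Fintype V] (G : SimpleGraph V) (v : V) (j0 : ℕ)
    (O J : Finset V) (hJ : J ∈ ind G (av G v O))
    (h : ∃ u ∈ av G v O \ J, 1 ≤ (J ∩ nb G u).card ∧ (J ∩ nb G u).card ≤ j0) :
    Ev G j0 v (O ∪ J) := by
  obtain ⟨u, hu, h1, h2⟩ := h
  have hJX : J ⊆ av G v O := Bad_ind G _ J hJ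
  have huX : u ∈ av G v O := (mem_sdiff.1 hu).1
  have hdis : Disjoint (nb G u) O := by
    unfold av at huX
    exact (mem_filter.1 huX).2
  have heq : (O ∪ J) ∩ nb G u = J ∩ nb G u := by
    ext x
    rw [mem_inter, mem_inter, mem_union]
    constructor
    · rintro ⟨hx | hx, hxu⟩
      · exact absurd hx (disjoint_left.1 hdis hxu)
      · exact ⟨hx, hxu⟩
    · rintro ⟨hx, hxu⟩
      exact ⟨Or.inr hx, hxu⟩
  refine ⟨u, Bad_sub G v O huX, ?_⟩
  rw [heq]
  exact ⟨h1, h2, fun x hx => Bad_sub G v O (hJX (mem_inter.1 hx).1)⟩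

private theorem Bad_card {V : Type} [Fintype V] (G : SimpleGraph V) (v : V) (j0 : ℕ)
    (O : Finset V) :
    (((ind G (av G v O)).filter (fun J => ∃ u ∈ av G v O \ J, 1 ≤ (J ∩ nb G u).card ∧
      (J ∩ nb G u).card ≤ j0)).card : ℝ) ≤
      (((ind G (av G v O)).filter (fun J => Ev G j0 v (O ∪ J))).card : ℝ) := by
  have h : ((ind G (av G v O)).filter (fun J => ∃ u ∈ av G v O \ J, 1 ≤ (J ∩ nb G u).card ∧
      (J ∩ nb G u).card ≤ j0)).card ≤
      ((ind G (av G v O)).filter (fun J => Ev G j0 v (O ∪ J))).card := by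
    refine card_le_card fun J hJ => ?_
    rw [mem_filter] at hJ ⊢
    exact ⟨hJ.1, Bad_ev G v j0 O J hJ.1 hJ.2⟩
  exact_mod_cast h

/-- M8c (bad fibres give the event) -/
theorem badFib {V : Type} [Fintype V] (G : SimpleGraph V) (v : V) (M t0 j0 : ℕ) (d L κ R : ℝ)
    (hN : Num d L κ R M t0 j0) (hd : ((nb G v).card : ℝ) ≤ d) (hR : Ram G M t0) :
    ∑ O ∈ (OO G v).filter (fun O => Real.sqrt d ≤ (ci G (av G v O) : ℝ) ∧
      (cs G (av G v O) : ℝ) < L / 64 * (ci G (av G v O) : ℝ)), (1 + (ci G (av G v O) : ℝ)) ≤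
      8 * (((ind G univ).filter (Ev G j0 v)).card : ℝ) := by
  have hsq : Real.exp (L / 2) = Real.sqrt d := by
    rw [Real.exp_half, hN.hL, Real.exp_log (lt_of_lt_of_le one_pos hN.hd)]
  have hs1 : 1 ≤ Real.sqrt d := Real.one_le_sqrt.2 hN.hd
  have hterm : ∀ O ∈ (OO G v).filter (fun O => Real.sqrt d ≤ (ci G (av G v O) : ℝ) ∧
      (cs G (av G v O) : ℝ) < L / 64 * (ci G (av G v O) : ℝ)),
      (1 + (ci G (av G v O) : ℝ)) ≤
        8 * (((ind G (av G v O)).filter (fun J => Ev G j0 v (O ∪ J))).card : ℝ) := by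
    intro O hO
    obtain ⟨_, h1, h2⟩ := mem_filter.1 hO
    have hX : (av G v O).card < M :=
      size G v (av G v O) M t0 d L (Bad_sub G v O) hd hN.hL1 hR hN.n2 h2
    have h3 := encode G (av G v O) M j0 L hN.hL1 hN.hM hX hN.hj h2 (hsq ▸ h1) hN.n3
    have h4 := Bad_card G v j0 O
    have h5 : (1 : ℝ) ≤ ci G (av G v O) := hs1.trans h1
    linarith
  calc _ ≤ ∑ O ∈ (OO G v).filter (fun O => Real.sqrt d ≤ (ci G (av G v O) : ℝ) ∧
      (cs G (av G v O) : ℝ) < L / 64 * (ci G (av G v O) : ℝ)),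
        8 * (((ind G (av G v O)).filter (fun J => Ev G j0 v (O ∪ J))).card : ℝ) :=
        sum_le_sum hterm
    _ ≤ ∑ O ∈ OO G v, 8 * (((ind G (av G v O)).filter (fun J => Ev G j0 v (O ∪ J))).card : ℝ) :=
        sum_le_sum_of_subset_of_nonneg (filter_subset _ _) fun O _ _ => by positivity
    _ = 8 * ∑ O ∈ OO G v, (((ind G (av G v O)).filter (fun J => Ev G j0 v (O ∪ J))).card : ℝ) :=
        (mul_sum _ _ _).symm
    _ ≤ 8 * (((ind G univ).filter (Ev G j0 v)).card : ℝ) :=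
        mul_le_mul_of_nonneg_left (fibre_event G v (Ev G j0 v)) (by norm_num)

end MP06c.FA
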