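import Pool.Agent.Lib.MP_06c6c1_co.FA.Defs
import Pool.Agent.Lib.MP_06c6c1_co.FA.Fib

set_option autoImplicit false

/-!
# MP_06c6c1_co, project FA, module M8b: the fibres with a large average
-/

namespace MP06c.FA

open Finset Classical MP06c

private lemma Big_nb {V : Type} [Fintype V] (G : SimpleGraph V) (v u : V) :
    u ∈ nb G v ↔ G.Adj v u := by
  unfold nb
  rw [mem_filter]
  exact ⟨fun h => h.2, fun h => ⟨mem_univ _, h⟩⟩

private lemma Big_ci {V : Type} (G : SimpleGraph V) (X : Finset V) : (1 : ℝ) ≤ (ci G X : ℝ) := by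
  have h : 1 ≤ ci G X := by
    unfold ci
    rw [Nat.one_le_iff_ne_zero, ← Nat.pos_iff_ne_zero, card_pos]
    refine ⟨∅, ?_⟩
    unfold ind
    rw [mem_filter, mem_powerset]
    exact ⟨empty_subset _, fun x hx => absurd hx (notMem_empty x)⟩
  exact_mod_cast h

/-- The fibres with a large average at one vertex. -/
private lemma Big_one {V : Type} [Fintype V] (G : SimpleGraph V) (v : V) (L : ℝ) (hL : 1 ≤ L) :
    ∑ O ∈ (OO G v).filter (fun O => L / 64 * (ci G (av G v O) : ℝ) ≤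
      (cs G (av G v O) : ℝ)), (1 + (ci G (av G v O) : ℝ)) ≤
      128 / L * ∑ I ∈ ind G univ, ((I ∩ nb G v).card : ℝ) := by
  have hL0 : 0 < L := by linarith
  rw [fibre_nb, mul_sum]
  calc ∑ O ∈ (OO G v).filter (fun O => L / 64 * (ci G (av G v O) : ℝ) ≤
      (cs G (av G v O) : ℝ)), (1 + (ci G (av G v O) : ℝ))
      ≤ ∑ O ∈ (OO G v).filter (fun O => L / 64 * (ci G (av G v O) : ℝ) ≤
      (cs G (av G v O) : ℝ)), 128 / L * (cs G (av G v O) : ℝ) := by
        refine sum_le_sum fun O hO => ?_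
        have h1 := (mem_filter.1 hO).2
        have h2 := Big_ci G (av G v O)
        have h3 : (1 + (ci G (av G v O) : ℝ)) ≤ 2 * (ci G (av G v O) : ℝ) := by linarith
        refine h3.trans ?_
        have h4 : 2 * (ci G (av G v O) : ℝ) = 128 / L * (L / 64 * (ci G (av G v O) : ℝ)) := by
          field_simp
          ring
        rw [h4]
        exact mul_le_mul_of_nonneg_left h1 (by positivity)
    _ ≤ ∑ O ∈ OO G v, 128 / L * (cs G (av G v O) : ℝ) :=
        sum_le_sum_of_subset_of_nonneg (filter_subset _ _) fun O _ _ => by positivity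

/-- Exchange of the sums. -/
private lemma Big_swap {V : Type} [Fintype V] (G : SimpleGraph V) (w : V → ℝ) (I : Finset V) :
    ∑ v, w v * ((I ∩ nb G v).card : ℝ) = ∑ u ∈ I, ∑ v ∈ nb G u, w v := by
  have h1 : ∀ v : V, w v * ((I ∩ nb G v).card : ℝ) = ∑ u ∈ I, if G.Adj u v then w v else 0 := by
    intro v
    rw [← sum_filter, sum_const, nsmul_eq_mul, mul_comm]
    congr 3
    ext u
    rw [mem_inter, mem_filter, Big_nb, G.adj_comm]
  have h2 : ∀ u : V, ∑ v ∈ nb G u, w v = ∑ v, if G.Adj u v then w v else 0 := by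
    intro u
    rw [← sum_filter]
    rfl
  rw [sum_congr rfl fun v _ => h1 v, sum_comm]
  exact sum_congr rfl fun u _ => (h2 u).symm

/-- M8b (large average) -/
theorem bigAvg {V : Type} [Fintype V] (G : SimpleGraph V) (w : V → ℝ) (d L : ℝ) (hd : 1 ≤ d)
    (hL : 1 ≤ L) (hw : ∀ v, 0 ≤ w v) (hdom : ∀ v, ∑ u ∈ nb G v, w u ≤ 2 * d * w v) :
    ∑ v, w v * ∑ O ∈ (OO G v).filter (fun O => L / 64 * (ci G (av G v O) : ℝ) ≤
      (cs G (av G v O) : ℝ)), (1 + (ci G (av G v O) : ℝ)) ≤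
      256 * d / L * ∑ I ∈ ind G univ, ∑ v ∈ I, w v := by
  have hL0 : 0 < L := by linarith
  calc ∑ v, w v * ∑ O ∈ (OO G v).filter (fun O => L / 64 * (ci G (av G v O) : ℝ) ≤
      (cs G (av G v O) : ℝ)), (1 + (ci G (av G v O) : ℝ))
      ≤ ∑ v, w v * (128 / L * ∑ I ∈ ind G univ, ((I ∩ nb G v).card : ℝ)) :=
        sum_le_sum fun v _ => mul_le_mul_of_nonneg_left (Big_one G v L hL) (hw v)
    _ = 128 / L * ∑ I ∈ ind G univ, ∑ v, w v * ((I ∩ nb G v).card : ℝ) := by
        rw [sum_comm, mul_sum]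
        refine sum_congr rfl fun v _ => ?_
        rw [← mul_sum]
        ring
    _ = 128 / L * ∑ I ∈ ind G univ, ∑ u ∈ I, ∑ v ∈ nb G u, w v := by
        rw [sum_congr rfl fun I _ => Big_swap G w I]
    _ ≤ 128 / L * ∑ I ∈ ind G univ, ∑ u ∈ I, 2 * d * w u := by
        refine mul_le_mul_of_nonneg_left ?_ (by positivity)
        exact sum_le_sum fun I _ => sum_le_sum fun u _ => hdom u
    _ = 256 * d / L * ∑ I ∈ ind G univ, ∑ v ∈ I, w v := by
        rw [sum_congr rfl fun I _ => (mul_sum I w (2 * d)).symm, ← mul_sum]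
        ring

end MP06c.FA
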