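import Pool.Agent.Lib.MP_06c6c1_co.FA.Defs

set_option autoImplicit false

/-!
# MP_06c6c1_co, project FA: module M8d, upper bound for the events (note 5014)
-/

namespace MP06c.FA

open Finset Classical MP06c

/-- The contribution of one `u`. -/
private lemma EvU_one {V : Type} [Fintype V] (G : SimpleGraph V) (w : V → ℝ) (κ R : ℝ)
    (hw : ∀ v, 0 ≤ w v) (hR : 0 ≤ R) (hwR : ∀ u v, G.Adj u v → w v ≤ R * w u)
    (hκ : ∀ u v, G.Adj u v → ((nb G u ∩ nb G v).card : ℝ) ≤ κ) (I : Finset V) (u : V)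
    (hu : 1 ≤ (I ∩ nb G u).card) :
    ∑ v ∈ univ.filter (fun v => u ∈ nb G v ∧ I ∩ nb G u ⊆ nb G v), w v ≤ κ * R * w u := by
  obtain ⟨x, hx⟩ := card_pos.mp hu
  have hxu : G.Adj u x := by
    have := (mem_inter.mp hx).2
    rw [nb, mem_filter] at this
    exact this.2
  have hsub : univ.filter (fun v => u ∈ nb G v ∧ I ∩ nb G u ⊆ nb G v) ⊆ nb G u ∩ nb G x := by
    intro v hv
    rw [mem_filter] at hv
    have h1 := hv.2.1
    have h2 := hv.2.2 hx
    rw [nb, mem_filter] at h1 h2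
    rw [mem_inter, nb, nb, mem_filter, mem_filter]
    exact ⟨⟨mem_univ _, h1.2.symm⟩, ⟨mem_univ _, h2.2.symm⟩⟩
  have h3 : ∀ v ∈ univ.filter (fun v => u ∈ nb G v ∧ I ∩ nb G u ⊆ nb G v), w v ≤ R * w u := by
    intro v hv
    have h1 := (mem_inter.mp (hsub hv)).1
    rw [nb, mem_filter] at h1
    exact hwR u v h1.2
  have h4 := sum_le_card_nsmul _ _ _ h3
  rw [nsmul_eq_mul] at h4
  have h5 : ((univ.filter (fun v => u ∈ nb G v ∧ I ∩ nb G u ⊆ nb G v)).card : ℝ) ≤ κ := by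
    refine le_trans ?_ (hκ u x hxu)
    exact_mod_cast card_le_card hsub
  refine h4.trans ?_
  rw [mul_assoc]
  exact mul_le_mul_of_nonneg_right h5 (mul_nonneg hR (hw u))

private lemma EvU_bi {V : Type} (w : V → ℝ) (hw : ∀ v, 0 ≤ w v) (A : V → Finset V)
    (U : Finset V) : ∑ v ∈ U.biUnion A, w v ≤ ∑ u ∈ U, ∑ v ∈ A u, w v := by
  induction U using Finset.induction_on with
  | empty => simp
  | insert a s ha ih =>
    rw [biUnion_insert, sum_insert ha]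
    have h1 := sum_union_inter (s₁ := A a) (s₂ := s.biUnion A) (f := w)
    have h2 : 0 ≤ ∑ v ∈ A a ∩ s.biUnion A, w v := sum_nonneg (fun v _ => hw v)
    linarith

/-- M8d (upper bound for the events) -/
theorem evUpper {V : Type} [Fintype V] (G : SimpleGraph V) (w : V → ℝ) (j0 : ℕ) (κ R : ℝ)
    (hw : ∀ v, 0 ≤ w v) (hR : 0 ≤ R) (hwR : ∀ u v, G.Adj u v → w v ≤ R * w u)
    (hκ : ∀ u v, G.Adj u v → ((nb G u ∩ nb G v).card : ℝ) ≤ κ) (I : Finset V) :
    ∑ v ∈ univ.filter (fun v => Ev G j0 v I), w v ≤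
      κ * R * ∑ u ∈ univ.filter (fun u => 1 ≤ (I ∩ nb G u).card ∧ (I ∩ nb G u).card ≤ j0),
        w u := by
  set U := univ.filter (fun u => 1 ≤ (I ∩ nb G u).card ∧ (I ∩ nb G u).card ≤ j0) with hU
  have h1 : univ.filter (fun v => Ev G j0 v I) ⊆
      U.biUnion (fun u => univ.filter (fun v => u ∈ nb G v ∧ I ∩ nb G u ⊆ nb G v)) := by
    intro v hv
    rw [mem_filter] at hv
    obtain ⟨u, hu, h2, h3, h4⟩ := hv.2
    rw [mem_biUnion]
    refine ⟨u, ?_, ?_⟩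
    · rw [hU, mem_filter]
      exact ⟨mem_univ _, h2, h3⟩
    · rw [mem_filter]
      exact ⟨mem_univ _, hu, h4⟩
  calc ∑ v ∈ univ.filter (fun v => Ev G j0 v I), w v
      ≤ ∑ v ∈ U.biUnion (fun u => univ.filter (fun v => u ∈ nb G v ∧ I ∩ nb G u ⊆ nb G v)), w v :=
        sum_le_sum_of_subset_of_nonneg h1 (fun v _ _ => hw v)
    _ ≤ ∑ u ∈ U, ∑ v ∈ univ.filter (fun v => u ∈ nb G v ∧ I ∩ nb G u ⊆ nb G v), w v :=
        EvU_bi w hw _ U
    _ ≤ ∑ u ∈ U, κ * R * w u := by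
        refine sum_le_sum fun u hu => ?_
        rw [hU, mem_filter] at hu
        exact EvU_one G w κ R hw hR hwR hκ I u hu.2.1
    _ = _ := by rw [mul_sum]

end MP06c.FA
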