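import Pool.Agent.Lib.MP_06c6c1_co.FA.Defs
import Pool.Agent.Lib.MP_06c6c1_co.FA.Cnt
import Pool.Agent.Lib.MP_06c6c1_co.FA.Fib

set_option autoImplicit false

/-!
# MP_06c6c1_co, project FA, module M7: small intersections with a neighbourhood are rare
-/

namespace MP06c.FA

open Finset Classical MP06c

private theorem Rar_two_pow {V : Type} (G : SimpleGraph V) (X T : Finset V) (hTX : T ⊆ X)
    (hT : ∀ x ∈ T, ∀ y ∈ T, ¬ G.Adj x y) : 2 ^ T.card ≤ ci G X := by
  have h : T.powerset ⊆ ind G X := by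
    intro S hS
    rw [Finset.mem_powerset] at hS
    simp only [ind, Finset.mem_filter, Finset.mem_powerset]
    exact ⟨hS.trans hTX, fun x hx y hy => hT x (hS hx) y (hS hy)⟩
  have h2 := Finset.card_le_card h
  rwa [Finset.card_powerset] at h2

private theorem Rar_small {V : Type} [Fintype V] (G : SimpleGraph V) (u : V) (O : Finset V) (j0 : ℕ) :
    ((ind G (av G u O)).filter (fun J => ((O ∪ J) ∩ nb G u).card ≤ j0)).card ≤
      (1 + (av G u O).card) ^ j0 := by
  refine (Finset.card_le_card ?_).trans (count_small (av G u O) j0)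
  intro J hJ
  simp only [ind, Finset.mem_filter, Finset.mem_powerset] at hJ ⊢
  refine ⟨hJ.1.1, (Finset.card_le_card ?_).trans hJ.2⟩
  intro x hx
  have hx2 := hJ.1.1 hx
  simp only [av, Finset.mem_filter] at hx2
  exact Finset.mem_inter.2 ⟨Finset.mem_union_right _ hx, hx2.1⟩

theorem rare {V : Type} [Fintype V] (G : SimpleGraph V) (u : V) (M t0 j0 : ℕ) (d : ℝ)
    (hd1 : 1 ≤ d) (hd : ((nb G u).card : ℝ) ≤ d) (hM : 2 ≤ M) (hR : Ram G M t0)
    (n4 : (1 + d) ^ j0 ≤ (2 : ℝ) ^ t0 / d ^ 10) :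
    (((ind G univ).filter (fun I => 1 ≤ (I ∩ nb G u).card ∧ (I ∩ nb G u).card ≤ j0)).card : ℝ) ≤
      (M : ℝ) ^ j0 * (((ind G univ).filter (fun I => u ∈ I)).card : ℝ) +
        (ci G univ : ℝ) / d ^ 10 := by
  have hd0 : 0 < d := zero_lt_one.trans_le hd1
  have hd10 : 0 < d ^ 10 := by positivity
  have hsub : (ind G univ).filter (fun I => 1 ≤ (I ∩ nb G u).card ∧ (I ∩ nb G u).card ≤ j0) ⊆
      (ind G univ).filter (fun I => u ∉ I ∧ (I ∩ nb G u).card ≤ j0) := by
    intro I hI
    simp only [Finset.mem_filter] at hI ⊢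
    refine ⟨hI.1, fun hu => ?_, hI.2.2⟩
    obtain ⟨x, hx⟩ := Finset.card_pos.1 hI.2.1
    rw [Finset.mem_inter] at hx
    have hx2 := hx.2
    simp only [nb, Finset.mem_filter] at hx2
    have hI1 := hI.1
    simp only [ind, Finset.mem_filter] at hI1
    exact hI1.2 u hu x hx.1 hx2.2
  have hstep : ∀ O ∈ OO G u,
      (((ind G (av G u O)).filter (fun J => ((O ∪ J) ∩ nb G u).card ≤ j0)).card : ℝ) ≤
        (M : ℝ) ^ j0 + (1 + (ci G (av G u O) : ℝ)) / d ^ 10 := by
    intro O _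
    have h1 : (((ind G (av G u O)).filter (fun J => ((O ∪ J) ∩ nb G u).card ≤ j0)).card : ℝ) ≤
        (1 + ((av G u O).card : ℝ)) ^ j0 := by
      exact_mod_cast Rar_small G u O j0
    refine h1.trans ?_
    have hMp : 0 ≤ (M : ℝ) ^ j0 := by positivity
    have hcp : 0 ≤ (1 + (ci G (av G u O) : ℝ)) / d ^ 10 := by positivity
    rcases lt_or_ge (av G u O).card M with hlt | hge
    · have h2 : (1 + ((av G u O).card : ℝ)) ^ j0 ≤ (M : ℝ) ^ j0 := by
        refine pow_le_pow_left₀ (by positivity) ?_ j0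
        have : 1 + (av G u O).card ≤ M := by omega
        exact_mod_cast this
      linarith
    · have hav : av G u O ⊆ nb G u := Finset.filter_subset _ _
      obtain ⟨T, hT1, hT2, hT3⟩ := hR u (av G u O) hav hge
      have h3 := Rar_two_pow G (av G u O) T hT1 hT3
      rw [hT2] at h3
      have h4 : ((2 : ℝ) ^ t0) ≤ (ci G (av G u O) : ℝ) := by exact_mod_cast h3
      have h5 : (1 + ((av G u O).card : ℝ)) ^ j0 ≤ (1 + d) ^ j0 := by
        refine pow_le_pow_left₀ (by positivity) ?_ j0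
        have : ((av G u O).card : ℝ) ≤ (nb G u).card := by exact_mod_cast Finset.card_le_card hav
        linarith
      have h6 : (2 : ℝ) ^ t0 / d ^ 10 ≤ (1 + (ci G (av G u O) : ℝ)) / d ^ 10 :=
        div_le_div_of_nonneg_right (by linarith) hd10.le
      linarith
  calc (((ind G univ).filter (fun I => 1 ≤ (I ∩ nb G u).card ∧ (I ∩ nb G u).card ≤ j0)).card : ℝ)
      ≤ (((ind G univ).filter (fun I => u ∉ I ∧ (I ∩ nb G u).card ≤ j0)).card : ℝ) := by
        exact_mod_cast Finset.card_le_card hsub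
    _ = ∑ O ∈ OO G u,
        (((ind G (av G u O)).filter (fun J => ((O ∪ J) ∩ nb G u).card ≤ j0)).card : ℝ) := by
        convert fibre_not_mem G u (fun I => (I ∩ nb G u).card ≤ j0)
    _ ≤ ∑ O ∈ OO G u, ((M : ℝ) ^ j0 + (1 + (ci G (av G u O) : ℝ)) / d ^ 10) :=
        Finset.sum_le_sum hstep
    _ = (M : ℝ) ^ j0 * (((ind G univ).filter (fun I => u ∈ I)).card : ℝ) +
        (ci G univ : ℝ) / d ^ 10 := by
        rw [Finset.sum_add_distrib, Finset.sum_const, nsmul_eq_mul, fibre_mem, ← Finset.sum_div,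
          ← fibre_card]
        ring

end MP06c.FA
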