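import Pool.Agent.Lib.MP_06c6c1_co.FA.Defs

set_option autoImplicit false

/-!
# MP_06c6c1_co, project FA: module M8a (small fibres)
-/

namespace MP06c.FA

open Finset Classical MP06c

private theorem SmA_mem {V : Type} (G : SimpleGraph V) (A T : Finset V) :
    T ∈ ind G A ↔ T ⊆ A ∧ ∀ x ∈ T, ∀ y ∈ T, ¬ G.Adj x y := by
  rw [ind, Finset.mem_filter, Finset.mem_powerset]

private theorem SmA_memO {V : Type} [Fintype V] (G : SimpleGraph V) (v : V) (O : Finset V) :
    O ∈ OO G v ↔ O ∈ ind G univ ∧ v ∉ O ∧ Disjoint (nb G v) O := by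
  rw [OO, Finset.mem_filter]

private theorem SmA_nb {V : Type} [Fintype V] (G : SimpleGraph V) (v u : V) :
    u ∈ nb G v ↔ G.Adj v u := by
  rw [nb, Finset.mem_filter]
  simp

/-- Adding `v` maps the sets avoiding the closed neighbourhood injectively to the independent
sets containing `v`. -/
private theorem SmA_card {V : Type} [Fintype V] (G : SimpleGraph V) (v : V) :
    (OO G v).card ≤ ((ind G univ).filter (fun I => v ∈ I)).card := by
  refine Finset.card_le_card_of_injOn (fun O => insert v O) ?_ ?_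
  · intro O hO
    obtain ⟨hi0, hv, hd0⟩ := (SmA_memO G v O).1 (Finset.mem_coe.1 hO)
    have hi := ((SmA_mem G univ O).1 hi0).2
    have hd := Finset.disjoint_left.1 hd0
    have hn : ∀ y ∈ O, ¬ G.Adj v y := fun y hy h => hd ((SmA_nb G v y).2 h) hy
    have hI : insert v O ∈ ind G univ := by
      refine (SmA_mem G univ _).2 ⟨Finset.subset_univ _, ?_⟩
      intro x hx y hy
      rcases Finset.mem_insert.1 hx with hx | hx
      · rcases Finset.mem_insert.1 hy with hy | hy
        · rw [hx, hy]
          exact fun h => G.loopless.irrefl _ h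
        · rw [hx]
          exact hn y hy
      · rcases Finset.mem_insert.1 hy with hy | hy
        · rw [hy]
          exact fun h => hn x hx h.symm
        · exact hi x hx y hy
    exact Finset.mem_coe.2 (Finset.mem_filter.2 ⟨hI, Finset.mem_insert_self v O⟩)
  · intro O hO O' hO' h
    have h1 : v ∉ O := ((SmA_memO G v O).1 (Finset.mem_coe.1 hO)).2.1
    have h2 : v ∉ O' := ((SmA_memO G v O').1 (Finset.mem_coe.1 hO')).2.1
    have h3 : (insert v O).erase v = (insert v O').erase v := by
      have h4 : insert v O = insert v O' := h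
      rw [h4]
    rwa [Finset.erase_insert h1, Finset.erase_insert h2] at h3

private theorem SmA_inner {V : Type} [Fintype V] (G : SimpleGraph V) (v : V) (d : ℝ) :
    ∑ O ∈ (OO G v).filter (fun O => (ci G (av G v O) : ℝ) < Real.sqrt d),
      (1 + (ci G (av G v O) : ℝ)) ≤
      (1 + Real.sqrt d) * (((ind G univ).filter (fun I => v ∈ I)).card : ℝ) := by
  have h1 : ∑ O ∈ (OO G v).filter (fun O => (ci G (av G v O) : ℝ) < Real.sqrt d),
      (1 + (ci G (av G v O) : ℝ)) ≤
      ∑ _O ∈ (OO G v).filter (fun O => (ci G (av G v O) : ℝ) < Real.sqrt d),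
        (1 + Real.sqrt d) := by
    refine Finset.sum_le_sum fun O hO => ?_
    have h := (Finset.mem_filter.1 hO).2
    linarith
  refine h1.trans ?_
  rw [Finset.sum_const, nsmul_eq_mul, mul_comm]
  have h2 : ((((OO G v).filter (fun O => (ci G (av G v O) : ℝ) < Real.sqrt d)).card : ℕ) : ℝ) ≤
      (((ind G univ).filter (fun I => v ∈ I)).card : ℝ) := by
    exact_mod_cast (Finset.card_filter_le _ _).trans (SmA_card G v)
  have h3 : 0 ≤ 1 + Real.sqrt d := by have := Real.sqrt_nonneg d; linarith
  exact mul_le_mul_of_nonneg_left h2 h3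

/-- M8a (small fibres) -/
theorem smallFib {V : Type} [Fintype V] (G : SimpleGraph V) (w : V → ℝ) (d : ℝ) (hd : 1 ≤ d)
    (hw : ∀ v, 0 ≤ w v) :
    ∑ v, w v * ∑ O ∈ (OO G v).filter (fun O => (ci G (av G v O) : ℝ) < Real.sqrt d),
      (1 + (ci G (av G v O) : ℝ)) ≤
      (1 + Real.sqrt d) * ∑ I ∈ ind G univ, ∑ v ∈ I, w v := by
  have _ := hd
  have h1 : ∑ v, w v * ∑ O ∈ (OO G v).filter (fun O => (ci G (av G v O) : ℝ) < Real.sqrt d),
      (1 + (ci G (av G v O) : ℝ)) ≤
      ∑ v, w v * ((1 + Real.sqrt d) * (((ind G univ).filter (fun I => v ∈ I)).card : ℝ)) :=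
    Finset.sum_le_sum fun v _ => mul_le_mul_of_nonneg_left (SmA_inner G v d) (hw v)
  refine h1.trans (le_of_eq ?_)
  have h2 : ∀ I ∈ ind G univ, ∑ v ∈ I, w v = ∑ v, if v ∈ I then w v else 0 := by
    intro I _
    rw [← Finset.sum_filter]
    refine Finset.sum_congr ?_ fun _ _ => rfl
    ext v
    simp
  rw [Finset.sum_congr rfl h2, Finset.sum_comm, Finset.mul_sum]
  refine Finset.sum_congr rfl fun v _ => ?_
  rw [← Finset.sum_filter, Finset.sum_const, nsmul_eq_mul]
  ring

end MP06c.FA
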