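import Pool.Agent.Lib.MP_06c6c1_co.FA.Defs
import Pool.Agent.Lib.MP_06c6c1_co.FA.Fib
import Pool.Agent.Lib.MP_06c6c1_co.FA.Rar
import Pool.Agent.Lib.MP_06c6c1_co.FA.SmA
import Pool.Agent.Lib.MP_06c6c1_co.FA.Big
import Pool.Agent.Lib.MP_06c6c1_co.FA.Bad
import Pool.Agent.Lib.MP_06c6c1_co.FA.EvU

set_option autoImplicit false

/-!
# MP_06c6c1_co, project FA, module M8: the block theorem
-/

namespace MP06c.FA

open Finset Classical MP06c

private theorem Blk_swap {V : Type} [Fintype V] (G : SimpleGraph V) (w : V → ℝ)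
    (P : V → Finset V → Prop) [∀ v I, Decidable (P v I)] :
    ∑ v, w v * (((ind G univ).filter (fun I => P v I)).card : ℝ) =
      ∑ I ∈ ind G univ, ∑ v ∈ univ.filter (fun v => P v I), w v := by
  have h1 : ∀ v, w v * (((ind G univ).filter (fun I => P v I)).card : ℝ) =
      ∑ I ∈ ind G univ, if P v I then w v else 0 := by
    intro v
    rw [← Finset.sum_filter, Finset.sum_const, nsmul_eq_mul, mul_comm]
  rw [Finset.sum_congr rfl fun v _ => h1 v, Finset.sum_comm]
  exact Finset.sum_congr rfl fun I _ => (Finset.sum_filter _ _).symm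

private theorem Blk_mem {V : Type} [Fintype V] (G : SimpleGraph V) (w : V → ℝ) :
    ∑ v, w v * (((ind G univ).filter (fun I => v ∈ I)).card : ℝ) =
      ∑ I ∈ ind G univ, ∑ v ∈ I, w v := by
  rw [Blk_swap G w fun v I => v ∈ I]
  refine Finset.sum_congr rfl fun I _ => Finset.sum_congr ?_ fun _ _ => rfl
  ext v
  rw [Finset.mem_filter]
  exact ⟨fun h => h.2, fun h => ⟨Finset.mem_univ _, h⟩⟩

private theorem Blk_three {α : Type} (s : Finset α) (f : α → ℝ) (p q r : α → Prop)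
    [DecidablePred p] [DecidablePred q] [DecidablePred r] (hf : ∀ a ∈ s, 0 ≤ f a)
    (h : ∀ a ∈ s, p a ∨ q a ∨ r a) :
    ∑ a ∈ s, f a ≤ ∑ a ∈ s.filter p, f a + ∑ a ∈ s.filter q, f a + ∑ a ∈ s.filter r, f a := by
  rw [Finset.sum_filter, Finset.sum_filter, Finset.sum_filter, ← Finset.sum_add_distrib,
    ← Finset.sum_add_distrib]
  refine Finset.sum_le_sum fun a ha => ?_
  have h0 := hf a ha
  have h1 : ∀ (c : Prop) [Decidable c], 0 ≤ (if c then f a else 0) := by
    intro c _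
    split_ifs
    · exact h0
    · exact le_rfl
  rcases h a ha with h2 | h2 | h2
  · have h3 : (if p a then f a else 0) = f a := if_pos h2
    linarith [h1 (q a), h1 (r a)]
  · have h3 : (if q a then f a else 0) = f a := if_pos h2
    linarith [h1 (p a), h1 (r a)]
  · have h3 : (if r a then f a else 0) = f a := if_pos h2
    linarith [h1 (p a), h1 (q a)]

/-- M8 -/
theorem block {V : Type} [Fintype V] (G : SimpleGraph V) (w : V → ℝ) (M t0 j0 : ℕ)
    (d L κ R : ℝ) (hN : Num d L κ R M t0 j0) (hd : ∀ v, ((nb G v).card : ℝ) ≤ d)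
    (hRam : Ram G M t0) (hw : ∀ v, 0 ≤ w v) (hwR : ∀ u v, G.Adj u v → w v ≤ R * w u)
    (hκ : ∀ u v, G.Adj u v → ((nb G u ∩ nb G v).card : ℝ) ≤ κ)
    (hdom : ∀ v, ∑ u ∈ nb G v, w u ≤ 2 * d * w v) :
    ∃ I ∈ ind G univ, 1 / 4096 * L / d * ∑ v, w v ≤ ∑ v ∈ I, w v := by
  have hd0 : 0 < d := lt_of_lt_of_le one_pos hN.hd
  have hL0 : 0 < L := lt_of_lt_of_le one_pos hN.hL1
  have hR0 : 0 ≤ R := zero_le_one.trans hN.hR
  have hκR : 0 ≤ κ * R := mul_nonneg hN.hκ hR0
  by_contra hcon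
  push Not at hcon
  set W : ℝ := ∑ v, w v with hW
  set c : ℝ := 1 / 4096 * L / d with hc
  set A : ℝ := ∑ I ∈ ind G univ, ∑ v ∈ I, w v with hA
  set N : ℝ := (ci G univ : ℝ) with hNN
  have hempty : (∅ : Finset V) ∈ ind G univ := by
    simp [ind]
  have hN0 : 0 < N := by
    rw [hNN]
    exact Nat.cast_pos.2 (Finset.card_pos.2 ⟨∅, hempty⟩)
  have hc0 : 0 < c := by
    rw [hc]
    positivity
  have hW0 : 0 < W := by
    have h1 := hcon ∅ hempty
    rw [Finset.sum_empty] at h1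
    exact (mul_pos_iff_of_pos_left hc0).1 h1
  have hA1 : A ≤ c * W * N := by
    rw [hA]
    refine (Finset.sum_le_sum fun I hI => (hcon I hI).le).trans (le_of_eq ?_)
    rw [Finset.sum_const, nsmul_eq_mul, mul_comm]
    rfl
  have hA0 : 0 ≤ A := Finset.sum_nonneg fun I _ => Finset.sum_nonneg fun v _ => hw v
  -- the three kinds of fibres
  have h1 := smallFib G w d hN.hd hw
  have h2 := bigAvg G w d L hN.hd hN.hL1 hw hdom
  have h3 := fun v => badFib G v M t0 j0 d L κ R hN (hd v) hRam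
  have h4 : ∀ v, N ≤
      ∑ O ∈ (OO G v).filter (fun O => (ci G (av G v O) : ℝ) < Real.sqrt d),
        (1 + (ci G (av G v O) : ℝ)) +
      ∑ O ∈ (OO G v).filter (fun O => L / 64 * (ci G (av G v O) : ℝ) ≤ (cs G (av G v O) : ℝ)),
        (1 + (ci G (av G v O) : ℝ)) +
      ∑ O ∈ (OO G v).filter (fun O => Real.sqrt d ≤ (ci G (av G v O) : ℝ) ∧
        (cs G (av G v O) : ℝ) < L / 64 * (ci G (av G v O) : ℝ)),
        (1 + (ci G (av G v O) : ℝ)) := by
    intro v
    rw [hNN, fibre_card G v]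
    refine Blk_three _ _ _ _ _ (fun O _ => by positivity) fun O _ => ?_
    by_cases h5 : (ci G (av G v O) : ℝ) < Real.sqrt d
    · exact Or.inl h5
    by_cases h6 : L / 64 * (ci G (av G v O) : ℝ) ≤ (cs G (av G v O) : ℝ)
    · exact Or.inr (Or.inl h6)
    · exact Or.inr (Or.inr ⟨not_lt.1 h5, not_le.1 h6⟩)
  have h5 : W * N ≤ (1 + Real.sqrt d) * A + 256 * d / L * A +
      8 * ∑ v, w v * (((ind G univ).filter (Ev G j0 v)).card : ℝ) := by
    have h6 : W * N = ∑ v, w v * N := by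
      rw [hW, Finset.sum_mul]
    have h7 : 8 * ∑ v, w v * (((ind G univ).filter (Ev G j0 v)).card : ℝ) =
        ∑ v, w v * (8 * (((ind G univ).filter (Ev G j0 v)).card : ℝ)) := by
      rw [Finset.mul_sum]
      exact Finset.sum_congr rfl fun v _ => by ring
    rw [h7, h6]
    refine le_trans ?_ (add_le_add (add_le_add h1 h2)
      (Finset.sum_le_sum fun v _ => mul_le_mul_of_nonneg_left (h3 v) (hw v)))
    rw [← Finset.sum_add_distrib, ← Finset.sum_add_distrib]
    refine Finset.sum_le_sum fun v _ => ?_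
    rw [← mul_add, ← mul_add]
    exact mul_le_mul_of_nonneg_left (h4 v) (hw v)
  have h6 : (1 + Real.sqrt d) * A ≤ 1 / 16 * (W * N) := by
    have h7 : (1 + Real.sqrt d) * A ≤ (1 + Real.sqrt d) * (c * W * N) :=
      mul_le_mul_of_nonneg_left hA1 (by positivity)
    have h8 : (1 + Real.sqrt d) * (c * W * N) =
        (1 + Real.sqrt d) * (1 / 4096) * L / d * (W * N) := by
      rw [hc]
      ring
    rw [h8] at h7
    exact h7.trans (mul_le_mul_of_nonneg_right hN.n1 (mul_pos hW0 hN0).le)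
  have h7 : 256 * d / L * A ≤ 1 / 16 * (W * N) := by
    refine (mul_le_mul_of_nonneg_left hA1 (by positivity)).trans (le_of_eq ?_)
    rw [hc]
    field_simp
    norm_num
  -- the upper bound for the events
  have h8 : ∑ v, w v * (((ind G univ).filter (Ev G j0 v)).card : ℝ) ≤
      κ * R * ((M : ℝ) ^ j0 * A + N / d ^ 10 * W) := by
    rw [Blk_swap G w (Ev G j0)]
    refine (Finset.sum_le_sum fun I _ => evUpper G w j0 κ R hw hR0 hwR hκ I).trans ?_
    rw [← Finset.mul_sum]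
    refine mul_le_mul_of_nonneg_left ?_ hκR
    rw [← Blk_swap G w fun u I => 1 ≤ (I ∩ nb G u).card ∧ (I ∩ nb G u).card ≤ j0]
    have h9 : (M : ℝ) ^ j0 * A + N / d ^ 10 * W =
        ∑ u, w u * ((M : ℝ) ^ j0 * (((ind G univ).filter (fun I => u ∈ I)).card : ℝ) +
          (ci G univ : ℝ) / d ^ 10) := by
      rw [hA, ← Blk_mem G w, hW, Finset.mul_sum, Finset.mul_sum, ← Finset.sum_add_distrib]
      refine Finset.sum_congr rfl fun u _ => ?_
      ring
    rw [h9]
    exact Finset.sum_le_sum fun u _ => mul_le_mul_of_nonneg_left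
      (rare G u M t0 j0 d hN.hd (hd u) hN.hM hRam hN.n4) (hw u)
  have h9 : κ * R * ((M : ℝ) ^ j0 * A + N / d ^ 10 * W) ≤
      κ * R * ((M : ℝ) ^ j0 * c + 1 / d ^ 10) * (W * N) := by
    have h10 : (M : ℝ) ^ j0 * A ≤ (M : ℝ) ^ j0 * (c * W * N) :=
      mul_le_mul_of_nonneg_left hA1 (by positivity)
    have h11 : κ * R * ((M : ℝ) ^ j0 * c + 1 / d ^ 10) * (W * N) =
        κ * R * ((M : ℝ) ^ j0 * (c * W * N) + N / d ^ 10 * W) := by
      ring
    rw [h11]
    exact mul_le_mul_of_nonneg_left (by linarith) hκR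
  have h10 : κ * R * ((M : ℝ) ^ j0 * c + 1 / d ^ 10) * (W * N) < 1 / 10 * (W * N) :=
    mul_lt_mul_of_pos_right hN.n5 (mul_pos hW0 hN0)
  have h11 := mul_pos hW0 hN0
  linarith

end MP06c.FA
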