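import Pool.Agent.Lib.MP_06c6c1_co.Defs

set_option autoImplicit false

/-!
# MP_06c6c1_co, project FA: definitions

Uniform random independent sets in graphs with small codegrees. `nb G v` and `ind G X` are the
definitions of the library.
-/

namespace MP06c.FA

open Finset Classical

/-- Number of independent subsets of `X`. -/
noncomputable def ci {V : Type} (G : SimpleGraph V) (X : Finset V) : ℕ := (ind G X).card

/-- Sum of the sizes of the independent subsets of `X`. -/
noncomputable def cs {V : Type} (G : SimpleGraph V) (X : Finset V) : ℕ := ∑ J ∈ ind G X, J.card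

/-- Neighbours of `v` without neighbour in `O`. -/
noncomputable def av {V : Type} [Fintype V] (G : SimpleGraph V) (v : V) (O : Finset V) :
    Finset V :=
  (nb G v).filter (fun u => Disjoint (nb G u) O)

/-- Independent sets avoiding the closed neighbourhood of `v`. -/
noncomputable def OO {V : Type} [Fintype V] (G : SimpleGraph V) (v : V) : Finset (Finset V) :=
  (ind G univ).filter (fun O => v ∉ O ∧ Disjoint (nb G v) O)

/-- Vertices of `X` outside `J` without neighbour in `J`. -/
noncomputable def fr {V : Type} [Fintype V] (G : SimpleGraph V) (X J : Finset V) : Finset V :=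
  (X \ J).filter (fun u => Disjoint (nb G u) J)

/-- Every large subset of a neighbourhood contains an independent set of size `t0`. -/
def Ram {V : Type} [Fintype V] (G : SimpleGraph V) (M t0 : ℕ) : Prop :=
  ∀ v : V, ∀ X : Finset V, X ⊆ nb G v → M ≤ X.card →
    ∃ T : Finset V, T ⊆ X ∧ T.card = t0 ∧ ∀ x ∈ T, ∀ y ∈ T, ¬ G.Adj x y

/-- The event counted twice in the main argument. -/
def Ev {V : Type} [Fintype V] (G : SimpleGraph V) (j0 : ℕ) (v : V) (I : Finset V) : Prop :=
  ∃ u ∈ nb G v, 1 ≤ (I ∩ nb G u).card ∧ (I ∩ nb G u).card ≤ j0 ∧ I ∩ nb G u ⊆ nb G v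

/-- `G` with all edges not inside `A` removed. -/
def res {V : Type} (G : SimpleGraph V) (A : Finset V) : SimpleGraph V where
  Adj u v := G.Adj u v ∧ u ∈ A ∧ v ∈ A
  symm := ⟨fun _ _ h => ⟨h.1.symm, h.2.2, h.2.1⟩⟩
  loopless := ⟨fun _ h => G.loopless.irrefl _ h.1⟩

/-- The numerical conditions of the block theorem; `L = log d`. -/
structure Num (d L κ R : ℝ) (M t0 j0 : ℕ) : Prop where
  hd : 1 ≤ d
  hL : L = Real.log d
  hL1 : 1 ≤ L
  hR : 1 ≤ R
  hκ : 0 ≤ κ
  hM : 2 ≤ M
  hj : (Real.log M) ^ 2 ≤ j0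
  n1 : (1 + Real.sqrt d) * (1 / 4096) * L / d ≤ 1 / 16
  n2 : 2 * (1 + d) ^ (⌊L / 32⌋₊) < 2 ^ t0
  n3 : Real.exp (0.2125 * L + Real.log M) < Real.exp (L / 2) / 2
  n4 : (1 + d) ^ j0 ≤ (2 : ℝ) ^ t0 / d ^ 10
  n5 : κ * R * ((M : ℝ) ^ j0 * ((1 / 4096) * L / d) + 1 / d ^ 10) < 1 / 10

end MP06c.FA
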