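import Pool.Agent.Lib.MP_06c6c1_co.FA.Defs
import Pool.Agent.Lib.MP_06c6c1_co.FA.Blk

set_option autoImplicit false

/-!
# MP_06c6c1_co, project FA: domination and restriction to a set (M9)
-/

namespace MP06c.FA

open Finset Classical MP06c

private lemma Dom_nb {V : Type} [Fintype V] (G : SimpleGraph V) (u v : V) :
    u ∈ nb G v ↔ G.Adj v u := by
  simp [nb]

private lemma Dom_nb_res {V : Type} [Fintype V] (G : SimpleGraph V) (A : Finset V) (v : V) :
    nb (res G A) v ⊆ nb G v := by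
  intro u hu
  rw [Dom_nb] at hu ⊢
  exact hu.1

theorem dom_half {V : Type} [Fintype V] (G : SimpleGraph V) (w : V → ℝ) (d : ℝ) (hd1 : 1 ≤ d)
    (hd : ∀ v, ((nb G v).card : ℝ) ≤ d) (hw : ∀ v, 0 ≤ w v) :
    (∑ v, w v) / 2 ≤ ∑ v ∈ univ.filter (fun v => ∑ u ∈ nb G v, w u ≤ 2 * d * w v), w v := by
  have hd0 : 0 < d := by linarith
  have h1 : ∑ v, w v = ∑ v ∈ univ.filter (fun v => ∑ u ∈ nb G v, w u ≤ 2 * d * w v), w v +
      ∑ v ∈ univ.filter (fun v => ¬ ∑ u ∈ nb G v, w u ≤ 2 * d * w v), w v :=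
    (Finset.sum_filter_add_sum_filter_not _ _ _).symm
  have h2 : ∑ v ∈ univ.filter (fun v => ¬ ∑ u ∈ nb G v, w u ≤ 2 * d * w v), w v ≤
      ∑ v, (1 / (2 * d)) * ∑ u ∈ nb G v, w u := by
    refine (Finset.sum_le_sum (g := fun v => (1 / (2 * d)) * ∑ u ∈ nb G v, w u)
      fun v hv => ?_).trans ?_
    · have h3 := (Finset.mem_filter.1 hv).2
      push Not at h3
      rw [one_div, inv_mul_eq_div, le_div_iff₀ (by positivity)]
      linarith
    · apply Finset.sum_le_sum_of_subset_of_nonneg (Finset.filter_subset _ _)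
      intro v _ _
      exact mul_nonneg (by positivity) (Finset.sum_nonneg fun u _ => hw u)
  have h3 : ∑ v, ∑ u ∈ nb G v, w u = ∑ u, ((nb G u).card : ℝ) * w u := by
    have h4 : ∀ v, ∑ u ∈ nb G v, w u = ∑ u, if G.Adj v u then w u else 0 := by
      intro v
      unfold nb
      rw [Finset.sum_filter]
    simp_rw [h4]
    rw [Finset.sum_comm]
    apply Finset.sum_congr rfl
    intro u _
    rw [← Finset.sum_filter, Finset.sum_const, nsmul_eq_mul]
    congr 2
    unfold nb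
    congr 1
    ext v
    simp [G.adj_comm]
  have h4 : ∑ u, ((nb G u).card : ℝ) * w u ≤ d * ∑ u, w u := by
    rw [Finset.mul_sum]
    exact Finset.sum_le_sum fun u _ => mul_le_mul_of_nonneg_right (hd u) (hw u)
  rw [← Finset.mul_sum, h3] at h2
  have h5 : 1 / (2 * d) * ∑ u, ((nb G u).card : ℝ) * w u ≤ (∑ u, w u) / 2 := by
    calc 1 / (2 * d) * ∑ u, ((nb G u).card : ℝ) * w u ≤ 1 / (2 * d) * (d * ∑ u, w u) :=
          mul_le_mul_of_nonneg_left h4 (by positivity)
      _ = _ := by field_simp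
  linarith

/-- For every set `A` on which all weights are within a factor `R`. -/
theorem block_on {V : Type} [Fintype V] (G : SimpleGraph V) (w : V → ℝ) (A : Finset V)
    (M t0 j0 : ℕ) (d L κ R : ℝ) (hN : Num d L κ R M t0 j0) (hd : ∀ v, ((nb G v).card : ℝ) ≤ d)
    (hRam : Ram G M t0) (hw : ∀ v, 0 ≤ w v)
    (hwR : ∀ u ∈ A, ∀ v ∈ A, w v ≤ R * w u)
    (hκ : ∀ u v, G.Adj u v → ((nb G u ∩ nb G v).card : ℝ) ≤ κ) :
    ∃ I ∈ ind G A, 1 / 8192 * L / d * ∑ v ∈ A, w v ≤ ∑ v ∈ I, w v := by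
  have hd1 := hN.hd
  have hd0 : 0 < d := by linarith
  have hL := hN.hL1
  obtain ⟨wA, hwA⟩ : ∃ wA : V → ℝ, wA = fun v => if v ∈ A then w v else 0 := ⟨_, rfl⟩
  have hwA0 : ∀ v, 0 ≤ wA v := by
    intro v
    rw [hwA]
    simp only
    split_ifs
    · exact hw v
    · exact le_rfl
  have hdA : ∀ v, ((nb (res G A) v).card : ℝ) ≤ d := fun v =>
    (Nat.cast_le.2 (Finset.card_le_card (Dom_nb_res G A v))).trans (hd v)
  have hhalf := dom_half (res G A) wA d hd1 hdA hwA0
  obtain ⟨B, hB⟩ : ∃ B : Finset V, B = A.filter (fun v => ∑ u ∈ nb (res G A) v, wA u ≤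
    2 * d * wA v) := ⟨_, rfl⟩
  have hBA : B ⊆ A := by rw [hB]; exact Finset.filter_subset _ _
  obtain ⟨wB, hwB⟩ : ∃ wB : V → ℝ, wB = fun v => if v ∈ B then w v else 0 := ⟨_, rfl⟩
  have hwB0 : ∀ v, 0 ≤ wB v := by
    intro v
    rw [hwB]
    simp only
    split_ifs
    · exact hw v
    · exact le_rfl
  have hwBA : ∀ v, wB v ≤ wA v := by
    intro v
    rw [hwB, hwA]
    simp only
    by_cases h1 : v ∈ B
    · rw [if_pos h1, if_pos (hBA h1)]
    · rw [if_neg h1]
      split_ifs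
      · exact hw v
      · exact le_rfl
  have hsumA : ∑ v, wA v = ∑ v ∈ A, w v := by
    rw [hwA, ← Finset.sum_filter]
    congr 1
    ext v
    simp
  have hsumB : ∑ v, wB v = ∑ v ∈ B, w v := by
    rw [hwB, ← Finset.sum_filter]
    congr 1
    ext v
    simp
  have hhalf' : (∑ v ∈ A, w v) / 2 ≤ ∑ v ∈ B, w v := by
    rw [hsumA] at hhalf
    refine hhalf.trans (le_of_eq ?_)
    have h0 : ∀ v, wA v = if v ∈ A then w v else 0 := fun v => by rw [hwA]
    have h1 : ∀ S : Finset V, ∑ v ∈ S, wA v = ∑ v ∈ S.filter (fun v => v ∈ A), w v := by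
      intro S
      rw [Finset.sum_filter]
      exact Finset.sum_congr rfl fun v _ => h0 v
    rw [h1]
    apply Finset.sum_congr _ fun _ _ => rfl
    rw [hB]
    ext v
    simp only [Finset.mem_filter, Finset.mem_univ, true_and]
    exact and_comm
  have hdB : ∀ v, ((nb (res G B) v).card : ℝ) ≤ d := fun v =>
    (Nat.cast_le.2 (Finset.card_le_card (Dom_nb_res G B v))).trans (hd v)
  have hRamB : Ram (res G B) M t0 := by
    intro v X hX hM
    obtain ⟨T, hT1, hT2, hT3⟩ := hRam v X (hX.trans (Dom_nb_res G B v)) hM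
    exact ⟨T, hT1, hT2, fun x hx y hy h => hT3 x hx y hy h.1⟩
  have hwRB : ∀ u v, (res G B).Adj u v → wB v ≤ R * wB u := by
    intro u v h
    rw [hwB]
    simp only
    rw [if_pos h.2.2, if_pos h.2.1]
    exact hwR u (hBA h.2.1) v (hBA h.2.2)
  have hκB : ∀ u v, (res G B).Adj u v →
      ((nb (res G B) u ∩ nb (res G B) v).card : ℝ) ≤ κ := by
    intro u v h
    refine le_trans ?_ (hκ u v h.1)
    exact Nat.cast_le.2 (Finset.card_le_card
      (Finset.inter_subset_inter (Dom_nb_res G B u) (Dom_nb_res G B v)))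
  have hdomB : ∀ v, ∑ u ∈ nb (res G B) v, wB u ≤ 2 * d * wB v := by
    intro v
    by_cases h1 : v ∈ B
    · have h2 : ∑ u ∈ nb (res G A) v, wA u ≤ 2 * d * wA v := by
        rw [hB] at h1
        exact (Finset.mem_filter.1 h1).2
      have h3 : wA v = wB v := by
        rw [hwA, hwB]
        simp only
        rw [if_pos h1, if_pos (hBA h1)]
      rw [← h3]
      refine le_trans ?_ h2
      refine (Finset.sum_le_sum fun u _ => hwBA u).trans ?_
      apply Finset.sum_le_sum_of_subset_of_nonneg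
      · intro u hu
        rw [Dom_nb] at hu ⊢
        exact ⟨hu.1, hBA hu.2.1, hBA hu.2.2⟩
      · intro u _ _
        exact hwA0 u
    · have h2 : nb (res G B) v = ∅ := by
        rw [Finset.eq_empty_iff_forall_notMem]
        intro u hu
        rw [Dom_nb] at hu
        exact h1 hu.2.1
      rw [h2, Finset.sum_empty]
      exact mul_nonneg (by linarith) (hwB0 v)
  obtain ⟨I, hI, hIw⟩ := block (res G B) wB M t0 j0 d L κ R hN hdB hRamB hwB0 hwRB hκB hdomB
  refine ⟨I ∩ B, ?_, ?_⟩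
  · simp only [ind, Finset.mem_filter, Finset.mem_powerset] at hI ⊢
    refine ⟨Finset.inter_subset_right.trans hBA, ?_⟩
    intro x hx y hy hxy
    rw [Finset.mem_inter] at hx hy
    exact hI.2 x hx.1 y hy.1 ⟨hxy, hx.2, hy.2⟩
  · have h1 : ∑ v ∈ I, wB v = ∑ v ∈ I ∩ B, w v := by
      rw [hwB, ← Finset.sum_filter, Finset.filter_mem_eq_inter]
    rw [← h1]
    refine le_trans ?_ hIw
    rw [hsumB]
    have h2 : 0 ≤ L / d := by positivity
    have h3 := mul_le_mul_of_nonneg_left hhalf' h2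
    have e1 : 1 / 8192 * L / d * ∑ v ∈ A, w v = 1 / 4096 * (L / d * ((∑ v ∈ A, w v) / 2)) := by
      ring
    have e2 : 1 / 4096 * L / d * ∑ v ∈ B, w v = 1 / 4096 * (L / d * ∑ v ∈ B, w v) := by ring
    rw [e1, e2]
    linarith

end MP06c.FA
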