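import Pool.Agent.Lib.MP_06c6c1_co.FA.Defs

set_option autoImplicit false

/-!
# MP_06c6c1_co, project FA, module M11 (helper13): duality by separation

If every nonnegative weight has an independent set of weight at least `c` times the total weight,
then there is a probability distribution on the independent sets which covers every vertex with
probability at least `c`.
-/

namespace MP06c.FA

open Finset Classical MP06c

private lemma Dua_sum {V : Type} [Fintype V] (S : Finset (Finset V)) (Φ : Finset V → ℝ)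
    (h : ∀ I, I ∉ S → Φ I = 0) : ∑ I : Finset V, Φ I = ∑ i : S, Φ i.1 := by
  rw [Finset.sum_coe_sort S Φ]
  symm
  exact Finset.sum_subset (Finset.subset_univ S) (fun I _ hI => h I hI)

/-- the combination of the indicator vectors -/
private noncomputable def Dua_L {V : Type} (S : Finset (Finset V)) :
    (S → ℝ) →ₗ[ℝ] (V → ℝ) where
  toFun p := fun v => ∑ i : S, p i * (if v ∈ i.1 then 1 else 0)
  map_add' p q := by
    funext v
    simp only [Pi.add_apply, add_mul, Finset.sum_add_distrib]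
  map_smul' a p := by
    funext v
    simp only [Pi.smul_apply, smul_eq_mul, RingHom.id_apply, mul_assoc, Finset.mul_sum]

private lemma Dua_app {V : Type} (S : Finset (Finset V)) (p : S → ℝ) (v : V) :
    Dua_L S p v = ∑ i : S, p i * (if v ∈ i.1 then 1 else 0) := rfl

private lemma Dua_single {V : Type} (S : Finset (Finset V)) (i : S) (v : V) :
    Dua_L S (Pi.single i 1) v = if v ∈ i.1 then 1 else 0 := by
  rw [Dua_app, Finset.sum_eq_single i]
  · rw [Pi.single_eq_same, one_mul]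
  · intro j _ hj
    rw [Pi.single_eq_of_ne hj, zero_mul]
  · intro hi
    exact absurd (Finset.mem_univ i) hi

/-- the separation argument -/
private lemma Dua_sep {V : Type} [Fintype V] (S : Finset (Finset V)) (c : ℝ)
    (h : ∀ w : V → ℝ, (∀ v, 0 ≤ w v) → ∃ I ∈ S, c * ∑ v, w v ≤ ∑ v ∈ I, w v) :
    ∃ p ∈ stdSimplex ℝ S, ∀ v, c ≤ Dua_L S p v := by
  have hcomp : IsCompact ((Dua_L S) '' stdSimplex ℝ S) :=
    (isCompact_stdSimplex ℝ S).image (Dua_L S).continuous_of_finiteDimensional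
  have hconv : Convex ℝ ((Dua_L S) '' stdSimplex ℝ S) :=
    (convex_stdSimplex ℝ S).linear_image (Dua_L S)
  by_contra hcon
  have hdis : Disjoint ((Dua_L S) '' stdSimplex ℝ S) (Set.Ici (fun _ : V => c)) := by
    rw [Set.disjoint_left]
    rintro _ ⟨p, hp, rfl⟩ hy
    exact hcon ⟨p, hp, fun v => hy v⟩
  obtain ⟨f, u, v0, h1, h2, h3⟩ := geometric_hahn_banach_compact_closed hconv hcomp
    (convex_Ici (fun _ : V => c)) isClosed_Ici hdis
  obtain ⟨w, hw⟩ : ∃ w : V → ℝ, w = fun v => f (fun j => if v = j then (1 : ℝ) else 0) := ⟨_, rfl⟩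
  have hf : ∀ y : V → ℝ, f y = ∑ v, y v * w v := by
    intro y
    have h4 := LinearMap.pi_apply_eq_sum_univ (f : (V → ℝ) →ₗ[ℝ] ℝ) y
    simp only [ContinuousLinearMap.coe_coe, smul_eq_mul] at h4
    rw [h4, hw]
  have hfc : f (fun _ => c) = c * ∑ v, w v := by
    rw [hf, Finset.mul_sum]
  have hc1 : v0 < f (fun _ => c) := h3 _ (Set.mem_Ici.2 le_rfl)
  have hw0 : ∀ v, 0 ≤ w v := by
    intro v
    by_contra hneg
    have hneg' : w v < 0 := not_le.1 hneg
    obtain ⟨t, ht⟩ : ∃ t : ℝ, t = (f (fun _ => c) - v0) / (-w v) := ⟨_, rfl⟩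
    have ht0 : 0 ≤ t := by
      rw [ht]
      exact div_nonneg (by linarith) (by linarith)
    have h4 := h3 ((fun _ : V => c) + t • (fun j : V => if v = j then (1 : ℝ) else 0)) (by
      rw [Set.mem_Ici]
      intro j
      simp only [Pi.add_apply, Pi.smul_apply, smul_eq_mul]
      have h5 : 0 ≤ t * (if v = j then (1 : ℝ) else 0) :=
        mul_nonneg ht0 (by split_ifs <;> norm_num)
      linarith)
    rw [map_add, map_smul, smul_eq_mul] at h4
    have h6 : f (fun j => if v = j then (1 : ℝ) else 0) = w v := by rw [hw]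
    rw [h6] at h4
    have h7 : t * w v = -(f (fun _ => c) - v0) := by
      rw [ht, div_neg, neg_mul, div_mul_cancel₀ _ hneg'.ne]
    linarith
  obtain ⟨I, hI, hle⟩ := h w hw0
  have h8 : f (Dua_L S (Pi.single ⟨I, hI⟩ 1)) < u :=
    h1 _ ⟨Pi.single ⟨I, hI⟩ 1, single_mem_stdSimplex ℝ _, rfl⟩
  have h9 : f (Dua_L S (Pi.single ⟨I, hI⟩ 1)) = ∑ v ∈ I, w v := by
    rw [hf]
    have h10 : ∀ v, Dua_L S (Pi.single ⟨I, hI⟩ 1) v * w v = if v ∈ I then w v else 0 := by
      intro v
      rw [Dua_single]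
      split_ifs <;> simp
    rw [Finset.sum_congr rfl (fun v _ => h10 v), Finset.sum_ite_mem, Finset.univ_inter]
  rw [h9] at h8
  rw [hfc] at hc1
  linarith

theorem duality {V : Type} [Fintype V] (G : SimpleGraph V) (c : ℝ) (hc : 0 < c)
    (h : ∀ w : V → ℝ, (∀ v, 0 ≤ w v) → ∃ I ∈ ind G univ, c * ∑ v, w v ≤ ∑ v ∈ I, w v) :
    ∃ p : Finset V → ℝ, (∀ I, 0 ≤ p I) ∧ (∀ I, I ∉ ind G univ → p I = 0) ∧
      ∑ I : Finset V, p I = 1 ∧ ∀ v, c ≤ ∑ I ∈ univ.filter (fun I : Finset V => v ∈ I), p I := by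
  obtain ⟨p, hp, hpc⟩ := Dua_sep (ind G univ) c h
  obtain ⟨P, hP⟩ : ∃ P : Finset V → ℝ,
      P = fun I => if hI : I ∈ ind G univ then p ⟨I, hI⟩ else 0 := ⟨_, rfl⟩
  have hP1 : ∀ i : (ind G univ : Finset (Finset V)), P i.1 = p i := by
    intro i
    rw [hP]
    simp only [dif_pos i.2]
  have hP0 : ∀ I, I ∉ ind G univ → P I = 0 := by
    intro I hI
    rw [hP]
    simp only [dif_neg hI]
  refine ⟨P, ?_, hP0, ?_, ?_⟩
  · intro I
    by_cases hI : I ∈ ind G univ
    · have h1 := hP1 ⟨I, hI⟩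
      simp only at h1
      rw [h1]
      exact hp.1 _
    · rw [hP0 I hI]
  · rw [Dua_sum (ind G univ) P hP0, Finset.sum_congr rfl (fun i _ => hP1 i)]
    exact hp.2
  · intro v
    rw [Finset.sum_filter, Dua_sum (ind G univ) (fun I => if v ∈ I then P I else 0)
      (fun I hI => by rw [hP0 I hI, ite_self])]
    refine (hpc v).trans (le_of_eq ?_)
    rw [Dua_app]
    apply Finset.sum_congr rfl
    intro i _
    rw [hP1 i]
    split_ifs <;> simp

end MP06c.FA
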