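import Pool.Agent.Lib.MP_06c6c1_co.FA.Defs

set_option autoImplicit false

/-!
# MP_06c6c1_co, project FA, module M13: the numerical conditions hold for large d
-/

namespace MP06c.FA

open Finset Classical MP06c

private lemma Num_ev (A : ℝ) :
    ∃ L₀ : ℝ, 100 ≤ L₀ ∧ ∀ L : ℝ, L₀ ≤ L → 1 ≤ Real.log L ∧ A * Real.log L ^ 3 ≤ L := by
  have h1 : ∀ᶠ x : ℝ in Filter.atTop, ‖Real.log x ^ 3‖ ≤ (1 / (|A| + 1)) * ‖(id x : ℝ)‖ :=
    (Real.isLittleO_pow_log_id_atTop (n := 3)).def (by positivity)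
  have h2 : ∀ᶠ x : ℝ in Filter.atTop, 1 ≤ Real.log x := Real.tendsto_log_atTop.eventually_ge_atTop 1
  obtain ⟨L₁, hL₁⟩ := Filter.eventually_atTop.1 (h1.and h2)
  refine ⟨max L₁ 100, le_max_right _ _, fun L hL => ?_⟩
  obtain ⟨h3, h4⟩ := hL₁ L (le_trans (le_max_left _ _) hL)
  have hLp : (100 : ℝ) ≤ L := le_trans (le_max_right _ _) hL
  refine ⟨h4, ?_⟩
  have h5 : (0 : ℝ) ≤ Real.log L ^ 3 := by positivity
  rw [Real.norm_of_nonneg h5, id, Real.norm_of_nonneg (by linarith)] at h3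
  have h6 : (|A| + 1) * Real.log L ^ 3 ≤ L := by
    have := mul_le_mul_of_nonneg_left h3 (by positivity : (0 : ℝ) ≤ |A| + 1)
    have h7 : (|A| + 1) * (1 / (|A| + 1) * L) = L := by
      have : (|A| + 1) ≠ 0 := by positivity
      field_simp
    rwa [h7] at this
  have h8 : A * Real.log L ^ 3 ≤ (|A| + 1) * Real.log L ^ 3 :=
    mul_le_mul_of_nonneg_right (by linarith [le_abs_self A]) h5
  linarith

/-- N1 -/
private lemma Num_n1 (d : ℝ) (hd : 1 ≤ d) :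
    (1 + Real.sqrt d) * (1 / 4096) * Real.log d / d ≤ 1 / 16 := by
  have hs : 1 ≤ Real.sqrt d := by
    rw [show (1 : ℝ) = Real.sqrt 1 by simp]; exact Real.sqrt_le_sqrt hd
  have hd0 : (0 : ℝ) < d := by linarith
  have hsq : Real.sqrt d * Real.sqrt d = d := Real.mul_self_sqrt hd0.le
  have hlog : Real.log d ≤ 2 * Real.sqrt d := by
    have h1 : Real.log d = 2 * Real.log (Real.sqrt d) := by
      rw [Real.log_sqrt hd0.le]; ring
    have h2 := Real.log_le_sub_one_of_pos (show 0 < Real.sqrt d by linarith)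
    linarith
  have hl0 : 0 ≤ Real.log d := Real.log_nonneg hd
  rw [div_le_iff₀ hd0]
  have h3 : (1 + Real.sqrt d) * Real.log d ≤ (2 * Real.sqrt d) * (2 * Real.sqrt d) :=
    mul_le_mul (by linarith) hlog hl0 (by linarith)
  nlinarith

private lemma Num_pow (d : ℝ) (hd : 2 ≤ d) (k : ℕ) :
    (1 + d) ^ k ≤ Real.exp (2 * Real.log d * k) := by
  have h1 : 1 + d ≤ Real.exp (2 * Real.log d) := by
    rw [show 2 * Real.log d = Real.log d + Real.log d by ring, Real.exp_add,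
      Real.exp_log (by linarith)]
    nlinarith
  calc (1 + d) ^ k ≤ (Real.exp (2 * Real.log d)) ^ k := pow_le_pow_left₀ (by linarith) h1 k
    _ = Real.exp (2 * Real.log d * k) := by rw [← Real.exp_nat_mul]; congr 1; ring

private lemma Num_two (L : ℝ) (t : ℕ) (ht : L ^ 2 ≤ t) : Real.exp (0.69 * L ^ 2) ≤ (2 : ℝ) ^ t := by
  have h2 : (0.69 : ℝ) ≤ Real.log 2 := by have := Real.log_two_gt_d9; linarith
  calc Real.exp (0.69 * L ^ 2) ≤ Real.exp (Real.log 2 * t) := by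
        apply Real.exp_le_exp.2
        exact mul_le_mul h2 ht (by positivity) (by linarith)
    _ = (2 : ℝ) ^ t := by
        rw [mul_comm, Real.exp_nat_mul, Real.exp_log (by norm_num)]

/-- N5 -/
private lemma Num_n5 (d L κ E B P ℓ : ℝ) (hd : 100 ≤ d) (hdexp : d = Real.exp L)
    (hLexp : L = Real.exp ℓ) (hL : 100 ≤ L) (hLd : L ≤ d) (hℓB : ℓ ≤ B) (hBL : 1000 * B ≤ L)
    (hB : 1 ≤ B) (hκ : κ ≤ d * Real.exp (-(32 * B)) + 4 * L) (hP0 : 0 ≤ P)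
    (hE : E = Real.exp (30 * B)) (hP : P ≤ E) :
    κ * L * (P * ((1 / 4096) * L / d) + 1 / d ^ 10) < 1 / 10 := by
  have hd0 : (0 : ℝ) < d := by linarith
  have hL0 : (0 : ℝ) < L := by linarith
  have hE0 : 0 < E := by rw [hE]; exact Real.exp_pos _
  have h1 : κ * (L ^ 2 * P) ≤ 5 * d := by
    have h2 : κ * (L ^ 2 * P) ≤ (d * Real.exp (-(32 * B)) + 4 * L) * (L ^ 2 * E) :=
      mul_le_mul hκ (mul_le_mul_of_nonneg_left hP (by positivity)) (by positivity)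
        (by have := Real.exp_pos (-(32 * B)); positivity)
    have h3 : Real.exp (-(32 * B)) * (L ^ 2 * E) ≤ 1 := by
      rw [hE, hLexp, ← Real.exp_nat_mul, ← Real.exp_add, ← Real.exp_add, Real.exp_le_one_iff]
      push_cast; linarith
    have h4 : L * (L ^ 2 * E) ≤ d := by
      have h5 : L * (L ^ 2 * E) = Real.exp (3 * ℓ + 30 * B) := by
        rw [hE, hLexp, ← Real.exp_nat_mul, ← Real.exp_add, ← Real.exp_add]
        congr 1; push_cast; ring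
      rw [h5, hdexp]
      exact Real.exp_le_exp.2 (by linarith)
    have h6 : d * (Real.exp (-(32 * B)) * (L ^ 2 * E)) ≤ d * 1 :=
      mul_le_mul_of_nonneg_left h3 hd0.le
    have h7 : (d * Real.exp (-(32 * B)) + 4 * L) * (L ^ 2 * E) =
        d * (Real.exp (-(32 * B)) * (L ^ 2 * E)) + 4 * (L * (L ^ 2 * E)) := by ring
    linarith
  have h8 : κ * L ≤ 5 * d ^ 2 := by
    have h9 : Real.exp (-(32 * B)) ≤ 1 := by rw [Real.exp_le_one_iff]; linarith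
    have h10 : d * Real.exp (-(32 * B)) ≤ d * 1 := mul_le_mul_of_nonneg_left h9 hd0.le
    have h11 : κ ≤ 5 * d := by linarith
    have h12 : κ * L ≤ (5 * d) * d := mul_le_mul h11 hLd hL0.le (by linarith)
    have h13 : (5 * d) * d = 5 * d ^ 2 := by ring
    linarith
  have h14 : 100 * d ^ 2 ≤ d ^ 10 := by
    have h15 : (100 : ℝ) ≤ d ^ 8 := by
      calc (100 : ℝ) ≤ d := hd
        _ = d ^ 1 := (pow_one d).symm
        _ ≤ d ^ 8 := pow_le_pow_right₀ (by linarith) (by norm_num)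
    have h16 : d ^ 10 = d ^ 8 * d ^ 2 := by ring
    rw [h16]
    exact mul_le_mul_of_nonneg_right h15 (by positivity)
  have h17 : κ * L * (P * ((1 / 4096) * L / d)) ≤ 5 / 4096 := by
    have h18 : κ * L * (P * ((1 / 4096) * L / d)) = κ * (L ^ 2 * P) / d * (1 / 4096) := by
      field_simp
    have h19 : κ * (L ^ 2 * P) / d ≤ 5 := by rw [div_le_iff₀ hd0]; exact h1
    rw [h18]; linarith
  have h20 : κ * L * (1 / d ^ 10) ≤ 5 / 100 := by
    have h21 : κ * L * (1 / d ^ 10) = κ * L / d ^ 10 := by ring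
    rw [h21, div_le_iff₀ (by positivity)]
    linarith
  have h22 : κ * L * (P * ((1 / 4096) * L / d) + 1 / d ^ 10) =
      κ * L * (P * ((1 / 4096) * L / d)) + κ * L * (1 / d ^ 10) := by ring
  rw [h22]
  linarith

/-- bounds for M and j0 -/
private lemma Num_M (n t0 M j0 : ℕ) (L ℓ B : ℝ) (hn : 1 ≤ n) (hL : 100 ≤ L) (hℓd : ℓ = Real.log L)
    (hℓ : 1 ≤ ℓ) (hB : B = (n : ℝ) ^ 3 * ℓ ^ 3) (ht1 : L ^ 2 ≤ (t0 : ℝ)) (ht2 : (t0 : ℝ) < L ^ 2 + 1)
    (hM : M = t0 ^ n) (hj : j0 = ⌈(Real.log M) ^ 2⌉₊) :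
    2 ≤ M ∧ 0 ≤ Real.log M ∧ Real.log M ≤ 3 * B ∧ (j0 : ℝ) ≤ 10 * B ∧
      ((M : ℕ) : ℝ) ^ j0 ≤ Real.exp (30 * B) := by
  have hn1 : (1 : ℝ) ≤ n := by exact_mod_cast hn
  have hLsq : 100 * L ≤ L ^ 2 := by nlinarith
  have ht3 : (t0 : ℝ) ≤ L ^ 3 := by
    have h1 : 100 * L ^ 2 ≤ L ^ 3 := by
      have : L ^ 3 = L * L ^ 2 := by ring
      rw [this]; exact mul_le_mul_of_nonneg_right hL (by positivity)
    linarith
  have htp : (2 : ℝ) ≤ t0 := by linarith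
  have htp' : 2 ≤ t0 := by exact_mod_cast htp
  have hMc : ((M : ℕ) : ℝ) = (t0 : ℝ) ^ n := by rw [hM]; push_cast; ring
  have hlogt : Real.log t0 ≤ 3 * ℓ := by
    have := Real.log_le_log (by linarith) ht3
    rw [Real.log_pow] at this
    push_cast at this
    rw [hℓd]; exact this
  have hlogt0 : 0 ≤ Real.log t0 := Real.log_nonneg (by linarith)
  have hlogM : Real.log M = n * Real.log t0 := by rw [hMc, Real.log_pow]
  have hlogM0 : 0 ≤ Real.log M := by rw [hlogM]; positivity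
  have hlogM1 : Real.log M ≤ 3 * ((n : ℝ) * ℓ) := by
    rw [hlogM]
    have := mul_le_mul_of_nonneg_left hlogt (by linarith : (0 : ℝ) ≤ n)
    linarith
  have hM2 : 2 ≤ M := by
    rw [hM]
    calc 2 ≤ t0 := htp'
      _ = t0 ^ 1 := (pow_one _).symm
      _ ≤ t0 ^ n := Nat.pow_le_pow_right (by omega) hn
  have hMR : (2 : ℝ) ≤ M := by exact_mod_cast hM2
  have hℓ0 : (0 : ℝ) ≤ ℓ := by linarith
  have hℓ2 : (1 : ℝ) ≤ ℓ ^ 2 := one_le_pow₀ hℓ
  have hn2 : (1 : ℝ) ≤ (n : ℝ) ^ 2 := one_le_pow₀ hn1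
  have hnℓ : (n : ℝ) * ℓ ≤ B := by
    have h1 : (1 : ℝ) ≤ (n : ℝ) ^ 2 * ℓ ^ 2 := one_le_mul_of_one_le_of_one_le hn2 hℓ2
    have h2 : B = ((n : ℝ) * ℓ) * ((n : ℝ) ^ 2 * ℓ ^ 2) := by rw [hB]; ring
    rw [h2]; exact le_mul_of_one_le_right (by positivity) h1
  have h11 : (1 : ℝ) ≤ (n : ℝ) ^ 2 * ℓ ^ 2 := one_le_mul_of_one_le_of_one_le hn2 hℓ2
  have hnℓ2 : (n : ℝ) ^ 2 * ℓ ^ 2 ≤ B := by
    have h1 : (1 : ℝ) ≤ (n : ℝ) * ℓ := one_le_mul_of_one_le_of_one_le hn1 hℓ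
    have h2 : B = ((n : ℝ) ^ 2 * ℓ ^ 2) * ((n : ℝ) * ℓ) := by rw [hB]; ring
    rw [h2]; exact le_mul_of_one_le_right (by positivity) h1
  have hj2 : (j0 : ℝ) < (Real.log M) ^ 2 + 1 := by
    rw [hj]; exact Nat.ceil_lt_add_one (by positivity)
  have hj3 : (Real.log M) ^ 2 ≤ 9 * ((n : ℝ) ^ 2 * ℓ ^ 2) := by
    have h1 : (Real.log M) ^ 2 ≤ (3 * ((n : ℝ) * ℓ)) ^ 2 := pow_le_pow_left₀ hlogM0 hlogM1 2
    have h2 : (3 * ((n : ℝ) * ℓ)) ^ 2 = 9 * ((n : ℝ) ^ 2 * ℓ ^ 2) := by ring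
    linarith
  have hj4 : (j0 : ℝ) ≤ 10 * ((n : ℝ) ^ 2 * ℓ ^ 2) := by linarith
  refine ⟨hM2, hlogM0, by linarith, by linarith, ?_⟩
  have h1 : ((M : ℕ) : ℝ) ^ j0 = Real.exp (j0 * Real.log M) := by
    rw [Real.exp_nat_mul, Real.exp_log (by linarith)]
  rw [h1]
  apply Real.exp_le_exp.2
  calc (j0 : ℝ) * Real.log M ≤ (10 * ((n : ℝ) ^ 2 * ℓ ^ 2)) * (3 * ((n : ℝ) * ℓ)) :=
        mul_le_mul hj4 hlogM1 hlogM0 (by positivity)
    _ = 30 * B := by rw [hB]; ring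

theorem numbers (n : ℕ) (hn : 1 ≤ n) :
    ∃ K g₀ : ℝ, 16 ≤ g₀ ∧ ∀ g d κ : ℝ, g₀ ≤ g → 0.8 * g ≤ d → d ≤ g → 0 ≤ κ →
      κ ≤ d * Real.exp (-K * (Real.log (Real.log g)) ^ 3) + 2 * Real.logb 2 d + 2 →
      ∃ M t0 j0 : ℕ, t0 ^ (n - 1) ≤ M ∧ Num d (Real.log d) κ (Real.log d) M t0 j0 ∧
        1 < Real.log d ∧ Real.log g ≤ 2 * Real.log d := by
  obtain ⟨L₀, hL₀, hev⟩ := Num_ev (1000 * (n : ℝ) ^ 3)
  have hn1 : (1 : ℝ) ≤ n := by exact_mod_cast hn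
  have hexp : L₀ + 1 ≤ Real.exp L₀ := Real.add_one_le_exp L₀
  refine ⟨32 * (n : ℝ) ^ 3, 2 * Real.exp L₀, by linarith, fun g d κ hg hd1 hd2 hκ0 hκ => ?_⟩
  have hdL : Real.exp L₀ ≤ d := by linarith [Real.exp_pos L₀]
  have hd100 : (100 : ℝ) ≤ d := by linarith
  have hd0 : (0 : ℝ) < d := by linarith
  have hg0 : (0 : ℝ) < g := by linarith
  have hLL : L₀ ≤ Real.log d := by rw [Real.le_log_iff_exp_le hd0]; exact hdL
  have hn1' := Num_n1 d (by linarith)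
  have hpow := Num_pow d (by linarith)
  have hdexp : d = Real.exp (Real.log d) := (Real.exp_log hd0).symm
  have hLd : Real.log d ≤ d := by linarith [Real.log_le_sub_one_of_pos hd0]
  have hlg : Real.log g ≤ 2 * Real.log d := by
    have h1 : g ≤ d ^ 2 := by
      have : d ^ 2 = d * d := by ring
      rw [this]
      have h2 : 100 * d ≤ d * d := mul_le_mul_of_nonneg_right hd100 hd0.le
      linarith
    have h2 := Real.log_le_log hg0 h1
    rw [Real.log_pow] at h2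
    push_cast at h2
    linarith
  have hgL : Real.log d ≤ Real.log g := Real.log_le_log hd0 hd2
  have hlogb : Real.logb 2 d ≤ 1.5 * Real.log d := by
    have h2 : (0.6931 : ℝ) ≤ Real.log 2 := by have := Real.log_two_gt_d9; linarith
    rw [Real.logb, div_le_iff₀ (by linarith)]
    nlinarith
  obtain ⟨hℓ, hA⟩ := hev _ hLL
  obtain ⟨L, hL⟩ : ∃ L, Real.log d = L := ⟨_, rfl⟩
  rw [hL] at hℓ hA hLL hn1' hpow hdexp hLd hlg hgL hlogb ⊢
  obtain ⟨ℓ, hℓd⟩ : ∃ ℓ, ℓ = Real.log L := ⟨_, rfl⟩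
  rw [← hℓd] at hℓ hA
  have hL100 : (100 : ℝ) ≤ L := by linarith
  have hLexp : L = Real.exp ℓ := by rw [hℓd, Real.exp_log (by linarith)]
  obtain ⟨B, hB⟩ : ∃ B, B = (n : ℝ) ^ 3 * ℓ ^ 3 := ⟨_, rfl⟩
  have hBL : 1000 * B ≤ L := by rw [hB]; linarith
  have hn3p : (1 : ℝ) ≤ (n : ℝ) ^ 3 := one_le_pow₀ hn1
  have hℓ2 : (1 : ℝ) ≤ ℓ ^ 2 := one_le_pow₀ hℓ
  have hℓ3 : ℓ ≤ ℓ ^ 3 := by
    have : ℓ ^ 3 = ℓ * ℓ ^ 2 := by ring
    rw [this]; exact le_mul_of_one_le_right (by linarith) hℓ2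
  have hℓB : ℓ ≤ B := by
    rw [hB]
    exact hℓ3.trans (le_mul_of_one_le_left (by positivity) hn3p)
  have hB1 : 1 ≤ B := by linarith
  obtain ⟨t0, ht0⟩ : ∃ t0, t0 = ⌈L ^ 2⌉₊ := ⟨_, rfl⟩
  have ht1 : L ^ 2 ≤ (t0 : ℝ) := by rw [ht0]; exact Nat.le_ceil _
  have ht2 : (t0 : ℝ) < L ^ 2 + 1 := by rw [ht0]; exact Nat.ceil_lt_add_one (by positivity)
  obtain ⟨M, hM⟩ : ∃ M, M = t0 ^ n := ⟨_, rfl⟩
  obtain ⟨j0, hj0⟩ : ∃ j0, j0 = ⌈(Real.log M) ^ 2⌉₊ := ⟨_, rfl⟩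
  obtain ⟨hM2, hlogM0, hlogM1, hj4, hMj⟩ :=
    Num_M n t0 M j0 L ℓ B hn hL100 hℓd hℓ hB ht1 ht2 hM hj0
  have h2 := Num_two L t0 ht1
  have he2 : (2 : ℝ) < Real.exp 1 := by have := Real.exp_one_gt_d9; linarith
  have hLL2 : 100 * L ≤ L ^ 2 := by nlinarith
  have htp' : 1 ≤ t0 := by
    have : (0 : ℝ) < t0 := by linarith
    exact_mod_cast this
  refine ⟨M, t0, j0, ?_, ?_, by linarith, hlg⟩
  · rw [hM]; exact Nat.pow_le_pow_right (by omega) (by omega)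
  · refine ⟨by linarith, hL.symm, by linarith, by linarith, hκ0, hM2, ?_, hn1', ?_, ?_, ?_, ?_⟩
    · rw [hj0]; exact Nat.le_ceil _
    · -- n2
      have h1 := hpow ⌊L / 32⌋₊
      have h3 : ((⌊L / 32⌋₊ : ℕ) : ℝ) ≤ L / 32 := Nat.floor_le (by positivity)
      have h4 : 2 * L * ((⌊L / 32⌋₊ : ℕ) : ℝ) ≤ L ^ 2 / 16 := by
        have := mul_le_mul_of_nonneg_left h3 (by linarith : (0 : ℝ) ≤ 2 * L)
        have h5 : 2 * L * (L / 32) = L ^ 2 / 16 := by ring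
        linarith
      calc 2 * (1 + d) ^ ⌊L / 32⌋₊ ≤ 2 * Real.exp (L ^ 2 / 16) := by
            have := h1.trans (Real.exp_le_exp.2 h4); linarith
        _ < Real.exp 1 * Real.exp (L ^ 2 / 16) := by
            exact mul_lt_mul_of_pos_right he2 (Real.exp_pos _)
        _ = Real.exp (1 + L ^ 2 / 16) := by rw [Real.exp_add]
        _ ≤ Real.exp (0.69 * L ^ 2) := Real.exp_le_exp.2 (by linarith)
        _ ≤ (2 : ℝ) ^ t0 := h2
    · -- n3
      rw [lt_div_iff₀ (by norm_num)]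
      calc Real.exp (0.2125 * L + Real.log M) * 2
          < Real.exp (0.2125 * L + Real.log M) * Real.exp 1 :=
            mul_lt_mul_of_pos_left he2 (Real.exp_pos _)
        _ = Real.exp (0.2125 * L + Real.log M + 1) := by rw [Real.exp_add _ 1]
        _ ≤ Real.exp (L / 2) := Real.exp_le_exp.2 (by linarith)
    · -- n4
      have h1 := hpow j0
      rw [le_div_iff₀ (by positivity)]
      have h3 : d ^ 10 = Real.exp (10 * L) := by
        rw [hdexp, ← Real.exp_nat_mul]; norm_num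
      have h4 : (20 * B + 10) * L ≤ 0.69 * L ^ 2 := by
        have h5 : 20 * B + 10 ≤ 0.69 * L := by linarith
        have h6 := mul_le_mul_of_nonneg_right h5 (by linarith : (0 : ℝ) ≤ L)
        have h7 : 0.69 * L * L = 0.69 * L ^ 2 := by ring
        linarith
      have h8 : 2 * L * (j0 : ℝ) ≤ 2 * L * (10 * B) :=
        mul_le_mul_of_nonneg_left hj4 (by linarith)
      calc (1 + d) ^ j0 * d ^ 10 ≤ Real.exp (2 * L * j0) * Real.exp (10 * L) := by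
            rw [h3]; exact mul_le_mul_of_nonneg_right h1 (Real.exp_pos _).le
        _ = Real.exp (2 * L * j0 + 10 * L) := by rw [Real.exp_add]
        _ ≤ Real.exp (0.69 * L ^ 2) := Real.exp_le_exp.2 (by linarith)
        _ ≤ (2 : ℝ) ^ t0 := h2
    · -- n5
      have hll : ℓ ≤ Real.log (Real.log g) := by
        rw [hℓd]; exact Real.log_le_log (by linarith) hgL
      have hl3 : ℓ ^ 3 ≤ (Real.log (Real.log g)) ^ 3 := pow_le_pow_left₀ (by linarith) hll 3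
      have hK : -(32 * (n : ℝ) ^ 3) * (Real.log (Real.log g)) ^ 3 ≤ -(32 * B) := by
        have := mul_le_mul_of_nonneg_left hl3 (by positivity : (0 : ℝ) ≤ 32 * (n : ℝ) ^ 3)
        rw [hB]; linarith
      have hκ' : κ ≤ d * Real.exp (-(32 * B)) + 4 * L := by
        have h3 := mul_le_mul_of_nonneg_left (Real.exp_le_exp.2 hK) hd0.le
        linarith
      exact Num_n5 d L κ (Real.exp (30 * B)) B ((M : ℝ) ^ j0) ℓ hd100 hdexp hLexp hL100 hLd hℓB hBL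
        hB1 hκ' (by positivity) rfl hMj

end MP06c.FA
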