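import Pool.Agent.Lib.MP_06c6c1_co.FA.Defs

set_option autoImplicit false

/-!
# MP_06c6c1_co, project FA: M12, a random colour class
-/

namespace MP06c.FA

open Finset Classical MP06c

/-- The good vertices of a random colour class. -/
noncomputable def good {V : Type} [Fintype V] (G : SimpleGraph V) (S : Finset V) (n : ℕ)
    (d κ' : ℝ) : Finset V :=
  S.filter (fun v => ((S ∩ nb G v).card : ℝ) ≤ d ∧
    (∀ T : Finset V, T ⊆ S ∩ nb G v → T.card = n → ¬ G.IsClique (T : Set V)) ∧
    ∀ u ∈ S ∩ nb G v, ((nb G u ∩ nb G v ∩ S).card : ℝ) ≤ κ')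

private noncomputable def Smp_P {V : Type} [Fintype V] (p : ℝ) (S : Finset V) : ℝ :=
  p ^ S.card * (1 - p) ^ (univ \ S).card

private lemma Smp_inc {V : Type} [Fintype V] (p : ℝ) (A : Finset V) (c : ℝ) :
    ∑ S : Finset V, Smp_P p S * (if A ⊆ S then c else 0) = c * p ^ A.card := by
  have h := Finset.prod_add (fun _ : V => p) (fun i => if i ∈ A then (0 : ℝ) else 1 - p) univ
  have h1 : ∏ i : V, (p + (if i ∈ A then (0 : ℝ) else 1 - p)) = p ^ A.card := by
    have : ∀ i ∈ (univ : Finset V), (p + (if i ∈ A then (0 : ℝ) else 1 - p)) =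
        (if i ∈ A then p else 1) := by
      intro i _
      split_ifs <;> ring
    rw [Finset.prod_congr rfl this, Finset.prod_ite_mem, univ_inter, prod_const]
  rw [h1, powerset_univ] at h
  rw [h, mul_sum]
  refine sum_congr rfl fun S _ => ?_
  unfold Smp_P
  by_cases hA : A ⊆ S
  · have h2 : ∏ i ∈ univ \ S, (if i ∈ A then (0 : ℝ) else 1 - p) = (1 - p) ^ (univ \ S).card := by
      rw [← prod_const]
      refine prod_congr rfl fun i hi => ?_
      rw [mem_sdiff] at hi
      rw [if_neg (fun h' => hi.2 (hA h'))]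
    rw [if_pos hA, h2, prod_const]
    ring
  · obtain ⟨a, haA, haS⟩ := Finset.not_subset.mp hA
    have h2 : ∏ i ∈ univ \ S, (if i ∈ A then (0 : ℝ) else 1 - p) = 0 :=
      prod_eq_zero (mem_sdiff.mpr ⟨mem_univ a, haS⟩) (if_pos haA)
    rw [if_neg hA, h2]
    ring

private lemma Smp_E {V ι : Type} [Fintype V] (p : ℝ) (s : Finset ι) (A : ι → Finset V) (c : ℝ) :
    ∑ S : Finset V, Smp_P p S * ∑ i ∈ s, (if A i ⊆ S then c else 0) =
      ∑ i ∈ s, c * p ^ (A i).card := by
  simp only [mul_sum]
  rw [sum_comm]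
  exact sum_congr rfl fun i _ => Smp_inc p (A i) c

private lemma Smp_pt {V : Type} [Fintype V] (G : SimpleGraph V) (S : Finset V) (v : V)
    (n D : ℕ) (d : ℝ) (hd : 0 < d) :
    (if ({v} : Finset V) ⊆ S then (1 : ℝ) else 0) -
      (∑ u ∈ nb G v, (if ({v, u} : Finset V) ⊆ S then 1 / d else 0)) -
      (∑ T ∈ ((nb G v).powersetCard n).filter (fun T : Finset V => G.IsClique (T : Set V)),
        (if insert v T ⊆ S then (1 : ℝ) else 0)) -
      (∑ u ∈ nb G v, ∑ W ∈ (nb G u ∩ nb G v).powersetCard D,
        (if insert v (insert u W) ⊆ S then (1 : ℝ) else 0)) ≤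
      (if v ∈ good G S n d D then (1 : ℝ) else 0) := by
  have hd1 : 0 ≤ 1 / d := by positivity
  have a1 : 0 ≤ ∑ u ∈ nb G v, (if ({v, u} : Finset V) ⊆ S then 1 / d else 0) :=
    sum_nonneg fun u _ => by split_ifs <;> [exact hd1; exact le_rfl]
  have a2 : 0 ≤ ∑ T ∈ ((nb G v).powersetCard n).filter
      (fun T : Finset V => G.IsClique (T : Set V)), (if insert v T ⊆ S then (1 : ℝ) else 0) :=
    sum_nonneg fun u _ => by split_ifs <;> norm_num
  have a3 : 0 ≤ ∑ u ∈ nb G v, ∑ W ∈ (nb G u ∩ nb G v).powersetCard D,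
        (if insert v (insert u W) ⊆ S then (1 : ℝ) else 0) :=
    sum_nonneg fun u _ => sum_nonneg fun W _ => by split_ifs <;> norm_num
  by_cases hv : v ∈ S
  · rw [if_pos (singleton_subset_iff.mpr hv)]
    by_cases hg : v ∈ good G S n d D
    · rw [if_pos hg]
      linarith
    · rw [if_neg hg]
      have h3 : 1 ≤ (∑ u ∈ nb G v, (if ({v, u} : Finset V) ⊆ S then 1 / d else 0)) ∨
          1 ≤ (∑ T ∈ ((nb G v).powersetCard n).filter
            (fun T : Finset V => G.IsClique (T : Set V)),
            (if insert v T ⊆ S then (1 : ℝ) else 0)) ∨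
          1 ≤ (∑ u ∈ nb G v, ∑ W ∈ (nb G u ∩ nb G v).powersetCard D,
            (if insert v (insert u W) ⊆ S then (1 : ℝ) else 0)) := by
        by_contra hcon
        push Not at hcon
        obtain ⟨c1, c2, c3⟩ := hcon
        apply hg
        unfold good
        rw [mem_filter]
        refine ⟨hv, ?_, ?_, ?_⟩
        · by_contra hlt
          push Not at hlt
          have h4 : ((S ∩ nb G v).card : ℝ) * (1 / d) ≤
              ∑ u ∈ nb G v, (if ({v, u} : Finset V) ⊆ S then 1 / d else 0) := by
            rw [← nsmul_eq_mul, ← sum_const]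
            calc ∑ u ∈ S ∩ nb G v, 1 / d = ∑ u ∈ S ∩ nb G v,
                (if ({v, u} : Finset V) ⊆ S then 1 / d else 0) := by
                  refine sum_congr rfl fun u hu => ?_
                  rw [if_pos]
                  intro y hy
                  rw [mem_insert, mem_singleton] at hy
                  rcases hy with rfl | rfl
                  · exact hv
                  · exact (mem_inter.mp hu).1
              _ ≤ _ := sum_le_sum_of_subset_of_nonneg inter_subset_right
                  fun u _ _ => by split_ifs <;> [exact hd1; exact le_rfl]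
          have h5 : 1 < ((S ∩ nb G v).card : ℝ) * (1 / d) := by
            rw [mul_one_div, lt_div_iff₀ hd, one_mul]
            exact hlt
          linarith
        · intro T hT hTn hcl
          have hmem : T ∈ ((nb G v).powersetCard n).filter
              (fun T : Finset V => G.IsClique (T : Set V)) := by
            rw [mem_filter, mem_powersetCard]
            exact ⟨⟨hT.trans inter_subset_right, hTn⟩, hcl⟩
          have h4 := single_le_sum (f := fun T : Finset V =>
            (if insert v T ⊆ S then (1 : ℝ) else 0)) (fun T _ => by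
              split_ifs <;> norm_num) hmem
          rw [if_pos] at h4
          · linarith
          · intro y hy
            rw [mem_insert] at hy
            rcases hy with rfl | hy
            · exact hv
            · exact (mem_inter.mp (hT hy)).1
        · intro u hu
          by_contra hlt
          push Not at hlt
          have hlt' : D ≤ (nb G u ∩ nb G v ∩ S).card := by
            have : D < (nb G u ∩ nb G v ∩ S).card := by exact_mod_cast hlt
            exact this.le
          obtain ⟨W, hW, hWc⟩ := Finset.exists_subset_card_eq hlt'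
          have hWm : W ∈ (nb G u ∩ nb G v).powersetCard D := by
            rw [mem_powersetCard]
            exact ⟨hW.trans inter_subset_left, hWc⟩
          have h4 := single_le_sum (f := fun W : Finset V =>
            (if insert v (insert u W) ⊆ S then (1 : ℝ) else 0)) (fun T _ => by
              split_ifs <;> norm_num) hWm
          rw [if_pos] at h4
          · have h5 := single_le_sum (f := fun u : V => ∑ W ∈ (nb G u ∩ nb G v).powersetCard D,
              (if insert v (insert u W) ⊆ S then (1 : ℝ) else 0)) (fun u _ =>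
                sum_nonneg fun W _ => by split_ifs <;> norm_num) (mem_inter.mp hu).2
            exact absurd (h4.trans h5) (not_le.mpr c3)
          · intro y hy
            rw [mem_insert, mem_insert] at hy
            rcases hy with rfl | rfl | hy
            · exact hv
            · exact (mem_inter.mp hu).1
            · exact (mem_inter.mp (hW hy)).2
      rcases h3 with h3 | h3 | h3 <;> linarith
  · rw [if_neg (fun h => hv (singleton_subset_iff.mp h))]
    have : (0 : ℝ) ≤ (if v ∈ good G S n d D then (1 : ℝ) else 0) := by split_ifs <;> norm_num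
    linarith

private lemma Smp_num (c D : ℕ) (κ p : ℝ) (hp : 0 < p) (hc : (c : ℝ) ≤ κ)
    (hD : 6 * κ * p ≤ D) : (c.choose D : ℝ) * p ^ D ≤ (1 / 2) ^ D := by
  have h1 : (c.choose D : ℝ) ≤ (c : ℝ) ^ D / (D.factorial : ℝ) := Nat.choose_le_pow_div D c
  have h0 : (0 : ℝ) ≤ c := Nat.cast_nonneg c
  have h2 : (c : ℝ) * p ≤ (D : ℝ) / 6 := by
    have := mul_le_mul_of_nonneg_right hc hp.le
    linarith
  have h3 : ((D : ℝ)) ^ D / (D.factorial : ℝ) ≤ Real.exp D :=
    Real.pow_div_factorial_le_exp D (Nat.cast_nonneg D) D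
  have h4 : Real.exp (D : ℝ) ≤ 3 ^ D := by
    have h5 : Real.exp 1 ≤ 3 := by
      have := Real.exp_one_lt_d9
      linarith
    calc Real.exp (D : ℝ) = Real.exp 1 ^ D := by rw [← Real.exp_nat_mul, mul_one]
      _ ≤ 3 ^ D := pow_le_pow_left₀ (Real.exp_pos 1).le h5 D
  have hf : (0 : ℝ) < (D.factorial : ℝ) := by exact_mod_cast D.factorial_pos
  calc (c.choose D : ℝ) * p ^ D ≤ ((c : ℝ) ^ D / (D.factorial : ℝ)) * p ^ D :=
        mul_le_mul_of_nonneg_right h1 (by positivity)
    _ = ((c : ℝ) * p) ^ D / (D.factorial : ℝ) := by rw [mul_pow]; ring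
    _ ≤ ((D : ℝ) / 6) ^ D / (D.factorial : ℝ) :=
        div_le_div_of_nonneg_right (pow_le_pow_left₀ (by positivity) h2 D) hf.le
    _ = (1 / 6) ^ D * ((D : ℝ) ^ D / (D.factorial : ℝ)) := by
        rw [show (D : ℝ) / 6 = (1 / 6) * D by ring, mul_pow]; ring
    _ ≤ (1 / 6) ^ D * 3 ^ D := mul_le_mul_of_nonneg_left (h3.trans h4) (by positivity)
    _ = (1 / 2) ^ D := by rw [← mul_pow]; norm_num

private lemma Smp_nb {V : Type} [Fintype V] (G : SimpleGraph V) (u v : V) (h : u ∈ nb G v) :
    G.Adj v u := by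
  unfold nb at h
  exact (mem_filter.mp h).2

private lemma Smp_self {V : Type} [Fintype V] (G : SimpleGraph V) (v : V) : v ∉ nb G v :=
  fun h => (G.loopless.irrefl v) (Smp_nb G v v h)

/-- M12 -/
theorem sample {V : Type} [Fintype V] (G : SimpleGraph V) (w : V → ℝ) (hw : ∀ v, 0 ≤ w v)
    (n m D : ℕ) (hn : 1 ≤ n) (hm : 1 ≤ m) (Δ κ k : ℝ) (hΔ : 0 < Δ)
    (hd : ∀ v, ((nb G v).card : ℝ) ≤ Δ)
    (hκ : ∀ u v, G.Adj u v → ((nb G u ∩ nb G v).card : ℝ) ≤ κ)
    (hk : ∀ v, ((((nb G v).powersetCard n).filter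
      (fun T : Finset V => G.IsClique (T : Set V))).card : ℝ) ≤ k)
    (hkm : k / (m : ℝ) ^ n ≤ 1 / 8) (hD1 : 6 * κ / m ≤ D) (hD2 : 8 * Δ / m ≤ 2 ^ D)
    (hD : 1 ≤ D) :
    ∃ S : Finset V, (∑ v, w v) / (2 * m) ≤ ∑ v ∈ good G S n (8 * Δ / m) D, w v := by
  have hm0 : (0 : ℝ) < m := by exact_mod_cast hm
  obtain ⟨p, hpdef⟩ : ∃ p : ℝ, p = 1 / m := ⟨_, rfl⟩
  have hp : 0 < p := by rw [hpdef]; positivity
  have hp1 : p ≤ 1 := by
    rw [hpdef, div_le_one hm0]
    exact_mod_cast hm
  have hdpos : 0 < 8 * Δ / m := by positivity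
  -- the expected value for one vertex
  have hv : ∀ v : V, p / 2 ≤ ∑ S : Finset V, Smp_P p S *
      (if v ∈ good G S n (8 * Δ / m) D then (1 : ℝ) else 0) := by
    intro v
    have hP : ∀ S : Finset V, 0 ≤ Smp_P p S := fun S => by
      unfold Smp_P
      have : 0 ≤ 1 - p := by linarith
      positivity
    have h1 : ∑ S : Finset V, Smp_P p S * ((if ({v} : Finset V) ⊆ S then (1 : ℝ) else 0) -
        (∑ u ∈ nb G v, (if ({v, u} : Finset V) ⊆ S then 1 / (8 * Δ / m) else 0)) -
        (∑ T ∈ ((nb G v).powersetCard n).filter (fun T : Finset V => G.IsClique (T : Set V)),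
          (if insert v T ⊆ S then (1 : ℝ) else 0)) -
        (∑ u ∈ nb G v, ∑ W ∈ (nb G u ∩ nb G v).powersetCard D,
          (if insert v (insert u W) ⊆ S then (1 : ℝ) else 0))) ≤
        ∑ S : Finset V, Smp_P p S *
          (if v ∈ good G S n (8 * Δ / m) D then (1 : ℝ) else 0) :=
      sum_le_sum fun S _ => mul_le_mul_of_nonneg_left (Smp_pt G S v n D _ hdpos) (hP S)
    refine le_trans ?_ h1
    simp only [mul_sub, sum_sub_distrib]
    rw [Smp_inc, Smp_E, Smp_E]
    have e1 : ∑ u ∈ nb G v, 1 / (8 * Δ / m) * p ^ (({v, u} : Finset V)).card ≤ p / 8 := by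
      have h2 : ∀ u ∈ nb G v, 1 / (8 * Δ / m) * p ^ (({v, u} : Finset V)).card =
          1 / (8 * Δ / m) * p ^ 2 := by
        intro u hu
        rw [card_pair (fun h => Smp_self G v (by rw [← h] at hu; exact hu))]
      rw [sum_congr rfl h2, sum_const, nsmul_eq_mul]
      have h3 := mul_le_mul_of_nonneg_right (hd v)
        (show 0 ≤ 1 / (8 * Δ / m) * p ^ 2 by positivity)
      refine h3.trans (le_of_eq ?_)
      rw [hpdef]
      field_simp
    have e2 : ∑ T ∈ ((nb G v).powersetCard n).filter
        (fun T : Finset V => G.IsClique (T : Set V)), 1 * p ^ (insert v T).card ≤ p / 8 := by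
      have h2 : ∀ T ∈ ((nb G v).powersetCard n).filter
          (fun T : Finset V => G.IsClique (T : Set V)), 1 * p ^ (insert v T).card =
          p ^ n * p := by
        intro T hT
        rw [mem_filter, mem_powersetCard] at hT
        rw [card_insert_of_notMem (fun h => Smp_self G v (hT.1.1 h)), hT.1.2, one_mul, pow_succ]
      rw [sum_congr rfl h2, sum_const, nsmul_eq_mul]
      have h3 := mul_le_mul_of_nonneg_right (hk v) (show 0 ≤ p ^ n * p by positivity)
      have h4 : k * p ^ n ≤ 1 / 8 := by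
        rw [hpdef, div_pow, one_pow, mul_one_div]
        exact hkm
      have h5 := mul_le_mul_of_nonneg_right h4 hp.le
      calc _ ≤ k * (p ^ n * p) := h3
        _ = k * p ^ n * p := by ring
        _ ≤ 1 / 8 * p := h5
        _ = p / 8 := by ring
    have e3 : ∑ S : Finset V, Smp_P p S * ∑ u ∈ nb G v, ∑ W ∈ (nb G u ∩ nb G v).powersetCard D,
        (if insert v (insert u W) ⊆ S then (1 : ℝ) else 0) ≤ p / 8 := by
      have h2 : ∀ S : Finset V, Smp_P p S * ∑ u ∈ nb G v,
          ∑ W ∈ (nb G u ∩ nb G v).powersetCard D,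
            (if insert v (insert u W) ⊆ S then (1 : ℝ) else 0) =
          ∑ u ∈ nb G v, Smp_P p S * ∑ W ∈ (nb G u ∩ nb G v).powersetCard D,
            (if insert v (insert u W) ⊆ S then (1 : ℝ) else 0) := fun S => by rw [mul_sum]
      rw [sum_congr rfl (fun S _ => h2 S), sum_comm]
      have h3 : ∀ u ∈ nb G v, ∑ S : Finset V, Smp_P p S *
          ∑ W ∈ (nb G u ∩ nb G v).powersetCard D,
            (if insert v (insert u W) ⊆ S then (1 : ℝ) else 0) ≤ (1 / 2) ^ D * p ^ 2 := by
        intro u hu
        have huv := Smp_nb G u v hu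
        rw [Smp_E]
        have h4 : ∀ W ∈ (nb G u ∩ nb G v).powersetCard D,
            1 * p ^ (insert v (insert u W)).card = p ^ D * p ^ 2 := by
          intro W hW
          rw [mem_powersetCard] at hW
          have hu1 : u ∉ W := fun h => Smp_self G u (mem_inter.mp (hW.1 h)).1
          have hv1 : v ∉ insert u W := by
            intro h
            rw [mem_insert] at h
            rcases h with h | h
            · rw [h] at huv
              exact G.loopless.irrefl _ huv
            · exact Smp_self G v (mem_inter.mp (hW.1 h)).2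
          rw [card_insert_of_notMem hv1, card_insert_of_notMem hu1, hW.2, one_mul, ← pow_add]
        rw [sum_congr rfl h4, sum_const, card_powersetCard, nsmul_eq_mul, ← mul_assoc]
        refine mul_le_mul_of_nonneg_right ?_ (by positivity)
        refine Smp_num _ D κ p hp (hκ u v huv.symm) ?_
        calc 6 * κ * p = 6 * κ / m := by rw [hpdef, mul_one_div]
          _ ≤ D := hD1
      refine (sum_le_sum h3).trans ?_
      rw [sum_const, nsmul_eq_mul]
      have h5 := mul_le_mul_of_nonneg_right (hd v)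
        (show (0 : ℝ) ≤ (1 / 2) ^ D * p ^ 2 by positivity)
      refine h5.trans ?_
      have h6 : 8 * Δ * p ≤ 2 ^ D := by
        calc 8 * Δ * p = 8 * Δ / m := by rw [hpdef, mul_one_div]
          _ ≤ 2 ^ D := hD2
      have h7 : (1 / 2 : ℝ) ^ D * 2 ^ D = 1 := by rw [← mul_pow]; norm_num
      have h8 : (1 / 2 : ℝ) ^ D * (8 * Δ * p) ≤ 1 :=
        (mul_le_mul_of_nonneg_left h6 (by positivity)).trans h7.le
      have h9 := mul_le_mul_of_nonneg_right h8 hp.le
      nlinarith
    have hc1 : (1 : ℝ) * p ^ ({v} : Finset V).card = p := by rw [card_singleton]; ring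
    rw [hc1]
    linarith
  -- averaging
  have hP : ∀ S : Finset V, 0 ≤ Smp_P p S := fun S => by
    unfold Smp_P
    have : 0 ≤ 1 - p := by linarith
    positivity
  have htot : ∑ S : Finset V, Smp_P p S = 1 := by
    have h := Smp_inc (V := V) p ∅ 1
    simpa using h
  by_contra hcon
  push Not at hcon
  have h1 : 0 < ∑ S : Finset V, Smp_P p S *
      ((∑ v, w v) / (2 * m) - ∑ v ∈ good G S n (8 * Δ / m) D, w v) := by
    refine sum_pos' (fun S _ => mul_nonneg (hP S) (by linarith [hcon S])) ⟨univ, mem_univ _, ?_⟩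
    refine mul_pos ?_ (by linarith [hcon univ])
    unfold Smp_P
    rw [sdiff_self]
    simp only [Finset.bot_eq_empty, card_empty, pow_zero, mul_one]
    positivity
  simp only [mul_sub, sum_sub_distrib] at h1
  rw [← sum_mul, htot, one_mul] at h1
  have h2 : ∑ S : Finset V, Smp_P p S * ∑ v ∈ good G S n (8 * Δ / m) D, w v =
      ∑ v, w v * ∑ S : Finset V, Smp_P p S *
        (if v ∈ good G S n (8 * Δ / m) D then (1 : ℝ) else 0) := by
    have h5 : ∀ S : Finset V, Smp_P p S * ∑ v ∈ good G S n (8 * Δ / m) D, w v =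
        ∑ v, w v * (Smp_P p S *
          (if v ∈ good G S n (8 * Δ / m) D then (1 : ℝ) else 0)) := by
      intro S
      rw [mul_sum, ← univ_inter (good G S n (8 * Δ / m) D), ← Finset.sum_ite_mem]
      refine sum_congr rfl fun v _ => ?_
      rw [univ_inter]
      split_ifs <;> ring
    rw [sum_congr rfl (fun S _ => h5 S), sum_comm]
    exact sum_congr rfl fun v _ => by rw [mul_sum]
  have h3 : ∑ v, w v * (p / 2) ≤ ∑ v, w v * ∑ S : Finset V, Smp_P p S *
        (if v ∈ good G S n (8 * Δ / m) D then (1 : ℝ) else 0) :=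
    sum_le_sum fun v _ => mul_le_mul_of_nonneg_left (hv v) (hw v)
  rw [← sum_mul] at h3
  have h4 : (∑ v, w v) * (p / 2) = (∑ v, w v) / (2 * m) := by
    rw [hpdef]
    field_simp
  rw [h2] at h1
  linarith

end MP06c.FA
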