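import Pool.Agent.Lib.MP_06c6c1_co.FA.Gap
import Pool.Agent.Lib.MP_06c6c1_co.FA.Dua
import Pool.Agent.Lib.MP_06c6c1_co.FA.Smp
import Pool.Agent.Lib.MP_06c6c1_co.FA.Num
import Pool.Agent.Lib.MP_06c6c1_co.Ramsey
import Pool.Agent.Lib.MP_06c6c1_co.Basic

/-!
# MP_06c6c1_co, project FA: the final theorem (helper85)
-/

set_option autoImplicit false

namespace MP06c.FA

open Finset Classical MP06c

private lemma Fin_empty {V : Type} [Fintype V] [IsEmpty V] (G : SimpleGraph V) (c : ℝ) :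
    ∃ p : Finset V → ℝ, (∀ I, 0 ≤ p I) ∧
      (∀ I, p I ≠ 0 → ∀ x ∈ I, ∀ y ∈ I, ¬ G.Adj x y) ∧ ∑ I : Finset V, p I = 1 ∧
      ∀ v : V, c ≤ ∑ I ∈ univ.filter (fun I : Finset V => v ∈ I), p I := by
  refine ⟨fun _ => 1, fun _ => zero_le_one, fun _ _ x => isEmptyElim x, ?_,
    fun v => isEmptyElim v⟩
  rw [sum_const, card_univ, Fintype.card_finset, Fintype.card_of_isEmpty]
  norm_num

private lemma Fin_co {V : Type} [Fintype V] (G : SimpleGraph V) (u v : V) :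
    (nb G u ∩ nb G v).card = (G.neighborSet u ∩ G.neighborSet v).ncard := by
  rw [← Set.ncard_coe_finset]
  congr 1
  ext x
  simp [nb]

private lemma Fin_res {V : Type} [Fintype V] (G : SimpleGraph V) (T : Finset V) (v : V) :
    nb (res G T) v ⊆ nb G v ∩ T := by
  intro x hx
  have h1 : (res G T).Adj v x := (mem_filter.1 hx).2
  exact mem_inter.2 ⟨mem_filter.2 ⟨mem_univ _, h1.1⟩, h1.2.2⟩

private lemma Fin_res0 {V : Type} [Fintype V] (G : SimpleGraph V) {T : Finset V} {v : V}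
    (hv : v ∉ T) : nb (res G T) v = ∅ := by
  refine eq_empty_of_forall_notMem fun x hx => ?_
  have h1 : (res G T).Adj v x := (mem_filter.1 hx).2
  exact hv h1.2.1

private lemma Fin_ind {V : Type} [Fintype V] (G : SimpleGraph V) (I : Finset V) :
    I ∈ ind G univ ↔ ∀ x ∈ I, ∀ y ∈ I, ¬ G.Adj x y := by
  unfold ind
  simp only [mem_filter, mem_powerset, subset_univ, true_and]

/-- The weighted bound for `G`. -/
private lemma Fin_weight {V : Type} [Fintype V] (G : SimpleGraph V) (w : V → ℝ)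
    (hw : ∀ v, 0 ≤ w v) (n m D M t0 j0 : ℕ) (hn : 1 ≤ n) (hm : 1 ≤ m) (Δ κ k d : ℝ) (hΔ : 0 < Δ)
    (hdm : 8 * Δ / m = d)
    (hd : ∀ v, ((nb G v).card : ℝ) ≤ Δ)
    (hκ : ∀ u v, G.Adj u v → ((nb G u ∩ nb G v).card : ℝ) ≤ κ)
    (hk : ∀ v, ((((nb G v).powersetCard n).filter
      (fun T : Finset V => G.IsClique (T : Set V))).card : ℝ) ≤ k)
    (hkm : k / (m : ℝ) ^ n ≤ 1 / 8) (hD1 : 6 * κ / m ≤ D) (hD2 : 8 * Δ / m ≤ 2 ^ D)
    (hD : 1 ≤ D) (hM : t0 ^ (n - 1) ≤ M)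
    (hN : Num d (Real.log d) D (Real.log d) M t0 j0) (hL : 1 < Real.log d) :
    ∃ I ∈ ind G univ, Real.log d / (2 ^ 19 * Δ) * ∑ v, w v ≤ ∑ v ∈ I, w v := by
  obtain ⟨S, hS⟩ := sample G w hw n m D hn hm Δ κ k hΔ hd hκ hk hkm hD1 hD2 hD
  rw [hdm] at hS
  have hd1 : 1 ≤ d := hN.hd
  have hd0 : 0 < d := by linarith
  set T : Finset V := good G S n d D with hT
  have hTS : T ⊆ S := filter_subset _ _
  have hgood : ∀ v ∈ T, ((S ∩ nb G v).card : ℝ) ≤ d ∧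
    (∀ T : Finset V, T ⊆ S ∩ nb G v → T.card = n → ¬ G.IsClique (T : Set V)) ∧
    ∀ u ∈ S ∩ nb G v, ((nb G u ∩ nb G v ∩ S).card : ℝ) ≤ D := fun v hv => (mem_filter.1 hv).2
  have hsub : ∀ v, nb (res G T) v ⊆ S ∩ nb G v := fun v x hx => by
    have h1 := mem_inter.1 (Fin_res G T v hx)
    exact mem_inter.2 ⟨hTS h1.2, h1.1⟩
  have hd' : ∀ v, ((nb (res G T) v).card : ℝ) ≤ d := by
    intro v
    by_cases hv : v ∈ T
    · have h1 : ((nb (res G T) v).card : ℝ) ≤ ((S ∩ nb G v).card : ℝ) := by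
        exact_mod_cast card_le_card (hsub v)
      exact h1.trans (hgood v hv).1
    · rw [Fin_res0 G hv, card_empty]
      simpa using hd0.le
  have hRam : Ram (res G T) M t0 := by
    intro v X hX hMX
    by_cases hv : v ∈ T
    · obtain ⟨Y, hY1, hY2, hY3⟩ := ramsey G n t0 hn X (hM.trans hMX) (fun Z hZ hZn =>
        (hgood v hv).2.1 Z (hZ.trans (hX.trans (hsub v))) hZn)
      exact ⟨Y, hY1, hY2, fun x hx y hy hxy => hY3 x hx y hy hxy.1⟩
    · rw [Fin_res0 G hv, subset_empty] at hX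
      rw [hX, card_empty] at hMX
      have := hN.hM
      omega
  have hκ' : ∀ u v, (res G T).Adj u v →
      ((nb (res G T) u ∩ nb (res G T) v).card : ℝ) ≤ ((D : ℕ) : ℝ) := by
    intro u v huv
    have h1 := (hgood v huv.2.2).2.2 u
      (mem_inter.2 ⟨hTS huv.2.1, mem_filter.2 ⟨mem_univ _, huv.1.symm⟩⟩)
    refine le_trans ?_ h1
    have h2 : nb (res G T) u ∩ nb (res G T) v ⊆ nb G u ∩ nb G v ∩ S := by
      intro x hx
      have h3 := mem_inter.1 (hsub u (mem_inter.1 hx).1)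
      have h4 := mem_inter.1 (hsub v (mem_inter.1 hx).2)
      exact mem_inter.2 ⟨mem_inter.2 ⟨h3.2, h4.2⟩, h3.1⟩
    exact_mod_cast card_le_card h2
  obtain ⟨I, hI, hIw⟩ := weighted (res G T) (fun v => if v ∈ T then w v else 0) M t0 j0 d
    (Real.log d) D hN hL hd' hRam (fun v => by by_cases hv : v ∈ T <;> simp [hv, hw v]) hκ'
  have e1 : ∑ v, (if v ∈ T then w v else 0) = ∑ v ∈ T, w v := by
    rw [← sum_filter]
    refine sum_congr ?_ fun _ _ => rfl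
    ext v
    simp
  have e2 : ∑ v ∈ I, (if v ∈ T then w v else 0) = ∑ v ∈ I.filter (fun v => v ∈ T), w v := by
    rw [← sum_filter]
  rw [e1, e2] at hIw
  refine ⟨I.filter (fun v => v ∈ T), ?_, ?_⟩
  · rw [Fin_ind]
    intro x hx y hy hxy
    have hx' := mem_filter.1 hx
    have hy' := mem_filter.1 hy
    exact (Fin_ind (res G T) I).1 hI x hx'.1 y hy'.1 ⟨hxy, hx'.2, hy'.2⟩
  · refine le_trans ?_ hIw
    have hm0 : (0 : ℝ) < m := by exact_mod_cast hm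
    have h1 : 1 / 32768 * Real.log d / d * ((∑ v, w v) / (2 * m)) ≤
        1 / 32768 * Real.log d / d * ∑ v ∈ T, w v :=
      mul_le_mul_of_nonneg_left hS (by positivity)
    refine le_trans (le_of_eq ?_) h1
    rw [← hdm]
    field_simp
    ring

theorem final :
    ∃ C : ℝ, 0 < C ∧ ∀ (n : ℕ) (F : SimpleGraph (Fin n)), ∃ K g₀ : ℝ, ∀ Δ : ℕ, ∀ k : ℝ,
      1 / 2 ≤ k → k < (Δ : ℝ) ^ n → g₀ ≤ (Δ : ℝ) * k ^ (-(1 : ℝ) / (n : ℝ)) →
    ∀ (V : Type) [Fintype V] (G : SimpleGraph V),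
      (∀ v : V, (G.neighborSet v).ncard ≤ Δ) →
      (∀ v : V, ((({H : G.Subgraph | H.verts ⊆ G.neighborSet v ∧ Nonempty (F ≃g H.coe)} :
          Set G.Subgraph).ncard : ℝ) ≤ k)) →
      (∀ u v : V, G.Adj u v → ((G.neighborSet u ∩ G.neighborSet v).ncard : ℝ) ≤
        Δ * Real.exp (-K * (Real.log (Real.log ((Δ : ℝ) * k ^ (-(1 : ℝ) / (n : ℝ))))) ^ 3)) →
      ∃ p : Finset V → ℝ, (∀ I, 0 ≤ p I) ∧
        (∀ I, p I ≠ 0 → ∀ x ∈ I, ∀ y ∈ I, ¬ G.Adj x y) ∧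
        ∑ I : Finset V, p I = 1 ∧
        ∀ v : V, Real.log ((Δ : ℝ) * k ^ (-(1 : ℝ) / (n : ℝ))) / (C * Δ) ≤
          ∑ I ∈ univ.filter (fun I : Finset V => v ∈ I), p I := by
  refine ⟨2 ^ 20, by norm_num, fun n F => ?_⟩
  rcases Nat.eq_zero_or_pos n with hn | hn
  · subst hn
    refine ⟨0, 0, fun Δ k _ hk2 _ V _ G _ hcop _ => ?_⟩
    rcases isEmpty_or_nonempty V with hV | ⟨⟨v⟩⟩
    · exact Fin_empty G _
    · exfalso
      have h1 := cliques_le_copies' F G v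
      have h2 := hcop v
      rw [pow_zero] at hk2
      have h3 : 1 ≤ (((nb G v).powersetCard 0).filter
          (fun T : Finset V => G.IsClique (T : Set V))).card := by
        rw [Nat.one_le_iff_ne_zero, ← Nat.pos_iff_ne_zero, card_pos]
        exact ⟨∅, by simp⟩
      have h4 : (1 : ℝ) ≤ (({H : G.Subgraph | H.verts ⊆ G.neighborSet v ∧
          Nonempty (F ≃g H.coe)} : Set G.Subgraph).ncard : ℝ) := by exact_mod_cast h3.trans h1
      linarith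
  obtain ⟨K, g₀, hg₀, hnum⟩ := numbers n hn
  refine ⟨K, g₀, fun Δ k hk1 hk2 hg V _ G hdeg hcop hcod => ?_⟩
  set g : ℝ := (Δ : ℝ) * k ^ (-(1 : ℝ) / (n : ℝ)) with hgdef
  have hg16 : 16 ≤ g := hg₀.trans hg
  have hΔ : 0 < Δ := by
    rcases Nat.eq_zero_or_pos Δ with h | h
    · rw [hgdef, h, Nat.cast_zero, zero_mul] at hg16
      norm_num at hg16
    · exact h
  have hΔ' : (0 : ℝ) < Δ := by exact_mod_cast hΔ
  obtain ⟨-, hg2, hkg⟩ := gfacts hn hΔ hk1 hk2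
  rw [← hgdef] at hg2 hkg
  have hg0 : 0 < g := by linarith
  obtain ⟨x, hx⟩ : ∃ x : ℝ, x = (Δ : ℝ) / g := ⟨_, rfl⟩
  have hx1 : 1 / 2 ≤ x := by
    rw [hx, div_le_div_iff₀ (by norm_num) hg0]
    linarith
  have hx0 : 0 < x := by linarith
  have hgx : g * x = Δ := by
    rw [hx]
    field_simp
  rw [← hx] at hkg
  obtain ⟨m, hm⟩ : ∃ m : ℕ, m = ⌈8 * x⌉₊ := ⟨_, rfl⟩
  have hm1 : 8 * x ≤ m := by
    rw [hm]
    exact Nat.le_ceil _
  have hm2 : (m : ℝ) ≤ 10 * x := by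
    have h1 := Nat.ceil_lt_add_one (show (0 : ℝ) ≤ 8 * x by positivity)
    rw [← hm] at h1
    linarith
  have hm0 : (0 : ℝ) < m := by linarith
  have hm' : 1 ≤ m := by exact_mod_cast (show (0 : ℝ) < m from hm0)
  obtain ⟨d, hd⟩ : ∃ d : ℝ, 8 * (Δ : ℝ) / m = d := ⟨_, rfl⟩
  have hdm : d * m = 8 * Δ := by
    rw [← hd]
    field_simp
  have hdg : d ≤ g := by
    have h1 : d * m ≤ g * m := by
      rw [hdm, ← hgx]
      nlinarith
    exact le_of_mul_le_mul_right h1 hm0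
  have hdg2 : 0.8 * g ≤ d := by
    have h1 : (0.8 * g) * m ≤ d * m := by
      rw [hdm, ← hgx]
      nlinarith
    exact le_of_mul_le_mul_right h1 hm0
  have hd1 : 1 ≤ d := by linarith
  have hd0 : 0 < d := by linarith
  obtain ⟨E, hE⟩ : ∃ E : ℝ, E = Real.exp (-K * (Real.log (Real.log g)) ^ 3) := ⟨_, rfl⟩
  have hE0 : 0 < E := by
    rw [hE]
    exact Real.exp_pos _
  rw [← hE] at hcod
  obtain ⟨l, hl⟩ : ∃ l : ℝ, l = Real.logb 2 d := ⟨_, rfl⟩
  have hl0 : 0 ≤ l := by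
    rw [hl]
    exact Real.logb_nonneg (by norm_num) hd1
  have hl2 : (2 : ℝ) ^ l = d := by
    rw [hl]
    exact Real.rpow_logb (by norm_num) (by norm_num) hd0
  have hκm : 0 ≤ 6 * ((Δ : ℝ) * E) / m := by positivity
  obtain ⟨D, hD⟩ : ∃ D : ℕ, D = ⌈6 * ((Δ : ℝ) * E) / m + l⌉₊ + 1 := ⟨_, rfl⟩
  have hDc := Nat.le_ceil (6 * ((Δ : ℝ) * E) / m + l)
  have hDc2 := Nat.ceil_lt_add_one (show (0 : ℝ) ≤ 6 * ((Δ : ℝ) * E) / m + l by linarith)
  have hDr : (D : ℝ) = (⌈6 * ((Δ : ℝ) * E) / m + l⌉₊ : ℝ) + 1 := by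
    rw [hD]
    push_cast
    rfl
  have hD1 : 6 * ((Δ : ℝ) * E) / m ≤ D := by linarith
  have hD2 : 8 * (Δ : ℝ) / m ≤ 2 ^ D := by
    rw [hd, ← hl2, ← Real.rpow_natCast]
    exact Real.rpow_le_rpow_of_exponent_le (by norm_num) (by linarith)
  have hD3 : (D : ℝ) ≤ d * E + 2 * l + 2 := by
    have h1 : 6 * ((Δ : ℝ) * E) / m ≤ d * E := by
      rw [← hd]
      have h2 : 6 * ((Δ : ℝ) * E) / m = 6 / 8 * (8 * (Δ : ℝ) / m * E) := by ring
      have h3 : 0 ≤ 8 * (Δ : ℝ) / m * E := by positivity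
      rw [h2]
      linarith
    linarith
  rw [hl] at hD3
  rw [hE] at hD3
  obtain ⟨M, t0, j0, hM, hN, hL, hgL⟩ := hnum g d D hg hdg2 hdg (Nat.cast_nonneg D) hD3
  have hlogg : 0 < Real.log g := Real.log_pos (by linarith)
  have hc : 0 < Real.log g / (2 ^ 20 * Δ) := by positivity
  obtain ⟨p, hp1, hp2, hp3, hp4⟩ := duality G (Real.log g / (2 ^ 20 * Δ)) hc (by
    intro w hw
    obtain ⟨I, hI, hIw⟩ := Fin_weight G w hw n m D M t0 j0 hn hm' Δ (Δ * E) k d hΔ' hd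
      (fun v => by
        rw [nb_card]
        exact_mod_cast hdeg v)
      (fun u v huv => by
        rw [Fin_co]
        exact hcod u v huv)
      (fun v => (Nat.cast_le.2 (cliques_le_copies' F G v)).trans (hcop v))
      (by
        rw [div_le_iff₀ (by positivity), hkg]
        have h1 : x ^ n ≤ (m / 8 : ℝ) ^ n := pow_le_pow_left₀ hx0.le (by linarith) n
        have h2 : (m / 8 : ℝ) ^ n = (1 / 8) ^ n * (m : ℝ) ^ n := by
          rw [← mul_pow]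
          congr 1
          ring
        have h3 : ((1 : ℝ) / 8) ^ n ≤ (1 / 8) ^ 1 :=
          pow_le_pow_of_le_one (by norm_num) (by norm_num) hn
        rw [pow_one] at h3
        have h4 : ((1 : ℝ) / 8) ^ n * (m : ℝ) ^ n ≤ 1 / 8 * (m : ℝ) ^ n :=
          mul_le_mul_of_nonneg_right h3 (by positivity)
        linarith)
      hD1 hD2 (by omega) hM hN hL
    refine ⟨I, hI, le_trans ?_ hIw⟩
    refine mul_le_mul_of_nonneg_right ?_ (sum_nonneg fun v _ => hw v)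
    rw [div_le_div_iff₀ (by positivity) (by positivity)]
    nlinarith)
  refine ⟨p, hp1, fun I hI => ?_, hp3, hp4⟩
  exact (Fin_ind G I).1 (by
    by_contra hcon
    exact hI (hp2 I hcon))

end MP06c.FA
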