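import Pool.Agent.Lib.MP_06c6c1_co.FA.Defs

set_option autoImplicit false

namespace MP06c.FA

open Finset Classical MP06c

theorem free_sum {V : Type} [Fintype V] (G : SimpleGraph V) (X : Finset V) :
    ∑ J ∈ ind G X, (fr G X J).card = cs G X := by
  have h1 : ∑ J ∈ ind G X, (fr G X J).card =
      ((ind G X).sigma (fun J => fr G X J)).card := by
    rw [card_sigma]
  have h2 : cs G X = ((ind G X).sigma (fun J => J)).card := by
    rw [card_sigma, cs]
  rw [h1, h2]
  refine card_bij' (fun p _ => ⟨insert p.2 p.1, p.2⟩) (fun p _ => ⟨p.1.erase p.2, p.2⟩)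
    ?_ ?_ ?_ ?_
  · rintro ⟨J, u⟩ h
    simp only [mem_sigma, ind, mem_filter, mem_powerset, fr, mem_sdiff, nb,
      Finset.disjoint_left] at h ⊢
    obtain ⟨⟨hJX, hJ⟩, ⟨huX, huJ⟩, hd⟩ := h
    refine ⟨⟨insert_subset huX hJX, ?_⟩, mem_insert_self _ _⟩
    intro x hx y hy hxy
    rw [mem_insert] at hx hy
    rcases hx with rfl | hx <;> rcases hy with rfl | hy
    · exact G.loopless.irrefl _ hxy
    · exact hd ⟨mem_univ _, hxy⟩ hy
    · exact hd ⟨mem_univ _, hxy.symm⟩ hx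
    · exact hJ x hx y hy hxy
  · rintro ⟨J, u⟩ h
    simp only [mem_sigma, ind, mem_filter, mem_powerset, fr, mem_sdiff, nb,
      Finset.disjoint_left] at h ⊢
    obtain ⟨⟨hJX, hJ⟩, hu⟩ := h
    refine ⟨⟨(erase_subset _ _).trans hJX, ?_⟩, ⟨hJX hu, by simp⟩, ?_⟩
    · intro x hx y hy
      exact hJ x (mem_of_mem_erase hx) y (mem_of_mem_erase hy)
    · rintro y ⟨_, hy⟩ hy2
      exact hJ u hu y (mem_of_mem_erase hy2) hy
  · rintro ⟨J, u⟩ h
    simp only [mem_sigma, fr, mem_filter, mem_sdiff] at h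
    have hu : u ∉ J := h.2.1.2
    simp only [erase_insert hu]
  · rintro ⟨J, u⟩ h
    simp only [mem_sigma] at h
    simp only [insert_erase h.2]

end MP06c.FA
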