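import Pool.Agent.Lib.MP_06c6c1_co.FA.Defs
import Pool.Agent.Lib.MP_06c6c1_co.FA.Dom

set_option autoImplicit false

/-!
# MP_06c6c1_co, project FA, module M10: weight classes with gaps
-/

namespace MP06c.FA

open Finset Classical MP06c

private theorem Gap_step {V : Type} [Fintype V] (G : SimpleGraph V) (w : V → ℝ) (L η : ℝ)
    (hη : 0 ≤ η) (hw : ∀ v, 0 ≤ w v) (c : V → ℤ)
    (hP : ∀ B : Finset V, (∀ u ∈ B, ∀ v ∈ B, w v ≤ L * w u) →
      ∃ I ∈ ind G B, η * ∑ v ∈ B, w v ≤ ∑ v ∈ I, w v) (A : Finset V) :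
    (∀ u ∈ A, ∀ v ∈ A, c u = c v → w v ≤ L * w u) →
    (∀ u ∈ A, ∀ v ∈ A, c u < c v → L * w u ≤ w v) →
    ∃ I ∈ ind G A, η * (∑ v ∈ A, w v -
      ∑ u ∈ I, ∑ y ∈ A.filter (fun y => G.Adj u y ∧ L * w y ≤ w u), w y) ≤ ∑ v ∈ I, w v := by
  induction A using Finset.strongInduction with
  | H A ih =>
    intro h1 h2
    rcases A.eq_empty_or_nonempty with hA | hA
    · subst hA
      exact ⟨∅, by simp [ind], by simp⟩
    · obtain ⟨a, haA, hamin⟩ := A.exists_min_image c hA
      obtain ⟨B, hB⟩ : ∃ B, B = A.filter (fun v => c v = c a) := ⟨_, rfl⟩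
      obtain ⟨A', hA'⟩ : ∃ A', A' = A.filter (fun v => ¬ c v = c a) := ⟨_, rfl⟩
      have hBA : B ⊆ A := by rw [hB]; exact filter_subset _ _
      have hAA : A' ⊆ A := by rw [hA']; exact filter_subset _ _
      have hss : A' ⊂ A := by
        refine ⟨hAA, fun h => ?_⟩
        have := h haA
        rw [hA', mem_filter] at this
        exact this.2 rfl
      obtain ⟨I', hI', hI'w⟩ := ih A' hss (fun u hu v hv => h1 u (hAA hu) v (hAA hv))
        (fun u hu v hv => h2 u (hAA hu) v (hAA hv))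
      obtain ⟨B2, hB2⟩ : ∃ B2, B2 = B.filter (fun y => ∀ u ∈ I', ¬ G.Adj u y) := ⟨_, rfl⟩
      have hB2B : B2 ⊆ B := by rw [hB2]; exact filter_subset _ _
      have hcB : ∀ y ∈ B, c y = c a := fun y hy => by
        rw [hB, mem_filter] at hy
        exact hy.2
      have hcA : ∀ y ∈ A', c a < c y := fun y hy => by
        have hy' := hy
        rw [hA', mem_filter] at hy'
        exact lt_of_le_of_ne (hamin y hy'.1) (Ne.symm hy'.2)
      obtain ⟨J, hJ, hJw⟩ := hP B2 (fun u hu v hv => h1 u (hBA (hB2B hu)) v (hBA (hB2B hv))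
        ((hcB u (hB2B hu)).trans (hcB v (hB2B hv)).symm))
      simp only [ind, mem_filter, mem_powerset] at hI' hJ
      have hJB : J ⊆ B := hJ.1.trans hB2B
      have hIA : I' ⊆ A' := hI'.1
      have hIJ : Disjoint I' J := by
        rw [Finset.disjoint_left]
        intro x hx hx'
        have h3 := hcA x (hIA hx)
        rw [hcB x (hJB hx')] at h3
        exact lt_irrefl _ h3
      have hIJn : ∀ x ∈ I', ∀ y ∈ J, ¬ G.Adj x y := fun x hx y hy => by
        have := hJ.1 hy
        rw [hB2, mem_filter] at this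
        exact this.2 x hx
      refine ⟨I' ∪ J, ?_, ?_⟩
      · simp only [ind, mem_filter, mem_powerset]
        refine ⟨union_subset (hIA.trans hAA) (hJB.trans hBA), fun x hx y hy => ?_⟩
        rw [mem_union] at hx hy
        rcases hx with hx | hx <;> rcases hy with hy | hy
        · exact hI'.2 x hx y hy
        · exact hIJn x hx y hy
        · exact fun h => hIJn y hy x hx h.symm
        · exact hJ.2 x hx y hy
      · have hsum : ∑ v ∈ A, w v = ∑ v ∈ B, w v + ∑ v ∈ A', w v := by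
          rw [hB, hA']
          exact (sum_filter_add_sum_filter_not A _ _).symm
        have h4 : ∑ v ∈ B, w v ≤ ∑ v ∈ B2, w v +
            ∑ u ∈ I', ∑ y ∈ B.filter (fun y => G.Adj u y), w y := by
          have h5 : ∑ v ∈ B, w v = ∑ v ∈ B2, w v +
              ∑ v ∈ B.filter (fun y => ¬ ∀ u ∈ I', ¬ G.Adj u y), w v := by
            rw [hB2]
            exact (sum_filter_add_sum_filter_not B _ _).symm
          have h6 : ∑ v ∈ B.filter (fun y => ¬ ∀ u ∈ I', ¬ G.Adj u y), w v ≤
              ∑ u ∈ I', ∑ y ∈ B.filter (fun y => G.Adj u y), w y := by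
            have h7 : ∑ u ∈ I', ∑ y ∈ B.filter (fun y => G.Adj u y), w y =
                ∑ y ∈ B, ∑ u ∈ I', if G.Adj u y then w y else 0 := by
              rw [sum_comm]
              refine sum_congr rfl fun u _ => ?_
              rw [sum_filter]
            rw [h7, sum_filter]
            refine sum_le_sum fun y _ => ?_
            have hnn : ∀ u ∈ I', (0 : ℝ) ≤ if G.Adj u y then w y else 0 := fun u _ => by
              split_ifs
              · exact hw y
              · exact le_refl _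
            by_cases hy : ∀ u ∈ I', ¬ G.Adj u y
            · rw [if_neg (not_not.2 hy)]
              exact sum_nonneg hnn
            · rw [if_pos hy]
              push Not at hy
              obtain ⟨u, hu, huy⟩ := hy
              have := single_le_sum hnn hu
              rwa [if_pos huy] at this
          rw [h5]
          linarith
        have h8 : ∑ u ∈ I', ∑ y ∈ A'.filter (fun y => G.Adj u y ∧ L * w y ≤ w u), w y +
            ∑ u ∈ I', ∑ y ∈ B.filter (fun y => G.Adj u y), w y ≤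
            ∑ u ∈ I' ∪ J, ∑ y ∈ A.filter (fun y => G.Adj u y ∧ L * w y ≤ w u), w y := by
          rw [sum_union hIJ, ← sum_add_distrib]
          have h9 : 0 ≤ ∑ u ∈ J, ∑ y ∈ A.filter (fun y => G.Adj u y ∧ L * w y ≤ w u), w y :=
            sum_nonneg fun u _ => sum_nonneg fun y _ => hw y
          refine le_trans (sum_le_sum fun u hu => ?_) (le_add_of_nonneg_right h9)
          have hd : Disjoint (A'.filter (fun y => G.Adj u y ∧ L * w y ≤ w u))
              (B.filter (fun y => G.Adj u y)) := by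
            rw [Finset.disjoint_left]
            intro x hx hx'
            have h3 := hcA x (mem_filter.1 hx).1
            rw [hcB x (mem_filter.1 hx').1] at h3
            exact lt_irrefl _ h3
          rw [← sum_union hd]
          refine sum_le_sum_of_subset_of_nonneg ?_ fun y _ _ => hw y
          intro y hy
          rw [mem_union, mem_filter, mem_filter] at hy
          rw [mem_filter]
          rcases hy with hy | hy
          · exact ⟨hAA hy.1, hy.2⟩
          · refine ⟨hBA hy.1, hy.2, h2 y (hBA hy.1) u (hAA (hIA hu)) ?_⟩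
            rw [hcB y hy.1]
            exact hcA u (hIA hu)
        have hU : ∑ v ∈ I' ∪ J, w v = ∑ v ∈ I', w v + ∑ v ∈ J, w v := sum_union hIJ
        rw [hU, hsum]
        have h10 : ∑ v ∈ B, w v + ∑ v ∈ A', w v -
            ∑ u ∈ I' ∪ J, ∑ y ∈ A.filter (fun y => G.Adj u y ∧ L * w y ≤ w u), w y ≤
            (∑ v ∈ A', w v - ∑ u ∈ I', ∑ y ∈ A'.filter (fun y => G.Adj u y ∧ L * w y ≤ w u), w y)
              + ∑ v ∈ B2, w v := by linarith
        have h11 := mul_le_mul_of_nonneg_left h10 hη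
        rw [mul_add] at h11
        linarith

private theorem Gap_main {V : Type} [Fintype V] (G : SimpleGraph V) (w : V → ℝ) (L η d : ℝ)
    (hη : 0 ≤ η) (hL : 1 < L) (hηd : η * d ≤ L) (hw : ∀ v, 0 ≤ w v)
    (hd : ∀ v, ((nb G v).card : ℝ) ≤ d)
    (hP : ∀ B : Finset V, (∀ u ∈ B, ∀ v ∈ B, w v ≤ L * w u) →
      ∃ I ∈ ind G B, η * ∑ v ∈ B, w v ≤ ∑ v ∈ I, w v) (A : Finset V)
    (hA : ∀ v ∈ A, 0 < w v)
    (hc : ∀ u ∈ A, ∀ v ∈ A, ⌊Real.log (w u) / Real.log L⌋ < ⌊Real.log (w v) / Real.log L⌋ →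
      ⌊Real.log (w u) / Real.log L⌋ + 2 ≤ ⌊Real.log (w v) / Real.log L⌋) :
    ∃ I ∈ ind G A, η / 2 * ∑ v ∈ A, w v ≤ ∑ v ∈ I, w v := by
  have hlL : 0 < Real.log L := Real.log_pos hL
  have hL0 : 0 < L := by linarith
  have key1 : ∀ u ∈ A, ∀ v ∈ A,
      Real.log (w v) / Real.log L < Real.log (w u) / Real.log L + 1 → w v ≤ L * w u := by
    intro u hu v hv h
    have h3 : Real.log (w v) < Real.log (w u) + Real.log L := by
      have h4 := mul_lt_mul_of_pos_right h hlL
      rw [add_mul, one_mul, div_mul_cancel₀ _ hlL.ne', div_mul_cancel₀ _ hlL.ne'] at h4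
      exact h4
    rw [← Real.log_mul (hA u hu).ne' hL0.ne'] at h3
    have h5 := (Real.log_lt_log_iff (hA v hv) (mul_pos (hA u hu) hL0)).1 h3
    linarith
  have key2 : ∀ u ∈ A, ∀ v ∈ A,
      Real.log (w u) / Real.log L + 1 < Real.log (w v) / Real.log L → L * w u ≤ w v := by
    intro u hu v hv h
    have h3 : Real.log (w u) + Real.log L < Real.log (w v) := by
      have h4 := mul_lt_mul_of_pos_right h hlL
      rw [add_mul, one_mul, div_mul_cancel₀ _ hlL.ne', div_mul_cancel₀ _ hlL.ne'] at h4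
      exact h4
    rw [← Real.log_mul (hA u hu).ne' hL0.ne'] at h3
    have h5 := (Real.log_lt_log_iff (mul_pos (hA u hu) hL0) (hA v hv)).1 h3
    linarith
  obtain ⟨I, hI, hIw⟩ := Gap_step G w L η hη hw (fun v => ⌊Real.log (w v) / Real.log L⌋) hP A
    (fun u hu v hv h => key1 u hu v hv (by
      have h3 := Int.floor_le (Real.log (w u) / Real.log L)
      have h4 := Int.lt_floor_add_one (Real.log (w v) / Real.log L)
      have h' : ⌊Real.log (w u) / Real.log L⌋ = ⌊Real.log (w v) / Real.log L⌋ := h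
      rw [h'] at h3
      linarith))
    (fun u hu v hv h => key2 u hu v hv (by
      have h3 := Int.lt_floor_add_one (Real.log (w u) / Real.log L)
      have h4 := Int.floor_le (Real.log (w v) / Real.log L)
      have h5 : ((⌊Real.log (w u) / Real.log L⌋ + 2 : ℤ) : ℝ) ≤
          (⌊Real.log (w v) / Real.log L⌋ : ℤ) := by exact_mod_cast hc u hu v hv h
      push_cast at h5
      linarith))
  refine ⟨I, hI, ?_⟩
  have hS : ∑ u ∈ I, ∑ y ∈ A.filter (fun y => G.Adj u y ∧ L * w y ≤ w u), w y ≤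
      d / L * ∑ u ∈ I, w u := by
    rw [mul_sum]
    refine sum_le_sum fun u _ => ?_
    calc ∑ y ∈ A.filter (fun y => G.Adj u y ∧ L * w y ≤ w u), w y
        ≤ ∑ _y ∈ A.filter (fun y => G.Adj u y ∧ L * w y ≤ w u), w u / L := by
          refine sum_le_sum fun y hy => ?_
          rw [le_div_iff₀ hL0]
          have := (mem_filter.1 hy).2.2
          linarith
      _ = ((A.filter (fun y => G.Adj u y ∧ L * w y ≤ w u)).card : ℝ) * (w u / L) := by
          rw [sum_const, nsmul_eq_mul]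
      _ ≤ d * (w u / L) := by
          refine mul_le_mul_of_nonneg_right ?_ (div_nonneg (hw u) hL0.le)
          refine le_trans ?_ (hd u)
          have : A.filter (fun y => G.Adj u y ∧ L * w y ≤ w u) ⊆ nb G u := by
            intro y hy
            simp only [nb, mem_filter, mem_univ, true_and]
            exact (mem_filter.1 hy).2.1
          exact_mod_cast card_le_card this
      _ = d / L * w u := by ring
  have hWI : 0 ≤ ∑ u ∈ I, w u := sum_nonneg fun u _ => hw u
  have h6 : η * (d / L) ≤ 1 := by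
    rw [← mul_div_assoc, div_le_one hL0]
    exact hηd
  have h7 : η * (d / L * ∑ u ∈ I, w u) ≤ ∑ u ∈ I, w u := by
    rw [← mul_assoc]
    exact mul_le_of_le_one_left hWI h6
  have h8 := mul_le_mul_of_nonneg_left hS hη
  rw [mul_sub] at hIw
  linarith

theorem weighted {V : Type} [Fintype V] (G : SimpleGraph V) (w : V → ℝ)
    (M t0 j0 : ℕ) (d L κ : ℝ) (hN : Num d L κ L M t0 j0) (hL : 1 < L)
    (hd : ∀ v, ((nb G v).card : ℝ) ≤ d)
    (hRam : Ram G M t0) (hw : ∀ v, 0 ≤ w v)
    (hκ : ∀ u v, G.Adj u v → ((nb G u ∩ nb G v).card : ℝ) ≤ κ) :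
    ∃ I ∈ ind G univ, 1 / 32768 * L / d * ∑ v, w v ≤ ∑ v ∈ I, w v := by
  have hd1 : 1 ≤ d := hN.hd
  have hd0 : 0 < d := by linarith
  have hη : 0 ≤ 1 / 8192 * L / d := by positivity
  have hηd : 1 / 8192 * L / d * d ≤ L := by
    rw [div_mul_cancel₀ _ hd0.ne']
    linarith
  have hP : ∀ B : Finset V, (∀ u ∈ B, ∀ v ∈ B, w v ≤ L * w u) →
      ∃ I ∈ ind G B, 1 / 8192 * L / d * ∑ v ∈ B, w v ≤ ∑ v ∈ I, w v :=
    fun B hB => block_on G w B M t0 j0 d L κ L hN hd hRam hw hB hκ
  have hmain : ∀ A : Finset V, (∀ v ∈ A, 0 < w v) →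
      (∀ u ∈ A, ∀ v ∈ A, ⌊Real.log (w u) / Real.log L⌋ < ⌊Real.log (w v) / Real.log L⌋ →
        ⌊Real.log (w u) / Real.log L⌋ + 2 ≤ ⌊Real.log (w v) / Real.log L⌋) →
      (∑ v, w v) / 2 ≤ ∑ v ∈ A, w v →
      ∃ I ∈ ind G univ, 1 / 32768 * L / d * ∑ v, w v ≤ ∑ v ∈ I, w v := by
    intro A hA hc hh
    obtain ⟨I, hI, hIw⟩ := Gap_main G w L (1 / 8192 * L / d) d hη hL hηd hw hd hP A hA hc
    refine ⟨I, ?_, ?_⟩
    · simp only [ind, mem_filter, mem_powerset] at hI ⊢
      exact ⟨subset_univ _, hI.2⟩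
    · have h3 := mul_le_mul_of_nonneg_left hh (half_pos (lt_of_le_of_ne hη ?_)).le
      · calc 1 / 32768 * L / d * ∑ v, w v = 1 / 8192 * L / d / 2 * ((∑ v, w v) / 2) := by ring
          _ ≤ _ := h3
          _ ≤ _ := hIw
      · have : 0 < 1 / 8192 * L / d := by positivity
        exact this.ne
  obtain ⟨A0, hA0⟩ : ∃ A0 : Finset V, A0 = univ.filter
      (fun v => 0 < w v ∧ Even ⌊Real.log (w v) / Real.log L⌋) := ⟨_, rfl⟩
  obtain ⟨A1, hA1⟩ : ∃ A1 : Finset V, A1 = univ.filter
      (fun v => 0 < w v ∧ ¬ Even ⌊Real.log (w v) / Real.log L⌋) := ⟨_, rfl⟩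
  have hsum : ∑ v, w v = ∑ v ∈ A0, w v + ∑ v ∈ A1, w v := by
    rw [hA0, hA1, sum_filter, sum_filter, ← sum_add_distrib]
    refine sum_congr rfl fun v _ => ?_
    rcases (hw v).eq_or_lt with h0 | h0
    · simp [← h0]
    · by_cases h1 : Even ⌊Real.log (w v) / Real.log L⌋
      · simp [h0, h1]
      · simp [h0, h1]
  rcases le_total (∑ v ∈ A0, w v) (∑ v ∈ A1, w v) with h | h
  · refine hmain A1 (fun v hv => ?_) (fun u hu v hv hlt => ?_) (by linarith)
    · rw [hA1, mem_filter] at hv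
      exact hv.2.1
    · rw [hA1, mem_filter] at hu hv
      have h1 := hu.2.2
      have h2 := hv.2.2
      rw [Int.not_even_iff_odd] at h1 h2
      obtain ⟨p, hp⟩ := h1
      obtain ⟨q, hq⟩ := h2
      omega
  · refine hmain A0 (fun v hv => ?_) (fun u hu v hv hlt => ?_) (by linarith)
    · rw [hA0, mem_filter] at hv
      exact hv.2.1
    · rw [hA0, mem_filter] at hu hv
      obtain ⟨p, hp⟩ := hu.2.2
      obtain ⟨q, hq⟩ := hv.2.2
      omega

end MP06c.FA
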