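import Pool.Agent.Lib.MP_06c6c1_co.FA.Defs
import Pool.Agent.Lib.MP_06c6c1_co.Ramsey
import Pool.Agent.Lib.MP_06c6c1_co.Cliques
import Pool.Agent.Lib.MP_06c6c1_co.Basic

set_option autoImplicit false

/-!
# MP_06c6c1_co, project FA: statements of the modules (note 5014). Never import this file.
-/

namespace MP06c.FA.Spec

open Finset Classical MP06c MP06c.FA

/-! ## M1 Fibre -/

theorem fibre {V : Type} [Fintype V] (G : SimpleGraph V) (v : V) (h : Finset V → ℝ) :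
    ∑ I ∈ ind G univ, h I =
      ∑ O ∈ OO G v, (h (insert v O) + ∑ J ∈ ind G (av G v O), h (O ∪ J)) := by
  sorry

/-- (a) -/
theorem fibre_mem {V : Type} [Fintype V] (G : SimpleGraph V) (v : V) :
    ((ind G univ).filter (fun I => v ∈ I)).card = (OO G v).card := by
  sorry

/-- (b) -/
theorem fibre_card {V : Type} [Fintype V] (G : SimpleGraph V) (v : V) :
    (ci G univ : ℝ) = ∑ O ∈ OO G v, (1 + (ci G (av G v O) : ℝ)) := by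
  sorry

/-- (c) -/
theorem fibre_nb {V : Type} [Fintype V] (G : SimpleGraph V) (v : V) :
    ∑ I ∈ ind G univ, ((I ∩ nb G v).card : ℝ) = ∑ O ∈ OO G v, (cs G (av G v O) : ℝ) := by
  sorry

/-- (d) -/
theorem fibre_event {V : Type} [Fintype V] (G : SimpleGraph V) (v : V) (E : Finset V → Prop) :
    ∑ O ∈ OO G v, (((ind G (av G v O)).filter (fun J => E (O ∪ J))).card : ℝ) ≤
      (((ind G univ).filter E).card : ℝ) := by
  sorry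

/-- (e) `I` with `v ∉ I` are exactly the `O ∪ J`. -/
theorem fibre_not_mem {V : Type} [Fintype V] (G : SimpleGraph V) (v : V) (E : Finset V → Prop) :
    (((ind G univ).filter (fun I => v ∉ I ∧ E I)).card : ℝ) =
      ∑ O ∈ OO G v, (((ind G (av G v O)).filter (fun J => E (O ∪ J))).card : ℝ) := by
  sorry

/-! ## M2 Free vertices -/

theorem free_sum {V : Type} [Fintype V] (G : SimpleGraph V) (X : Finset V) :
    ∑ J ∈ ind G X, (fr G X J).card = cs G X := by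
  sorry

/-! ## M3 Greedy cover -/

theorem cover {V ι : Type} (J : Finset V) (B : Finset ι) (A : ι → Finset V) (M j : ℕ)
    (hA : ∀ b ∈ B, A b ⊆ J) (hM : 2 ≤ M) (hj : (Real.log M) ^ 2 ≤ j) (hB : B.card ≤ M)
    (hAj : ∀ b ∈ B, j ≤ (A b).card) :
    ∃ S : Finset V, S ⊆ J ∧ (S.card : ℝ) ≤ J.card / Real.log M + 1 ∧
      ∀ b ∈ B, ¬ Disjoint (A b) S := by
  sorry

/-! ## M4 Counting small subsets -/

theorem count_small {V : Type} (X : Finset V) (s : ℕ) :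
    (X.powerset.filter (fun S => S.card ≤ s)).card ≤ (1 + X.card) ^ s := by
  sorry

/-! ## M5 Encoding lemma -/

theorem encode {V : Type} [Fintype V] (G : SimpleGraph V) (X : Finset V) (M j0 : ℕ) (L : ℝ)
    (hL : 1 ≤ L) (hM : 2 ≤ M) (hX : X.card + 1 ≤ M) (hj : (Real.log M) ^ 2 ≤ j0)
    (hs : (cs G X : ℝ) < L / 64 * ci G X) (hi : Real.exp (L / 2) ≤ ci G X)
    (hN : Real.exp (0.2125 * L + Real.log M) < Real.exp (L / 2) / 2) :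
    (ci G X : ℝ) / 4 ≤ ((ind G X).filter (fun J => ∃ u ∈ X \ J, 1 ≤ (J ∩ nb G u).card ∧
      (J ∩ nb G u).card ≤ j0)).card := by
  sorry

/-! ## M6 Size lemma -/

theorem size {V : Type} [Fintype V] (G : SimpleGraph V) (v : V) (X : Finset V) (M t0 : ℕ)
    (d L : ℝ) (hXv : X ⊆ nb G v) (hd : ((nb G v).card : ℝ) ≤ d) (hL : 1 ≤ L) (hR : Ram G M t0)
    (n2 : 2 * (1 + d) ^ (⌊L / 32⌋₊) < 2 ^ t0) (hs : (cs G X : ℝ) < L / 64 * ci G X) :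
    X.card < M := by
  sorry

/-! ## M7 Small intersections are rare -/

theorem rare {V : Type} [Fintype V] (G : SimpleGraph V) (u : V) (M t0 j0 : ℕ) (d : ℝ)
    (hd1 : 1 ≤ d) (hd : ((nb G u).card : ℝ) ≤ d) (hM : 2 ≤ M) (hR : Ram G M t0)
    (n4 : (1 + d) ^ j0 ≤ (2 : ℝ) ^ t0 / d ^ 10) :
    (((ind G univ).filter (fun I => 1 ≤ (I ∩ nb G u).card ∧ (I ∩ nb G u).card ≤ j0)).card : ℝ) ≤
      (M : ℝ) ^ j0 * (((ind G univ).filter (fun I => u ∈ I)).card : ℝ) +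
        (ci G univ : ℝ) / d ^ 10 := by
  sorry

/-! ## M8 Block theorem -/

/-- M8a (small fibres) -/
theorem smallFib {V : Type} [Fintype V] (G : SimpleGraph V) (w : V → ℝ) (d : ℝ) (hd : 1 ≤ d)
    (hw : ∀ v, 0 ≤ w v) :
    ∑ v, w v * ∑ O ∈ (OO G v).filter (fun O => (ci G (av G v O) : ℝ) < Real.sqrt d),
      (1 + (ci G (av G v O) : ℝ)) ≤
      (1 + Real.sqrt d) * ∑ I ∈ ind G univ, ∑ v ∈ I, w v := by
  sorry

/-- M8b (large average) -/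
theorem bigAvg {V : Type} [Fintype V] (G : SimpleGraph V) (w : V → ℝ) (d L : ℝ) (hd : 1 ≤ d)
    (hL : 1 ≤ L) (hw : ∀ v, 0 ≤ w v) (hdom : ∀ v, ∑ u ∈ nb G v, w u ≤ 2 * d * w v) :
    ∑ v, w v * ∑ O ∈ (OO G v).filter (fun O => L / 64 * (ci G (av G v O) : ℝ) ≤
      (cs G (av G v O) : ℝ)), (1 + (ci G (av G v O) : ℝ)) ≤
      256 * d / L * ∑ I ∈ ind G univ, ∑ v ∈ I, w v := by
  sorry

/-- M8c (bad fibres give the event) -/
theorem badFib {V : Type} [Fintype V] (G : SimpleGraph V) (v : V) (M t0 j0 : ℕ) (d L κ R : ℝ)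
    (hN : Num d L κ R M t0 j0) (hd : ((nb G v).card : ℝ) ≤ d) (hR : Ram G M t0) :
    ∑ O ∈ (OO G v).filter (fun O => Real.sqrt d ≤ (ci G (av G v O) : ℝ) ∧
      (cs G (av G v O) : ℝ) < L / 64 * (ci G (av G v O) : ℝ)), (1 + (ci G (av G v O) : ℝ)) ≤
      8 * (((ind G univ).filter (Ev G j0 v)).card : ℝ) := by
  sorry

/-- M8d (upper bound for the events) -/
theorem evUpper {V : Type} [Fintype V] (G : SimpleGraph V) (w : V → ℝ) (j0 : ℕ) (κ R : ℝ)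
    (hw : ∀ v, 0 ≤ w v) (hR : 0 ≤ R) (hwR : ∀ u v, G.Adj u v → w v ≤ R * w u)
    (hκ : ∀ u v, G.Adj u v → ((nb G u ∩ nb G v).card : ℝ) ≤ κ) (I : Finset V) :
    ∑ v ∈ univ.filter (fun v => Ev G j0 v I), w v ≤
      κ * R * ∑ u ∈ univ.filter (fun u => 1 ≤ (I ∩ nb G u).card ∧ (I ∩ nb G u).card ≤ j0),
        w u := by
  sorry

/-- M8 -/
theorem block {V : Type} [Fintype V] (G : SimpleGraph V) (w : V → ℝ) (M t0 j0 : ℕ)
    (d L κ R : ℝ) (hN : Num d L κ R M t0 j0) (hd : ∀ v, ((nb G v).card : ℝ) ≤ d)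
    (hRam : Ram G M t0) (hw : ∀ v, 0 ≤ w v) (hwR : ∀ u v, G.Adj u v → w v ≤ R * w u)
    (hκ : ∀ u v, G.Adj u v → ((nb G u ∩ nb G v).card : ℝ) ≤ κ)
    (hdom : ∀ v, ∑ u ∈ nb G v, w u ≤ 2 * d * w v) :
    ∃ I ∈ ind G univ, 1 / 4096 * L / d * ∑ v, w v ≤ ∑ v ∈ I, w v := by
  sorry

/-! ## M9 Domination -/

theorem dom_half {V : Type} [Fintype V] (G : SimpleGraph V) (w : V → ℝ) (d : ℝ) (hd1 : 1 ≤ d)
    (hd : ∀ v, ((nb G v).card : ℝ) ≤ d) (hw : ∀ v, 0 ≤ w v) :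
    (∑ v, w v) / 2 ≤ ∑ v ∈ univ.filter (fun v => ∑ u ∈ nb G v, w u ≤ 2 * d * w v), w v := by
  sorry

/-- For every set `A` on which all weights are within a factor `R`. -/
theorem block_on {V : Type} [Fintype V] (G : SimpleGraph V) (w : V → ℝ) (A : Finset V)
    (M t0 j0 : ℕ) (d L κ R : ℝ) (hN : Num d L κ R M t0 j0) (hd : ∀ v, ((nb G v).card : ℝ) ≤ d)
    (hRam : Ram G M t0) (hw : ∀ v, 0 ≤ w v)
    (hwR : ∀ u ∈ A, ∀ v ∈ A, w v ≤ R * w u)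
    (hκ : ∀ u v, G.Adj u v → ((nb G u ∩ nb G v).card : ℝ) ≤ κ) :
    ∃ I ∈ ind G A, 1 / 8192 * L / d * ∑ v ∈ A, w v ≤ ∑ v ∈ I, w v := by
  sorry

/-! ## M10 Blocks with gaps -/

theorem weighted {V : Type} [Fintype V] (G : SimpleGraph V) (w : V → ℝ)
    (M t0 j0 : ℕ) (d L κ : ℝ) (hN : Num d L κ L M t0 j0) (hL : 1 < L)
    (hd : ∀ v, ((nb G v).card : ℝ) ≤ d)
    (hRam : Ram G M t0) (hw : ∀ v, 0 ≤ w v)
    (hκ : ∀ u v, G.Adj u v → ((nb G u ∩ nb G v).card : ℝ) ≤ κ) :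
    ∃ I ∈ ind G univ, 1 / 32768 * L / d * ∑ v, w v ≤ ∑ v ∈ I, w v := by
  sorry

/-! ## M11 Duality -/

theorem duality {V : Type} [Fintype V] (G : SimpleGraph V) (c : ℝ) (hc : 0 < c)
    (h : ∀ w : V → ℝ, (∀ v, 0 ≤ w v) → ∃ I ∈ ind G univ, c * ∑ v, w v ≤ ∑ v ∈ I, w v) :
    ∃ p : Finset V → ℝ, (∀ I, 0 ≤ p I) ∧ (∀ I, I ∉ ind G univ → p I = 0) ∧
      ∑ I : Finset V, p I = 1 ∧ ∀ v, c ≤ ∑ I ∈ univ.filter (fun I : Finset V => v ∈ I), p I := by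
  sorry

/-! ## M12 Sampling -/

/-- The good vertices of a random colour class. -/
noncomputable def good {V : Type} [Fintype V] (G : SimpleGraph V) (S : Finset V) (n : ℕ)
    (d κ' : ℝ) : Finset V :=
  S.filter (fun v => ((S ∩ nb G v).card : ℝ) ≤ d ∧
    (∀ T : Finset V, T ⊆ S ∩ nb G v → T.card = n → ¬ G.IsClique (T : Set V)) ∧
    ∀ u ∈ S ∩ nb G v, ((nb G u ∩ nb G v ∩ S).card : ℝ) ≤ κ')

theorem sample {V : Type} [Fintype V] (G : SimpleGraph V) (w : V → ℝ) (hw : ∀ v, 0 ≤ w v)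
    (n m D : ℕ) (hn : 1 ≤ n) (hm : 1 ≤ m) (Δ κ k : ℝ) (hΔ : 0 < Δ)
    (hd : ∀ v, ((nb G v).card : ℝ) ≤ Δ)
    (hκ : ∀ u v, G.Adj u v → ((nb G u ∩ nb G v).card : ℝ) ≤ κ)
    (hk : ∀ v, ((((nb G v).powersetCard n).filter
      (fun T : Finset V => G.IsClique (T : Set V))).card : ℝ) ≤ k)
    (hkm : k / (m : ℝ) ^ n ≤ 1 / 8) (hD1 : 6 * κ / m ≤ D) (hD2 : 8 * Δ / m ≤ 2 ^ D)
    (hD : 1 ≤ D) :
    ∃ S : Finset V, (∑ v, w v) / (2 * m) ≤ ∑ v ∈ good G S n (8 * Δ / m) D, w v := by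
  sorry

/-! ## M13 Numbers -/

theorem numbers (n : ℕ) (hn : 1 ≤ n) :
    ∃ K g₀ : ℝ, 16 ≤ g₀ ∧ ∀ g d κ : ℝ, g₀ ≤ g → 0.8 * g ≤ d → d ≤ g → 0 ≤ κ →
      κ ≤ d * Real.exp (-K * (Real.log (Real.log g)) ^ 3) + 2 * Real.logb 2 d + 2 →
      ∃ M t0 j0 : ℕ, t0 ^ (n - 1) ≤ M ∧ Num d (Real.log d) κ (Real.log d) M t0 j0 ∧
        1 < Real.log d ∧ Real.log g ≤ 2 * Real.log d := by
  sorry

/-! ## Final theorem -/

theorem final :
    ∃ C : ℝ, 0 < C ∧ ∀ (n : ℕ) (F : SimpleGraph (Fin n)), ∃ K g₀ : ℝ, ∀ Δ : ℕ, ∀ k : ℝ,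
      1 / 2 ≤ k → k < (Δ : ℝ) ^ n → g₀ ≤ (Δ : ℝ) * k ^ (-(1 : ℝ) / (n : ℝ)) →
    ∀ (V : Type) [Fintype V] (G : SimpleGraph V),
      (∀ v : V, (G.neighborSet v).ncard ≤ Δ) →
      (∀ v : V, ((({H : G.Subgraph | H.verts ⊆ G.neighborSet v ∧ Nonempty (F ≃g H.coe)} :
          Set G.Subgraph).ncard : ℝ) ≤ k)) →
      (∀ u v : V, G.Adj u v → ((G.neighborSet u ∩ G.neighborSet v).ncard : ℝ) ≤
        Δ * Real.exp (-K * (Real.log (Real.log ((Δ : ℝ) * k ^ (-(1 : ℝ) / (n : ℝ))))) ^ 3)) →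
      ∃ p : Finset V → ℝ, (∀ I, 0 ≤ p I) ∧
        (∀ I, p I ≠ 0 → ∀ x ∈ I, ∀ y ∈ I, ¬ G.Adj x y) ∧
        ∑ I : Finset V, p I = 1 ∧
        ∀ v : V, Real.log ((Δ : ℝ) * k ^ (-(1 : ℝ) / (n : ℝ))) / (C * Δ) ≤
          ∑ I ∈ univ.filter (fun I : Finset V => v ∈ I), p I := by
  sorry

end MP06c.FA.Spec
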